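import Pool.Agent.Helper31.ErgSL2.Conv

/-!
# Approximation of ball averages by smoothed ball averages
-/

set_option autoImplicit false
open MeasureTheory Filter Topology

namespace Pool.Agent.Helper31.ErgSL2

lemma kp_inv (p : ℕ) (g : SL2) : kp p g⁻¹ = kp p g := by unfold kp; rw [NN_inv]

lemma kp_inv_mul (p : ℕ) (g h : SL2) : kp p (g⁻¹ * h) = kp p (h⁻¹ * g) := by
  rw [← kp_inv, mul_inv_rev, inv_inv]

variable [MeasurableSpace SL2] [BorelSpace SL2]
variable {X : Type*} [MeasurableSpace X] [MulAction SL2 X] [MeasurableSMul₂ SL2 X]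
variable (m : Measure SL2) [m.IsHaarMeasure]

/-- indicator of a ball -/
noncomputable def ib (R : ℝ) : SL2 → ℝ := {g : SL2 | NN g < R}.indicator (fun _ => 1)

lemma measurable_ib (R : ℝ) : Measurable (ib R) :=
  measurable_const.indicator (measurableSet_ball R)

lemma integrable_ib (R : ℝ) : Integrable (ib R) m := by
  unfold ib
  rw [integrable_indicator_iff (measurableSet_ball R)]
  exact integrable_const _

lemma kp_eta_integrable (p : ℕ) (hp : 4 ≤ p) :
    Integrable (fun g => kp p g * Real.sqrt (NN g * (NN g - 2))) m := by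
  refine (integrable_kp m (p - 1) (by omega)).mono' ?_ (Eventually.of_forall fun g => ?_)
  · apply Measurable.aestronglyMeasurable
    exact (measurable_kp p).mul (Real.continuous_sqrt.measurable.comp
      (measurable_NN.mul (measurable_NN.sub_const 2)))
  · have hN := NN_ge_two g
    have h0 := kp_pos p g
    rw [Real.norm_of_nonneg (mul_nonneg h0.le (Real.sqrt_nonneg _))]
    have h1 : Real.sqrt (NN g * (NN g - 2)) ≤ NN g := by
      rw [Real.sqrt_le_left (by linarith)]; nlinarith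
    have h2 : kp (p - 1) g = kp p g * NN g := by
      obtain ⟨q, rfl⟩ : ∃ q, p = q + 1 := ⟨p - 1, by omega⟩
      rw [Nat.add_sub_cancel]
      unfold kp
      rw [pow_succ, mul_assoc, inv_mul_cancel₀ (NN_pos g).ne', mul_one]
    rw [h2]
    exact mul_le_mul_of_nonneg_left h1 h0.le

/-- the kernel with the first variable in the ball -/
noncomputable def Ak (p : ℕ) (R : ℝ) (z : SL2 × SL2) : ℝ := ib R z.1 * kp p (z.1⁻¹ * z.2)
/-- the kernel with the second variable in the ball -/
noncomputable def Bk (p : ℕ) (R : ℝ) (z : SL2 × SL2) : ℝ := ib R z.2 * kp p (z.1⁻¹ * z.2)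

lemma Ak_int (p : ℕ) (hp : 2 ≤ p) (R : ℝ) : Integrable (Ak p R) (m.prod m) := by
  have h1 : Integrable (fun z : SL2 × SL2 => ib R z.1 * kp p z.2) (m.prod m) :=
    (integrable_ib m R).mul_prod (integrable_kp m p hp)
  exact (measurePreserving_prod_inv_mul m m).integrable_comp_of_integrable h1

lemma Bk_int (p : ℕ) (hp : 2 ≤ p) (R : ℝ) : Integrable (Bk p R) (m.prod m) := by
  have h1 : Integrable (fun z : SL2 × SL2 => ib R z.1 * kp p z.2) (m.prod m) :=
    (integrable_ib m R).mul_prod (integrable_kp m p hp)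
  have h2 := (measurePreserving_prod_inv_mul_swap m m).integrable_comp_of_integrable h1
  refine h2.congr (Eventually.of_forall fun z => ?_)
  simp only [Function.comp, Bk]
  rw [kp_inv_mul]

lemma diff_int (p : ℕ) (hp : 4 ≤ p) {R : ℝ} (hR : 0 ≤ R) :
    ∫ z, |Ak p R z - Bk p R z| ∂(m.prod m)
      ≤ 2 * vc m * R * ∫ g, kp p g * Real.sqrt (NN g * (NN g - 2)) ∂m := by
  have hvc := vc_pos m
  have hmeasA : Measurable (Ak p R) :=
    ((measurable_ib R).comp measurable_fst).mul
      ((measurable_kp p).comp (measurable_fst.inv.mul measurable_snd))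
  have hmeasB : Measurable (Bk p R) :=
    ((measurable_ib R).comp measurable_snd).mul
      ((measurable_kp p).comp (measurable_fst.inv.mul measurable_snd))
  have hmAB : Measurable (fun z => |Ak p R z - Bk p R z|) := (hmeasA.sub hmeasB).abs
  rw [integral_eq_lintegral_of_nonneg_ae (f := fun z => |Ak p R z - Bk p R z|)
    (Eventually.of_forall fun z => abs_nonneg _) hmAB.aestronglyMeasurable]
  -- transport by the shear
  set c : SL2 × SL2 → ENNReal := fun z => ENNReal.ofReal (kp p z.2) *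
    {z : SL2 × SL2 | ¬ (NN z.1 < R ↔ NN (z.1 * z.2) < R)}.indicator (fun _ => 1) z with hc
  have hset : MeasurableSet {z : SL2 × SL2 | ¬ (NN z.1 < R ↔ NN (z.1 * z.2) < R)} := by
    have m1 : MeasurableSet {z : SL2 × SL2 | NN z.1 < R} := (measurableSet_ball R).preimage measurable_fst
    have m2 : MeasurableSet {z : SL2 × SL2 | NN (z.1 * z.2) < R} :=
      (measurableSet_ball R).preimage (measurable_fst.mul measurable_snd)
    have e : {z : SL2 × SL2 | ¬ (NN z.1 < R ↔ NN (z.1 * z.2) < R)}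
        = ({z : SL2 × SL2 | NN z.1 < R} \ {z : SL2 × SL2 | NN (z.1 * z.2) < R})
          ∪ ({z : SL2 × SL2 | NN (z.1 * z.2) < R} \ {z : SL2 × SL2 | NN z.1 < R}) := by
      ext z
      simp only [Set.mem_ofPred_eq, Set.mem_union, Set.mem_sdiff]
      tauto
    rw [e]
    exact (m1.diff m2).union (m2.diff m1)
  have hcm : Measurable c :=
    ((measurable_kp p).comp measurable_snd).ennreal_ofReal.mul (measurable_one.indicator hset)
  have h1 : ∀ z : SL2 × SL2, ENNReal.ofReal |Ak p R z - Bk p R z| = c (z.1, z.1⁻¹ * z.2) := by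
    intro z
    simp only [hc, Ak, Bk, ib, mul_inv_cancel_left]
    have hk := kp_pos p (z.1⁻¹ * z.2)
    by_cases g1 : NN z.1 < R <;> by_cases g2 : NN z.2 < R <;>
      simp [Set.indicator, g1, g2, abs_of_pos hk]
  have h2 : ∫⁻ z, ENNReal.ofReal |Ak p R z - Bk p R z| ∂(m.prod m) = ∫⁻ z, c z ∂(m.prod m) := by
    simp_rw [h1]
    exact (measurePreserving_prod_inv_mul m m).lintegral_comp hcm
  rw [h2, lintegral_prod_symm' _ hcm]
  have h3 : ∀ u : SL2, ∫⁻ g, c (g, u) ∂m ≤
      ENNReal.ofReal (2 * vc m * R * (kp p u * Real.sqrt (NN u * (NN u - 2)))) := by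
    intro u
    simp only [hc]
    rw [lintegral_const_mul _ (by
      apply Measurable.comp (g := fun z : SL2 × SL2 =>
        {z : SL2 × SL2 | ¬ (NN z.1 < R ↔ NN (z.1 * z.2) < R)}.indicator (fun _ => (1 : ENNReal)) z)
        (measurable_one.indicator hset) (measurable_id.prodMk measurable_const))]
    have e : (fun g : SL2 => {z : SL2 × SL2 | ¬ (NN z.1 < R ↔ NN (z.1 * z.2) < R)}.indicator
        (fun _ => (1 : ENNReal)) (g, u)) = {g : SL2 | ¬ (NN g < R ↔ NN (g * u) < R)}.indicator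
        (fun _ => 1) := by
      funext g; simp [Set.indicator]
    rw [e]
    have hset2 : MeasurableSet {g : SL2 | ¬ (NN g < R ↔ NN (g * u) < R)} :=
      hset.preimage (measurable_id.prodMk measurable_const : Measurable fun g : SL2 => (g, u))
    rw [lintegral_indicator_const hset2, one_mul]
    have h4 := symm_meas m u hR
    calc ENNReal.ofReal (kp p u) * m {g : SL2 | ¬ (NN g < R ↔ NN (g * u) < R)}
        ≤ ENNReal.ofReal (kp p u) * ENNReal.ofReal (2 * vc m * R * Real.sqrt (NN u * (NN u - 2))) :=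
          mul_le_mul_right h4 _
      _ = _ := by
          rw [← ENNReal.ofReal_mul (kp_pos p u).le]; congr 1; ring
  have h5 : ∫⁻ u, ∫⁻ g, c (g, u) ∂m ∂m ≤
      ENNReal.ofReal (2 * vc m * R * ∫ g, kp p g * Real.sqrt (NN g * (NN g - 2)) ∂m) := by
    rw [← integral_const_mul, ofReal_integral_eq_lintegral_ofReal
      ((kp_eta_integrable m p hp).const_mul _) (Eventually.of_forall fun u =>
        mul_nonneg (by positivity) (mul_nonneg (kp_pos p u).le (Real.sqrt_nonneg _)))]
    exact lintegral_mono h3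
  refine ENNReal.toReal_le_of_le_ofReal ?_ h5
  apply mul_nonneg (by positivity)
  exact integral_nonneg fun g => mul_nonneg (kp_pos p g).le (Real.sqrt_nonneg _)

/-- The smoothed ball average is close to the ball average. -/
lemma approx (p : ℕ) (hp : 4 ≤ p) {w : X → ℝ} (hw : BM w) {C : ℝ} (hC : ∀ x, |w x| ≤ C)
    {R : ℝ} (hR : 4 ≤ R) (x : X) :
    |BA m R (T m p w) x - Zp m p * BA m R w x| ≤
      4 * C * ∫ g, kp p g * Real.sqrt (NN g * (NN g - 2)) ∂m := by
  have hvc := vc_pos m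
  have hC0 : 0 ≤ C := (abs_nonneg _).trans (hC x)
  have hwm := meas_inv_smul' hw.meas x
  have iA : Integrable (fun z : SL2 × SL2 => Ak p R z * w (z.2⁻¹ • x)) (m.prod m) := by
    have := (Ak_int m p (by omega) R).bdd_mul (c := C)
      (hwm.comp measurable_snd).aestronglyMeasurable (Eventually.of_forall fun q => hC _)
    exact this.congr (Eventually.of_forall fun q => mul_comm _ _)
  have iB : Integrable (fun z : SL2 × SL2 => Bk p R z * w (z.2⁻¹ • x)) (m.prod m) := by
    have := (Bk_int m p (by omega) R).bdd_mul (c := C)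
      (hwm.comp measurable_snd).aestronglyMeasurable (Eventually.of_forall fun q => hC _)
    exact this.congr (Eventually.of_forall fun q => mul_comm _ _)
  have eA : ∫ z, Ak p R z * w (z.2⁻¹ • x) ∂(m.prod m)
      = ∫ g in {g : SL2 | NN g < R}, T m p w (g⁻¹ • x) ∂m := by
    rw [integral_prod _ iA, ← integral_indicator (measurableSet_ball R)]
    congr 1; funext g
    simp only [Ak]
    have e1 : ∫ h, ib R g * kp p (g⁻¹ * h) * w (h⁻¹ • x) ∂m
        = ib R g * ∫ h, kp p (g⁻¹ * h) * w (h⁻¹ • x) ∂m := by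
      rw [← integral_const_mul]; congr 1; funext h; ring
    rw [e1, ← T_smul]
    by_cases hg : NN g < R
    · rw [Set.indicator_of_mem (show g ∈ {g : SL2 | NN g < R} from hg), ib,
        Set.indicator_of_mem (show g ∈ {g : SL2 | NN g < R} from hg), one_mul]
    · rw [Set.indicator_of_notMem (show g ∉ {g : SL2 | NN g < R} from hg), ib,
        Set.indicator_of_notMem (show g ∉ {g : SL2 | NN g < R} from hg), zero_mul]
  have eB : ∫ z, Bk p R z * w (z.2⁻¹ • x) ∂(m.prod m)
      = Zp m p * ∫ g in {g : SL2 | NN g < R}, w (g⁻¹ • x) ∂m := by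
    rw [integral_prod_symm _ iB, ← integral_indicator (measurableSet_ball R),
      ← integral_const_mul]
    congr 1; funext h
    simp only [Bk]
    have e1 : ∫ g, ib R h * kp p (g⁻¹ * h) * w (h⁻¹ • x) ∂m
        = (ib R h * w (h⁻¹ • x)) * ∫ g, kp p (h⁻¹ * g) ∂m := by
      rw [← integral_const_mul]; congr 1; funext g; rw [kp_inv_mul]; ring
    have e2 : ∫ g, kp p (h⁻¹ * g) ∂m = Zp m p := integral_mul_left_eq_self (kp p) _
    rw [e1, e2]
    by_cases hg : NN h < R
    · rw [Set.indicator_of_mem (show h ∈ {g : SL2 | NN g < R} from hg), ib,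
        Set.indicator_of_mem (show h ∈ {g : SL2 | NN g < R} from hg)]; ring
    · rw [Set.indicator_of_notMem (show h ∉ {g : SL2 | NN g < R} from hg), ib,
        Set.indicator_of_notMem (show h ∉ {g : SL2 | NN g < R} from hg)]; ring
  unfold BA
  rw [← eA, vol_toReal m (by linarith)]
  have hpos : 0 < vc m * (R - 2) := mul_pos hvc (by linarith)
  have e3 : (vc m * (R - 2))⁻¹ * ∫ z, Ak p R z * w (z.2⁻¹ • x) ∂(m.prod m)
      - Zp m p * ((vc m * (R - 2))⁻¹ * ∫ g in {g : SL2 | NN g < R}, w (g⁻¹ • x) ∂m)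
      = (vc m * (R - 2))⁻¹ * ∫ z, (Ak p R z * w (z.2⁻¹ • x) - Bk p R z * w (z.2⁻¹ • x))
        ∂(m.prod m) := by
    rw [integral_sub iA iB, eB]; ring
  rw [e3, abs_mul, abs_inv, abs_of_pos hpos, inv_mul_le_iff₀ hpos]
  have iAB : Integrable (fun z => |Ak p R z - Bk p R z|) (m.prod m) :=
    ((Ak_int m p (by omega) R).sub (Bk_int m p (by omega) R)).abs
  have h1 : |∫ z, (Ak p R z * w (z.2⁻¹ • x) - Bk p R z * w (z.2⁻¹ • x)) ∂(m.prod m)|
      ≤ ∫ z, C * |Ak p R z - Bk p R z| ∂(m.prod m) := by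
    rw [← Real.norm_eq_abs]
    apply norm_integral_le_of_norm_le (iAB.const_mul C)
    refine Eventually.of_forall fun z => ?_
    rw [← sub_mul, Real.norm_eq_abs, abs_mul, mul_comm]
    exact mul_le_mul_of_nonneg_right (hC _) (abs_nonneg _)
  refine h1.trans ?_
  rw [integral_const_mul]
  have h2 := diff_int m p hp (show 0 ≤ R by linarith)
  set I := ∫ g, kp p g * Real.sqrt (NN g * (NN g - 2)) ∂m with hI
  have hI0 : 0 ≤ I := integral_nonneg fun g => mul_nonneg (kp_pos p g).le (Real.sqrt_nonneg _)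
  calc C * ∫ z, |Ak p R z - Bk p R z| ∂(m.prod m) ≤ C * (2 * vc m * R * I) :=
        mul_le_mul_of_nonneg_left h2 hC0
    _ ≤ vc m * (R - 2) * (4 * C * I) := by
        have : 0 ≤ vc m * (C * I) := by positivity
        nlinarith

lemma exists_p (η C : ℝ) (hη : 0 < η) (hC : 0 ≤ C) : ∃ p : ℕ, 4 ≤ p ∧
    4 * C * (∫ g, kp p g * Real.sqrt (NN g * (NN g - 2)) ∂m) / Zp m p ≤ η := by
  set δ := η / (8 * C + 1) with hδ
  have hδ0 : 0 < δ := by positivity
  -- (p - 1) / ((p-3)(p-2)) ≤ 4 / p for p ≥ 6 e.g.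
  obtain ⟨N, hN⟩ := exists_nat_gt (16 / δ ^ 2)
  refine ⟨N + 8, by omega, ?_⟩
  set p := N + 8 with hp
  have hp8 : (8 : ℝ) ≤ p := by rw [hp]; push_cast; have := Nat.cast_nonneg (α := ℝ) N; linarith
  have hZ := Zp_pos m p (by omega)
  have h1 := kp_eta_le m p (by omega) δ hδ0
  rw [div_le_iff₀ hZ]
  have h2 : 4 * ((p : ℝ) - 1) / (δ * ((p - 3) * (p - 2))) ≤ δ := by
    have hpos : 0 < δ * (((p : ℝ) - 3) * (p - 2)) := by
      apply mul_pos hδ0; apply mul_pos <;> linarith
    rw [div_le_iff₀ hpos]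
    have h3 : 16 < δ ^ 2 * N := by
      rw [div_lt_iff₀ (by positivity)] at hN; linarith
    have h4 : (N : ℝ) = p - 8 := by rw [hp]; push_cast; ring
    rw [h4] at h3
    -- δ² (p-3)(p-2) ≥ ... ≥ 4 (p-1)
    have h5 : δ ^ 2 * ((p - 3) * (p - 2)) ≥ δ ^ 2 * ((p - 8) * ((p - 1) / 2)) := by
      apply mul_le_mul_of_nonneg_left _ (by positivity)
      nlinarith
    have h6 : δ ^ 2 * (((p : ℝ) - 8) * ((p - 1) / 2)) = (δ ^ 2 * (p - 8)) * ((p - 1) / 2) := by ring
    have h7 : 16 * (((p : ℝ) - 1) / 2) ≤ (δ ^ 2 * (p - 8)) * ((p - 1) / 2) :=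
      mul_le_mul_of_nonneg_right h3.le (by linarith)
    nlinarith
  have h3 : ∫ g, kp p g * Real.sqrt (NN g * (NN g - 2)) ∂m ≤ Zp m p * (2 * δ) := by
    refine h1.trans ?_
    apply mul_le_mul_of_nonneg_left _ hZ.le
    linarith
  have h4 : 4 * C * (2 * δ) ≤ η := by
    rw [hδ]
    have : 4 * C * (2 * (η / (8 * C + 1))) = η * (8 * C / (8 * C + 1)) := by field_simp; ring
    rw [this]
    have h5 : 8 * C / (8 * C + 1) ≤ 1 := by rw [div_le_one (by positivity)]; linarith
    nlinarith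
  calc 4 * C * ∫ g, kp p g * Real.sqrt (NN g * (NN g - 2)) ∂m
      ≤ 4 * C * (Zp m p * (2 * δ)) := mul_le_mul_of_nonneg_left h3 (by positivity)
    _ = (4 * C * (2 * δ)) * Zp m p := by ring
    _ ≤ η * Zp m p := mul_le_mul_of_nonneg_right h4 hZ.le

variable (μ : Measure X) [IsProbabilityMeasure μ] [SMulInvariantMeasure SL2 X μ]

/-- Convergence for bounded mean zero functions. -/
theorem conv_bdd0 {R₀ ε : ℝ} (hgap : Gap μ R₀ ε) (hε : 0 < ε) {w : X → ℝ} (hw : BM w)
    (hw0 : ∫ x, w x ∂μ = 0) : ∀ᵐ x ∂μ, Tendsto (fun R => BA m R w x) atTop (𝓝 0) := by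
  obtain ⟨C, hC0, hC⟩ := hw.bdd'
  have h1 : ∀ p : ℕ, ∀ᵐ x ∂μ, 4 ≤ p → Tendsto (fun R => BA m R (T m p w) x) atTop (𝓝 0) := by
    intro p
    by_cases hp : 4 ≤ p
    · filter_upwards [decay_ae m μ p (by omega) hgap hε hw hw0] with x hx _
      exact BA_tendsto_zero m (T_BM m p (by omega) hw) (T_Kinv m p w) x hx
    · exact Eventually.of_forall fun x h => absurd h hp
  filter_upwards [ae_all_iff.mpr h1] with x hx
  rw [Metric.tendsto_atTop]
  intro e he
  obtain ⟨p, hp, hpe⟩ := exists_p m (e / 2) C (by positivity) hC0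
  have hZ := Zp_pos m p (by omega)
  obtain ⟨R1, hR1⟩ := (Metric.tendsto_atTop.mp (hx p hp)) (Zp m p * (e / 2)) (by positivity)
  refine ⟨max R1 4, fun R hR => ?_⟩
  have h2 := hR1 R ((le_max_left _ _).trans hR)
  have h3 := approx m p hp hw hC ((le_max_right _ _).trans hR) x
  rw [Real.dist_eq, sub_zero] at h2 ⊢
  rw [div_le_iff₀ hZ] at hpe
  have h4 : Zp m p * |BA m R w x| < Zp m p * e := by
    have h5 : Zp m p * |BA m R w x| = |Zp m p * BA m R w x| := by
      rw [abs_mul, abs_of_pos hZ]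
    have h6 : |Zp m p * BA m R w x| ≤ |BA m R (T m p w) x| +
        |BA m R (T m p w) x - Zp m p * BA m R w x| := by
      have := abs_sub (BA m R (T m p w) x) (BA m R (T m p w) x - Zp m p * BA m R w x)
      rwa [sub_sub_cancel] at this
    rw [h5]
    linarith
  exact lt_of_mul_lt_mul_left h4 hZ.le

lemma BA_add_const {w : X → ℝ} (hw : BM w) (c : ℝ) {R : ℝ} (hR : 4 ≤ R) (x : X) :
    BA m R (fun y => w y + c) x = BA m R w x + c := by
  unfold BA
  have i1 : Integrable (fun g : SL2 => w (g⁻¹ • x)) (m.restrict {g : SL2 | NN g < R}) := by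
    obtain ⟨C, hC⟩ := hw.bdd
    exact Integrable.of_bound (meas_inv_smul' hw.meas x).aestronglyMeasurable C
      (Eventually.of_forall fun g => hC _)
  rw [integral_add i1 (integrable_const _), setIntegral_const, mul_add, measureReal_def,
    vol_toReal m (by linarith), smul_eq_mul, ← mul_assoc,
    inv_mul_cancel₀ (mul_pos (vc_pos m) (by linarith)).ne', one_mul]

/-- Convergence for bounded functions. -/
theorem conv_bdd {R₀ ε : ℝ} (hgap : Gap μ R₀ ε) (hε : 0 < ε) {f : X → ℝ} (hf : BM f) :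
    ∀ᵐ x ∂μ, Tendsto (fun R => BA m R f x) atTop (𝓝 (∫ y, f y ∂μ)) := by
  set c := ∫ y, f y ∂μ with hc
  have hw : BM (fun y => f y - c) := hf.sub (BM.const c)
  have hw0 : ∫ x, (f x - c) ∂μ = 0 := by
    rw [integral_sub (hf.integrable μ) (integrable_const _), integral_const]
    simp [hc]
  filter_upwards [conv_bdd0 m μ hgap hε hw hw0] with x hx
  have h1 := hx.add_const c
  rw [zero_add] at h1
  refine h1.congr' ?_
  filter_upwards [eventually_ge_atTop 4] with R hR
  rw [← BA_add_const m hw c hR]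
  simp only [sub_add_cancel]

end Pool.Agent.Helper31.ErgSL2
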