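import Pool.Agent.Helper31.ErgSL2.Weak

/-!
# Ball averages: the maximal inequality
-/

set_option autoImplicit false
open MeasureTheory Filter Topology

namespace Pool.Agent.Helper31.ErgSL2

lemma DD_dia (θ r : ℝ) : DD θ (dia r) = 2 * Real.sinh r * Real.cos (2 * θ) := by
  have e1 : Real.exp (r / 2) ^ 2 = Real.exp r := by
    rw [← Real.exp_nat_mul]; congr 1; push_cast; ring
  have e2 : Real.exp (-(r / 2)) ^ 2 = Real.exp (-r) := by
    rw [← Real.exp_nat_mul]; congr 1; push_cast; ring
  simp only [DD, dia, mkSL_00, mkSL_01, mkSL_10, mkSL_11]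
  rw [e1, e2, Real.sinh_eq]; ring

lemma NN_small {t r θ : ℝ} (hr : 0 ≤ r) (hrt : r ≤ t) (h1 : Real.exp (t - 1) ≤ 2 * Real.cosh r)
    (h0 : 0 ≤ θ) (h2 : θ ≤ Real.exp (-t)) : NN (dia (-t) * rot θ * dia r) ≤ 8 := by
  rw [NN_formula, DD_dia, NN_dia]
  have hcos := Real.one_sub_sq_div_two_le_cos (x := 2 * θ)
  have hst : 0 ≤ Real.sinh t := Real.sinh_nonneg_iff.mpr (hr.trans hrt)
  have hsr : 0 ≤ Real.sinh r := Real.sinh_nonneg_iff.mpr hr
  have e1 := Real.cosh_sub t r
  have b1 : Real.sinh r ≤ Real.exp r / 2 := by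
    rw [Real.sinh_eq]; have := Real.exp_pos (-r); linarith
  have b2 : Real.sinh t ≤ Real.exp t / 2 := by
    rw [Real.sinh_eq]; have := Real.exp_pos (-t); linarith
  have b3 : Real.sinh r * Real.sinh t ≤ Real.exp t * Real.exp t / 4 := by
    have h5 : Real.exp r ≤ Real.exp t := Real.exp_le_exp.mpr hrt
    calc Real.sinh r * Real.sinh t ≤ (Real.exp r / 2) * (Real.exp t / 2) :=
          mul_le_mul b1 b2 hst (by positivity)
      _ ≤ (Real.exp t / 2) * (Real.exp t / 2) :=
          mul_le_mul_of_nonneg_right (by linarith) (by positivity)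
      _ = _ := by ring
  have b4 : θ ^ 2 * (Real.exp t * Real.exp t) ≤ 1 := by
    have h5 : θ * Real.exp t ≤ 1 := by
      calc θ * Real.exp t ≤ Real.exp (-t) * Real.exp t :=
            mul_le_mul_of_nonneg_right h2 (Real.exp_pos t).le
        _ = 1 := by rw [← Real.exp_add]; simp
    have h6 : 0 ≤ θ * Real.exp t := by positivity
    calc θ ^ 2 * (Real.exp t * Real.exp t) = (θ * Real.exp t) ^ 2 := by ring
      _ ≤ 1 := pow_le_one₀ h6 h5
  have b5 : 2 * Real.cosh (t - r) ≤ 7 := by
    rw [Real.cosh_eq]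
    have h5 : Real.exp (t - 1) ≤ 2 * Real.exp r := by
      refine h1.trans ?_
      rw [Real.cosh_eq]
      have : Real.exp (-r) ≤ Real.exp r := Real.exp_le_exp.mpr (by linarith)
      linarith
    have h6 : Real.exp (t - r) ≤ 2 * Real.exp 1 := by
      have e2 : Real.exp (t - r) = Real.exp (t - 1) * (Real.exp 1 * Real.exp (-r)) := by
        rw [← Real.exp_add, ← Real.exp_add]; congr 1; ring
      have e3 : Real.exp r * Real.exp (-r) = 1 := by rw [← Real.exp_add]; simp
      rw [e2]
      calc Real.exp (t - 1) * (Real.exp 1 * Real.exp (-r))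
          ≤ 2 * Real.exp r * (Real.exp 1 * Real.exp (-r)) :=
            mul_le_mul_of_nonneg_right h5 (by positivity)
        _ = 2 * Real.exp 1 * (Real.exp r * Real.exp (-r)) := by ring
        _ = _ := by rw [e3, mul_one]
    have h7 : Real.exp (-(t - r)) ≤ 1 := Real.exp_le_one_iff.mpr (by linarith)
    have h8 := Real.exp_one_lt_d9
    linarith
  have b6 : Real.sinh r * Real.sinh t * (1 - Real.cos (2 * θ))
      ≤ Real.sinh r * Real.sinh t * (2 * θ ^ 2) :=
    mul_le_mul_of_nonneg_left (by nlinarith) (mul_nonneg hsr hst)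
  have b7 : Real.sinh r * Real.sinh t * (2 * θ ^ 2) ≤ 1 / 2 := by
    calc Real.sinh r * Real.sinh t * (2 * θ ^ 2)
        ≤ (Real.exp t * Real.exp t / 4) * (2 * θ ^ 2) :=
          mul_le_mul_of_nonneg_right b3 (by positivity)
      _ = (θ ^ 2 * (Real.exp t * Real.exp t)) / 2 := by ring
      _ ≤ 1 / 2 := by linarith
  have e5 : 2 * Real.cosh r * Real.cosh t - Real.sinh t * (2 * Real.sinh r * Real.cos (2 * θ))
      = 2 * Real.cosh (t - r) + 2 * (Real.sinh r * Real.sinh t * (1 - Real.cos (2 * θ))) := by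
    rw [e1]; ring
  rw [e5]
  linarith

lemma nu_Ioc {a : ℝ} (ha0 : 0 ≤ a) (ha1 : a ≤ 2 * Real.pi) :
    nu.real (Set.Ioc 0 a) = a / (2 * Real.pi) := by
  have h : Set.Ioc 0 a ∩ Set.Ioc 0 (2 * Real.pi) = Set.Ioc 0 a := by
    apply Set.inter_eq_left.mpr
    exact Set.Ioc_subset_Ioc_right ha1
  rw [measureReal_def, nu, Measure.smul_apply, Measure.restrict_apply measurableSet_Ioc, h,
    Real.volume_Ioc, smul_eq_mul, ENNReal.toReal_mul, ENNReal.toReal_ofReal (by positivity),
    ENNReal.toReal_ofReal (by linarith), sub_zero]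
  field_simp

/-- Lower bound for the kernel. -/
lemma kap_lower (j : ℕ) (g : SL2) (h1 : Real.exp j ≤ NN g) (h2 : NN g ≤ Real.exp ((j : ℝ) + 1)) :
    1 ≤ 128 * Real.pi * Real.exp ((j : ℝ) + 1) * kap 2 ((j : ℝ) + 1) g := by
  set t : ℝ := (j : ℝ) + 1 with ht
  have ht0 : 1 ≤ t := by rw [ht]; have : (0 : ℝ) ≤ j := Nat.cast_nonneg j; linarith
  obtain ⟨α, r, β, hr, e⟩ := exists_KAK g
  have hN : NN g = 2 * Real.cosh r := by rw [e, NN_mul_rot, NN_rot_mul, NN_dia]
  have hk : kap 2 t g = kap 2 t (dia r) := kap_eq_of_NN 2 t (by rw [hN, NN_dia])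
  have hrt : r ≤ t := by
    have : Real.exp r ≤ Real.exp t := by
      refine le_trans ?_ h2
      rw [hN, Real.cosh_eq]
      have := Real.exp_pos (-r)
      linarith
    exact Real.exp_le_exp.mp this
  have h3 : Real.exp (t - 1) ≤ 2 * Real.cosh r := by
    rw [← hN]; refine le_trans (le_of_eq ?_) h1
    rw [ht]; congr 1; ring
  rw [hk]
  have hε : Real.exp (-t) ≤ 2 * Real.pi := by
    have h4 : Real.exp (-t) ≤ 1 := Real.exp_le_one_iff.mpr (by linarith)
    have := Real.pi_gt_three
    linarith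
  have hlow : Real.exp (-t) / (2 * Real.pi) * (1 / 64) ≤ kap 2 t (dia r) := by
    unfold kap
    rw [← nu_Ioc (Real.exp_pos _).le hε]
    have hint := int_kp_rot 2 (dia (-t)) (dia r)
    calc nu.real (Set.Ioc 0 (Real.exp (-t))) * (1 / 64)
        = ∫ θ in Set.Ioc 0 (Real.exp (-t)), (1 / 64 : ℝ) ∂nu := by
          rw [setIntegral_const, smul_eq_mul]
      _ ≤ ∫ θ in Set.Ioc 0 (Real.exp (-t)), kp 2 (dia (-t) * rot θ * dia r) ∂nu := by
          apply setIntegral_mono_on (integrable_const _).integrableOn hint.integrableOn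
            measurableSet_Ioc
          intro θ hθ
          have h5 := NN_small hr hrt h3 hθ.1.le hθ.2
          have h6 := NN_pos (dia (-t) * rot θ * dia r)
          unfold kp
          have h7 : (1 / 8 : ℝ) ≤ (NN (dia (-t) * rot θ * dia r))⁻¹ := by
            rw [inv_eq_one_div]
            exact one_div_le_one_div_of_le h6 h5
          calc (1 / 64 : ℝ) = (1 / 8) ^ 2 := by norm_num
            _ ≤ _ := pow_le_pow_left₀ (by norm_num) h7 2
      _ ≤ _ := setIntegral_le_integral hint (Eventually.of_forall fun θ => (kp_pos 2 _).le)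
  have e3 : Real.exp t * Real.exp (-t) = 1 := by rw [← Real.exp_add]; simp
  have hpi := Real.pi_pos
  calc (1 : ℝ) = 128 * Real.pi * Real.exp t * (Real.exp (-t) / (2 * Real.pi) * (1 / 64)) := by
        have : 128 * Real.pi * Real.exp t * (Real.exp (-t) / (2 * Real.pi) * (1 / 64))
          = Real.exp t * Real.exp (-t) := by field_simp; ring
        rw [this, e3]
    _ ≤ _ := mul_le_mul_of_nonneg_left hlow (by positivity)

lemma exp_sum_le (n : ℕ) :
    ∑ j ∈ Finset.range n, Real.exp ((j : ℝ) + 1) ≤ 2 * Real.exp n := by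
  induction n with
  | zero => simp
  | succ n ih =>
    rw [Finset.sum_range_succ]
    have e : Real.exp ((n + 1 : ℕ) : ℝ) = Real.exp n * Real.exp 1 := by
      rw [← Real.exp_add]; push_cast; rfl
    have e' : Real.exp ((n : ℝ) + 1) = Real.exp n * Real.exp 1 := Real.exp_add _ _
    rw [e, e']
    have h2 : 2 ≤ Real.exp 1 := by have := Real.add_one_le_exp 1; linarith
    nlinarith [Real.exp_pos (n : ℝ)]

lemma kap_sum_lower (n : ℕ) (g : SL2) (h : NN g < Real.exp n) :
    1 ≤ 128 * Real.pi * ∑ j ∈ Finset.range n, Real.exp ((j : ℝ) + 1) * kap 2 ((j : ℝ) + 1) g := by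
  have hN := NN_ge_two g
  have hlog : 0 ≤ Real.log (NN g) := Real.log_nonneg (by linarith)
  set j := ⌊Real.log (NN g)⌋₊ with hj
  have h1 : Real.exp j ≤ NN g := by
    have := Nat.floor_le hlog
    calc Real.exp j ≤ Real.exp (Real.log (NN g)) := Real.exp_le_exp.mpr this
      _ = NN g := Real.exp_log (by linarith)
  have h2 : NN g ≤ Real.exp ((j : ℝ) + 1) := by
    have := Nat.lt_floor_add_one (Real.log (NN g))
    calc NN g = Real.exp (Real.log (NN g)) := (Real.exp_log (by linarith)).symm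
      _ ≤ _ := Real.exp_le_exp.mpr this.le
  have hjn : j < n := by
    have : Real.exp (j : ℝ) < Real.exp n := h1.trans_lt h
    exact_mod_cast Real.exp_lt_exp.mp this
  have h3 := kap_lower j g h1 h2
  have h4 : Real.exp ((j : ℝ) + 1) * kap 2 ((j : ℝ) + 1) g ≤
      ∑ j ∈ Finset.range n, Real.exp ((j : ℝ) + 1) * kap 2 ((j : ℝ) + 1) g := by
    apply Finset.single_le_sum (f := fun j : ℕ => Real.exp ((j : ℝ) + 1) * kap 2 ((j : ℝ) + 1) g)
      (fun i _ => mul_nonneg (Real.exp_pos _).le (kap_nonneg _ _ _)) (Finset.mem_range.mpr hjn)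
  have hpi := Real.pi_pos
  calc (1 : ℝ) ≤ 128 * Real.pi * (Real.exp ((j : ℝ) + 1) * kap 2 ((j : ℝ) + 1) g) := by
        rw [← mul_assoc]; exact h3
    _ ≤ _ := mul_le_mul_of_nonneg_left h4 (by positivity)

variable [MeasurableSpace SL2] [BorelSpace SL2]
variable {X : Type*} [MeasurableSpace X] [MulAction SL2 X] [MeasurableSMul₂ SL2 X]
variable (m : Measure SL2) [m.IsHaarMeasure]

lemma measurableSet_ball (R : ℝ) : MeasurableSet {g : SL2 | NN g < R} :=
  measurableSet_lt measurable_NN measurable_const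

/-- The ball average. -/
noncomputable def BA (R : ℝ) (f : X → ℝ) (x : X) : ℝ :=
  (m {g : SL2 | NN g < R}).toReal⁻¹ * ∫ g in {g : SL2 | NN g < R}, f (g⁻¹ • x) ∂m

lemma vol_toReal {R : ℝ} (hR : 2 ≤ R) : (m {g : SL2 | NN g < R}).toReal = vc m * (R - 2) := by
  rw [vol_NN, ENNReal.toReal_ofReal (mul_nonneg (vc_pos m).le (by linarith))]

/-- Comparison of ball averages with the smoothed spherical averages. -/
lemma BA_le {f : X → ℝ} (hf : BM f) (hf0 : ∀ x, 0 ≤ f x) {R : ℝ} (hR : 4 ≤ R) {lam : ℝ}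
    (x : X) (h : ∀ j : ℕ, S ((j : ℝ) + 1) (T m 2 f) x ≤ lam) :
    BA m R f x ≤ (1536 * Real.pi / vc m) * lam := by
  have hvc := vc_pos m
  have hpi := Real.pi_pos
  have hlam : 0 ≤ lam := by
    refine le_trans ?_ (h 0)
    exact S_nonneg (fun y => integral_nonneg fun g => mul_nonneg (kp_pos 2 g).le (hf0 _)) _ x
  set n := ⌈Real.log R⌉₊ with hn
  have hRn : R ≤ Real.exp n := by
    calc R = Real.exp (Real.log R) := (Real.exp_log (by linarith)).symm
      _ ≤ _ := Real.exp_le_exp.mpr (Nat.le_ceil _)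
  have hRn2 : Real.exp n ≤ 3 * R := by
    have h1 := Nat.ceil_lt_add_one (Real.log_nonneg (by linarith : (1:ℝ) ≤ R))
    calc Real.exp n ≤ Real.exp (Real.log R + 1) := Real.exp_le_exp.mpr h1.le
      _ = R * Real.exp 1 := by rw [Real.exp_add, Real.exp_log (by linarith)]
      _ ≤ R * 3 := by
          apply mul_le_mul_of_nonneg_left _ (by linarith)
          have := Real.exp_one_lt_d9; linarith
      _ = 3 * R := by ring
  have hi : ∀ j : ℕ, Integrable (fun g => Real.exp ((j : ℝ) + 1) *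
      (kap 2 ((j : ℝ) + 1) g * f (g⁻¹ • x))) m := fun j =>
    (int_T m hf (int_kap m 2 le_rfl _) x).const_mul _
  have h1 : ∫ g in {g : SL2 | NN g < R}, f (g⁻¹ • x) ∂m ≤
      ∫ g, 128 * Real.pi * ∑ j ∈ Finset.range n, Real.exp ((j : ℝ) + 1) *
        (kap 2 ((j : ℝ) + 1) g * f (g⁻¹ • x)) ∂m := by
    rw [← integral_indicator (measurableSet_ball R)]
    apply integral_mono_of_nonneg
    · refine Eventually.of_forall fun g => ?_
      exact Set.indicator_nonneg (fun _ _ => hf0 _) g
    · exact (integrable_finsetSum _ fun j _ => hi j).const_mul _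
    · refine Eventually.of_forall fun g => ?_
      simp only
      by_cases hg : NN g < R
      · rw [Set.indicator_of_mem (show g ∈ {g : SL2 | NN g < R} from hg)]
        have h2 := kap_sum_lower n g (hg.trans_le hRn)
        have h3 := hf0 (g⁻¹ • x)
        calc f (g⁻¹ • x) = 1 * f (g⁻¹ • x) := (one_mul _).symm
          _ ≤ (128 * Real.pi * ∑ j ∈ Finset.range n, Real.exp ((j : ℝ) + 1) *
              kap 2 ((j : ℝ) + 1) g) * f (g⁻¹ • x) := mul_le_mul_of_nonneg_right h2 h3
          _ = _ := by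
              rw [mul_assoc, Finset.sum_mul]
              congr 1
              apply Finset.sum_congr rfl
              intro j _; ring
      · rw [Set.indicator_of_notMem (show g ∉ {g : SL2 | NN g < R} from hg)]
        apply mul_nonneg (by positivity)
        apply Finset.sum_nonneg
        intro j _
        exact mul_nonneg (Real.exp_pos _).le (mul_nonneg (kap_nonneg _ _ _) (hf0 _))
  have h2 : ∫ g, 128 * Real.pi * ∑ j ∈ Finset.range n, Real.exp ((j : ℝ) + 1) *
        (kap 2 ((j : ℝ) + 1) g * f (g⁻¹ • x)) ∂m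
      = 128 * Real.pi * ∑ j ∈ Finset.range n, Real.exp ((j : ℝ) + 1) *
        S ((j : ℝ) + 1) (T m 2 f) x := by
    rw [integral_const_mul, integral_finsetSum _ fun j _ => hi j]
    congr 1
    apply Finset.sum_congr rfl
    intro j _
    rw [integral_const_mul, S_T_eq m 2 le_rfl hf]
  have h3 : 128 * Real.pi * ∑ j ∈ Finset.range n, Real.exp ((j : ℝ) + 1) *
        S ((j : ℝ) + 1) (T m 2 f) x ≤ 768 * Real.pi * R * lam := by
    calc 128 * Real.pi * ∑ j ∈ Finset.range n, Real.exp ((j : ℝ) + 1) *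
        S ((j : ℝ) + 1) (T m 2 f) x
        ≤ 128 * Real.pi * ∑ j ∈ Finset.range n, Real.exp ((j : ℝ) + 1) * lam := by
          apply mul_le_mul_of_nonneg_left _ (by positivity)
          apply Finset.sum_le_sum
          intro j _
          exact mul_le_mul_of_nonneg_left (h j) (Real.exp_pos _).le
      _ = 128 * Real.pi * ((∑ j ∈ Finset.range n, Real.exp ((j : ℝ) + 1)) * lam) := by
          rw [Finset.sum_mul]
      _ ≤ 128 * Real.pi * ((2 * (3 * R)) * lam) := by
          apply mul_le_mul_of_nonneg_left _ (by positivity)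
          apply mul_le_mul_of_nonneg_right _ hlam
          have := exp_sum_le n
          linarith
      _ = _ := by ring
  unfold BA
  rw [vol_toReal m (by linarith)]
  have h4 : 0 < vc m * (R - 2) := mul_pos hvc (by linarith)
  rw [inv_mul_le_iff₀ h4]
  have h5 : 768 * Real.pi * R * lam ≤ vc m * (R - 2) * (1536 * Real.pi / vc m * lam) := by
    have e : vc m * (R - 2) * (1536 * Real.pi / vc m * lam) = 1536 * Real.pi * (R - 2) * lam := by
      field_simp
    rw [e]
    apply mul_le_mul_of_nonneg_right _ hlam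
    nlinarith
  calc ∫ g in {g : SL2 | NN g < R}, f (g⁻¹ • x) ∂m ≤ _ := h1
    _ = _ := h2
    _ ≤ _ := h3
    _ ≤ _ := h5

variable (μ : Measure X) [IsProbabilityMeasure μ] [SMulInvariantMeasure SL2 X μ]

lemma T_const_mul (p : ℕ) (c : ℝ) (f : X → ℝ) : T m p (fun y => c * f y)
    = fun x => c * T m p f x := by
  funext x
  unfold T
  rw [← integral_const_mul]
  congr 1; funext g; ring

/-- Weak type inequality for ball averages of bounded functions. -/
theorem ball_weak {R₀ ε : ℝ} (hgap : Gap μ R₀ ε) (hε : 0 < ε) : ∃ C : ℝ, 0 < C ∧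
    ∀ f : X → ℝ, BM f → (∀ x, 0 ≤ f x) → ∀ lam : ℝ, 0 < lam →
      μ {x | ∃ R : ℝ, 4 ≤ R ∧ lam < BA m R f x} ≤ ENNReal.ofReal (C * (∫ x, f x ∂μ) / lam) := by
  obtain ⟨C4, hC4, hw⟩ := weak_type m μ hgap hε
  have hvc := vc_pos m
  have hpi := Real.pi_pos
  set K := 1536 * Real.pi / vc m with hK
  have hKp : 0 < K := by positivity
  refine ⟨C4 * K, by positivity, ?_⟩
  intro f hf hf0 lam hlam
  set c := K / lam with hc
  have hcp : 0 < c := by positivity
  have hfc : BM (fun x => c * f x) := hf.const_mul c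
  have h1 := hw (fun x => c * f x) hfc (fun x => mul_nonneg hcp.le (hf0 x))
  rw [integral_const_mul] at h1
  have e : C4 * (c * ∫ x, f x ∂μ) = C4 * K * (∫ x, f x ∂μ) / lam := by rw [hc]; ring
  rw [e] at h1
  refine (measure_mono ?_).trans h1
  rintro x ⟨R, hR, hx⟩
  simp only [Set.mem_ofPred_eq]
  by_contra hneg
  push Not at hneg
  have h2 : ∀ j : ℕ, S ((j : ℝ) + 1) (T m 2 f) x ≤ lam / K := by
    intro j
    have h3 := (hneg j).le
    rw [T_const_mul, S_const_mul] at h3
    rw [le_div_iff₀ hKp]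
    rw [hc, div_mul_eq_mul_div, div_le_one hlam] at h3
    linarith
  have h4 := BA_le m hf hf0 hR x h2
  rw [← hK, mul_div_cancel₀ _ hKp.ne'] at h4
  linarith

end Pool.Agent.Helper31.ErgSL2
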