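import Mathlib

/-!
# Elementary facts on `SL(2, ℝ)`

The Frobenius norm square `NN`, rotations `rot`, diagonal elements `dia`, and the
decompositions that we need.
-/

set_option autoImplicit false
open MeasureTheory Filter Topology

namespace Pool.Agent.Helper31.ErgSL2

/-- The group. -/
abbrev SL2 := Matrix.SpecialLinearGroup (Fin 2) ℝ

instance : SecondCountableTopology SL2 :=
  haveI : SecondCountableTopology (Matrix (Fin 2) (Fin 2) ℝ) :=
    inferInstanceAs (SecondCountableTopology (Fin 2 → Fin 2 → ℝ))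
  (Matrix.SpecialLinearGroup.isClosedEmbedding_val (n := Fin 2) (R := ℝ)).isEmbedding.secondCountableTopology

instance : LocallyCompactSpace SL2 :=
  haveI : LocallyCompactSpace (Matrix (Fin 2) (Fin 2) ℝ) :=
    inferInstanceAs (LocallyCompactSpace (Fin 2 → Fin 2 → ℝ))
  (Matrix.SpecialLinearGroup.isClosedEmbedding_val (n := Fin 2) (R := ℝ)).locallyCompactSpace

instance : T2Space SL2 :=
  (Matrix.SpecialLinearGroup.isClosedEmbedding_val (n := Fin 2) (R := ℝ)).isEmbedding.t2Space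

/-- The Frobenius norm squared. -/
noncomputable def NN (g : SL2) : ℝ :=
  (g.1 0 0) ^ 2 + (g.1 0 1) ^ 2 + (g.1 1 0) ^ 2 + (g.1 1 1) ^ 2

lemma sum_eq_NN (g : SL2) : ∑ i, ∑ j, ((g : Matrix (Fin 2) (Fin 2) ℝ) i j) ^ 2 = NN g := by
  simp only [Fin.sum_univ_two, NN]; ring

lemma det_eq (g : SL2) : g.1 0 0 * g.1 1 1 - g.1 0 1 * g.1 1 0 = 1 := by
  have := g.2
  rwa [Matrix.det_fin_two] at this

lemma mul_00 (g h : SL2) : (g * h).1 0 0 = g.1 0 0 * h.1 0 0 + g.1 0 1 * h.1 1 0 := by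
  simp [Matrix.SpecialLinearGroup.coe_mul, Matrix.mul_apply, Fin.sum_univ_two]
lemma mul_01 (g h : SL2) : (g * h).1 0 1 = g.1 0 0 * h.1 0 1 + g.1 0 1 * h.1 1 1 := by
  simp [Matrix.SpecialLinearGroup.coe_mul, Matrix.mul_apply, Fin.sum_univ_two]
lemma mul_10 (g h : SL2) : (g * h).1 1 0 = g.1 1 0 * h.1 0 0 + g.1 1 1 * h.1 1 0 := by
  simp [Matrix.SpecialLinearGroup.coe_mul, Matrix.mul_apply, Fin.sum_univ_two]
lemma mul_11 (g h : SL2) : (g * h).1 1 1 = g.1 1 0 * h.1 0 1 + g.1 1 1 * h.1 1 1 := by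
  simp [Matrix.SpecialLinearGroup.coe_mul, Matrix.mul_apply, Fin.sum_univ_two]
lemma inv_00 (g : SL2) : (g⁻¹).1 0 0 = g.1 1 1 := by
  simp [Matrix.SpecialLinearGroup.coe_inv, Matrix.adjugate_fin_two]
lemma inv_01 (g : SL2) : (g⁻¹).1 0 1 = - g.1 0 1 := by
  simp [Matrix.SpecialLinearGroup.coe_inv, Matrix.adjugate_fin_two]
lemma inv_10 (g : SL2) : (g⁻¹).1 1 0 = - g.1 1 0 := by
  simp [Matrix.SpecialLinearGroup.coe_inv, Matrix.adjugate_fin_two]
lemma inv_11 (g : SL2) : (g⁻¹).1 1 1 = g.1 0 0 := by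
  simp [Matrix.SpecialLinearGroup.coe_inv, Matrix.adjugate_fin_two]

lemma ext2 {g h : SL2} (h0 : g.1 0 0 = h.1 0 0) (h1 : g.1 0 1 = h.1 0 1)
    (h2 : g.1 1 0 = h.1 1 0) (h3 : g.1 1 1 = h.1 1 1) : g = h := by
  apply Matrix.SpecialLinearGroup.ext
  intro i j
  fin_cases i <;> fin_cases j <;> assumption

/-- Constructor. -/
noncomputable def mkSL (a b c d : ℝ) (h : a * d - b * c = 1) : SL2 :=
  ⟨!![a, b; c, d], by rw [Matrix.det_fin_two]; simpa using h⟩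

@[simp] lemma mkSL_00 (a b c d : ℝ) (h : a * d - b * c = 1) : (mkSL a b c d h).1 0 0 = a := rfl
@[simp] lemma mkSL_01 (a b c d : ℝ) (h : a * d - b * c = 1) : (mkSL a b c d h).1 0 1 = b := rfl
@[simp] lemma mkSL_10 (a b c d : ℝ) (h : a * d - b * c = 1) : (mkSL a b c d h).1 1 0 = c := rfl
@[simp] lemma mkSL_11 (a b c d : ℝ) (h : a * d - b * c = 1) : (mkSL a b c d h).1 1 1 = d := rfl

/-- Rotation. -/
noncomputable def rot (θ : ℝ) : SL2 :=
  mkSL (Real.cos θ) (-Real.sin θ) (Real.sin θ) (Real.cos θ)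
    (by nlinarith [Real.sin_sq_add_cos_sq θ])

/-- Diagonal element. -/
noncomputable def dia (t : ℝ) : SL2 :=
  mkSL (Real.exp (t / 2)) 0 0 (Real.exp (-(t / 2))) (by rw [← Real.exp_add]; simp)

lemma rot_add (α β : ℝ) : rot (α + β) = rot α * rot β := by
  apply ext2 <;> simp only [mul_00, mul_01, mul_10, mul_11, rot, mkSL_00, mkSL_01, mkSL_10,
    mkSL_11, Real.cos_add, Real.sin_add] <;> ring

lemma rot_zero : rot 0 = 1 := by
  apply ext2 <;> simp [rot]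

lemma rot_neg (α : ℝ) : rot (-α) = (rot α)⁻¹ := by
  rw [eq_inv_iff_mul_eq_one, ← rot_add, neg_add_cancel, rot_zero]

lemma rot_two_pi (α : ℝ) : rot (α + 2 * Real.pi) = rot α := by
  apply ext2 <;> simp [rot]

lemma dia_add (s t : ℝ) : dia (s + t) = dia s * dia t := by
  apply ext2 <;> simp only [mul_00, mul_01, mul_10, mul_11, dia, mkSL_00, mkSL_01, mkSL_10,
    mkSL_11, mul_zero, zero_mul, add_zero, zero_add, ← Real.exp_add]
  · congr 1; ring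
  · congr 1; ring

lemma dia_zero : dia 0 = 1 := by
  apply ext2 <;> simp [dia]

lemma dia_neg (α : ℝ) : dia (-α) = (dia α)⁻¹ := by
  rw [eq_inv_iff_mul_eq_one, ← dia_add, neg_add_cancel, dia_zero]

lemma NN_ge_two (g : SL2) : 2 ≤ NN g := by
  have := det_eq g
  unfold NN
  nlinarith [sq_nonneg (g.1 0 0 - g.1 1 1), sq_nonneg (g.1 0 1 + g.1 1 0)]

lemma NN_pos (g : SL2) : 0 < NN g := by linarith [NN_ge_two g]

lemma NN_mul_le (g h : SL2) : NN (g * h) ≤ NN g * NN h := by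
  unfold NN
  rw [mul_00, mul_01, mul_10, mul_11]
  nlinarith [sq_nonneg (g.1 0 0 * h.1 1 0 - g.1 0 1 * h.1 0 0),
    sq_nonneg (g.1 0 0 * h.1 1 1 - g.1 0 1 * h.1 0 1),
    sq_nonneg (g.1 1 0 * h.1 1 0 - g.1 1 1 * h.1 0 0),
    sq_nonneg (g.1 1 0 * h.1 1 1 - g.1 1 1 * h.1 0 1)]

lemma NN_inv (g : SL2) : NN g⁻¹ = NN g := by
  unfold NN
  rw [inv_00, inv_01, inv_10, inv_11]; ring

lemma NN_rot_mul (θ : ℝ) (g : SL2) : NN (rot θ * g) = NN g := by
  unfold NN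
  rw [mul_00, mul_01, mul_10, mul_11]
  simp only [rot, mkSL_00, mkSL_01, mkSL_10, mkSL_11]
  have h := Real.sin_sq_add_cos_sq θ
  linear_combination ((g.1 0 0) ^ 2 + (g.1 0 1) ^ 2 + (g.1 1 0) ^ 2 + (g.1 1 1) ^ 2) * h

lemma NN_mul_rot (θ : ℝ) (g : SL2) : NN (g * rot θ) = NN g := by
  unfold NN
  rw [mul_00, mul_01, mul_10, mul_11]
  simp only [rot, mkSL_00, mkSL_01, mkSL_10, mkSL_11]
  have h := Real.sin_sq_add_cos_sq θ
  linear_combination ((g.1 0 0) ^ 2 + (g.1 0 1) ^ 2 + (g.1 1 0) ^ 2 + (g.1 1 1) ^ 2) * h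

lemma NN_dia (t : ℝ) : NN (dia t) = 2 * Real.cosh t := by
  have e1 : Real.exp (t / 2) ^ 2 = Real.exp t := by rw [← Real.exp_nat_mul]; congr 1; push_cast; ring
  have e2 : Real.exp (-(t / 2)) ^ 2 = Real.exp (-t) := by
    rw [← Real.exp_nat_mul]; congr 1; push_cast; ring
  simp only [NN, dia, mkSL_00, mkSL_01, mkSL_10, mkSL_11]
  rw [e1, e2, Real.cosh_eq]; ring

lemma cs_aux (X1 X2 X3 Y1 Y2 Y3 : ℝ) : (X1 * Y1 + 2 * X2 * Y2 + X3 * Y3) ^ 2
    ≤ (X1 ^ 2 + 2 * X2 ^ 2 + X3 ^ 2) * (Y1 ^ 2 + 2 * Y2 ^ 2 + Y3 ^ 2) := by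
  have : (X1 ^ 2 + 2 * X2 ^ 2 + X3 ^ 2) * (Y1 ^ 2 + 2 * Y2 ^ 2 + Y3 ^ 2)
      - (X1 * Y1 + 2 * X2 * Y2 + X3 * Y3) ^ 2 = (X1 * Y3 - X3 * Y1) ^ 2
      + 2 * (X1 * Y2 - X2 * Y1) ^ 2 + 2 * (X2 * Y3 - X3 * Y2) ^ 2 := by ring
  nlinarith [sq_nonneg (X1 * Y3 - X3 * Y1), sq_nonneg (X1 * Y2 - X2 * Y1),
    sq_nonneg (X2 * Y3 - X3 * Y2)]

lemma NN_mul_aux (a b c d p q r s : ℝ) (d2 : p * s - q * r = 1) :
    ((a * p + b * r) ^ 2 + (a * q + b * s) ^ 2 + (c * p + d * r) ^ 2 + (c * q + d * s) ^ 2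
      - (a ^ 2 + b ^ 2 + c ^ 2 + d ^ 2)) ^ 2
      ≤ (a ^ 2 + b ^ 2 + c ^ 2 + d ^ 2) ^ 2 *
        ((p ^ 2 + q ^ 2 + r ^ 2 + s ^ 2) * (p ^ 2 + q ^ 2 + r ^ 2 + s ^ 2 - 2)) := by
  have e : (a * p + b * r) ^ 2 + (a * q + b * s) ^ 2 + (c * p + d * r) ^ 2 + (c * q + d * s) ^ 2
      - (a ^ 2 + b ^ 2 + c ^ 2 + d ^ 2) = (a ^ 2 + c ^ 2) * (p ^ 2 + q ^ 2 - 1)
      + 2 * (a * b + c * d) * (p * r + q * s) + (b ^ 2 + d ^ 2) * (r ^ 2 + s ^ 2 - 1) := by
    ring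
  have e2 : (p ^ 2 + q ^ 2 - 1) ^ 2 + 2 * (p * r + q * s) ^ 2 + (r ^ 2 + s ^ 2 - 1) ^ 2
      = (p ^ 2 + q ^ 2 + r ^ 2 + s ^ 2) * (p ^ 2 + q ^ 2 + r ^ 2 + s ^ 2 - 2) := by
    have : (p * s - q * r) ^ 2 = 1 := by rw [d2]; norm_num
    linear_combination (-2) * this
  have e3 : (a ^ 2 + c ^ 2) ^ 2 + 2 * (a * b + c * d) ^ 2 + (b ^ 2 + d ^ 2) ^ 2
      ≤ (a ^ 2 + b ^ 2 + c ^ 2 + d ^ 2) ^ 2 := by
    have : (a ^ 2 + b ^ 2 + c ^ 2 + d ^ 2) ^ 2 - ((a ^ 2 + c ^ 2) ^ 2 + 2 * (a * b + c * d) ^ 2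
      + (b ^ 2 + d ^ 2) ^ 2) = 2 * (a * d - b * c) ^ 2 := by ring
    nlinarith [sq_nonneg (a * d - b * c)]
  rw [e]
  refine (cs_aux _ _ _ _ _ _).trans ?_
  rw [e2]
  apply mul_le_mul_of_nonneg_right e3
  rw [← e2]
  positivity

/-- `NN (g h) - NN g` is controlled. -/
lemma NN_mul_sub (g h : SL2) : NN (g * h) ≤ NN g * (1 + Real.sqrt (NN h * (NN h - 2))) := by
  have hN := NN_ge_two h
  have hx : 0 ≤ NN h * (NN h - 2) := mul_nonneg (by linarith) (by linarith)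
  have key : (NN (g * h) - NN g) ≤ NN g * Real.sqrt (NN h * (NN h - 2)) := by
    have h1 : (NN (g * h) - NN g) ^ 2 ≤ (NN g * Real.sqrt (NN h * (NN h - 2))) ^ 2 := by
      rw [mul_pow, Real.sq_sqrt hx]
      have := NN_mul_aux (g.1 0 0) (g.1 0 1) (g.1 1 0) (g.1 1 1) _ _ _ _ (det_eq h)
      unfold NN
      rw [mul_00, mul_01, mul_10, mul_11]
      exact this
    exact (abs_le_of_sq_le_sq' h1 (mul_nonneg (NN_pos g).le (Real.sqrt_nonneg _))).2
  linarith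

/-- Angle of a plane vector. -/
lemma exists_angle (x y : ℝ) : ∃ φ : ℝ, x = Real.sqrt (x ^ 2 + y ^ 2) * Real.cos φ ∧
    y = Real.sqrt (x ^ 2 + y ^ 2) * Real.sin φ := by
  refine ⟨Complex.arg ⟨x, y⟩, ?_, ?_⟩
  · have := Complex.norm_mul_cos_arg ⟨x, y⟩
    rw [Complex.norm_def, Complex.normSq_mk] at this
    rw [pow_two, pow_two, this]
  · have := Complex.norm_mul_sin_arg ⟨x, y⟩
    rw [Complex.norm_def, Complex.normSq_mk] at this
    rw [pow_two, pow_two, this]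

lemma exists_rot (M : SL2) (h : NN M = 2) : ∃ β, M = rot β := by
  have hd := det_eq M
  have h1 : (M.1 0 0 - M.1 1 1) ^ 2 + (M.1 0 1 + M.1 1 0) ^ 2 = 0 := by
    unfold NN at h
    nlinarith
  have h2 : M.1 0 0 - M.1 1 1 = 0 := by nlinarith [sq_nonneg (M.1 0 0 - M.1 1 1), sq_nonneg (M.1 0 1 + M.1 1 0)]
  have h3 : M.1 0 1 + M.1 1 0 = 0 := by nlinarith [sq_nonneg (M.1 0 0 - M.1 1 1), sq_nonneg (M.1 0 1 + M.1 1 0)]
  obtain ⟨φ, hx, hy⟩ := exists_angle (M.1 0 0) (M.1 1 0)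
  have h4 : (M.1 0 0) ^ 2 + (M.1 1 0) ^ 2 = 1 := by
    have e1 : M.1 1 1 = M.1 0 0 := by linarith
    have e2 : M.1 0 1 = - M.1 1 0 := by linarith
    rw [e1, e2] at hd
    linarith
  rw [h4, Real.sqrt_one, one_mul] at hx hy
  refine ⟨φ, ext2 ?_ ?_ ?_ ?_⟩ <;> simp only [rot, mkSL_00, mkSL_01, mkSL_10, mkSL_11] <;> linarith

lemma NN_dia_mul (t : ℝ) (M : SL2) : NN (dia t * M) =
    Real.exp t * ((M.1 0 0) ^ 2 + (M.1 0 1) ^ 2)
      + Real.exp (-t) * ((M.1 1 0) ^ 2 + (M.1 1 1) ^ 2) := by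
  have e1 : Real.exp (t / 2) ^ 2 = Real.exp t := by
    rw [← Real.exp_nat_mul]; congr 1; push_cast; ring
  have e2 : Real.exp (-(t / 2)) ^ 2 = Real.exp (-t) := by
    rw [← Real.exp_nat_mul]; congr 1; push_cast; ring
  unfold NN
  rw [mul_00, mul_01, mul_10, mul_11]
  simp only [dia, mkSL_00, mkSL_01, mkSL_10, mkSL_11]
  rw [← e1, ← e2]; ring

/-- Cartan decomposition. -/
lemma exists_KAK (g : SL2) : ∃ α s β, 0 ≤ s ∧ g = rot α * dia s * rot β := by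
  set A := (g.1 0 0) ^ 2 + (g.1 0 1) ^ 2 with hA
  set D := (g.1 1 0) ^ 2 + (g.1 1 1) ^ 2 with hD
  set B := g.1 0 0 * g.1 1 0 + g.1 0 1 * g.1 1 1 with hB
  obtain ⟨φ, hx, hy⟩ := exists_angle (A - D) (2 * B)
  set r := Real.sqrt ((A - D) ^ 2 + (2 * B) ^ 2) with hr
  have hr0 : 0 ≤ r := Real.sqrt_nonneg _
  -- rotate by γ = -φ/2
  set γ := -(φ / 2) with hγ
  set c := Real.cos γ with hc
  set s := Real.sin γ with hs
  have hcs : c ^ 2 + s ^ 2 = 1 := Real.cos_sq_add_sin_sq γ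
  have hc2 : Real.cos φ = c ^ 2 - s ^ 2 := by
    have : φ = -(2 * γ) := by rw [hγ]; ring
    rw [this, Real.cos_neg, Real.cos_two_mul]; nlinarith
  have hs2 : Real.sin φ = - (2 * s * c) := by
    have : φ = -(2 * γ) := by rw [hγ]; ring
    rw [this, Real.sin_neg, Real.sin_two_mul]
  -- g' = rot γ * g
  set g' := rot γ * g with hg'
  have a00 : g'.1 0 0 = c * g.1 0 0 - s * g.1 1 0 := by
    rw [hg', mul_00]; simp only [rot, mkSL_00, mkSL_01]; ring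
  have a01 : g'.1 0 1 = c * g.1 0 1 - s * g.1 1 1 := by
    rw [hg', mul_01]; simp only [rot, mkSL_00, mkSL_01]; ring
  have a10 : g'.1 1 0 = s * g.1 0 0 + c * g.1 1 0 := by
    rw [hg', mul_10]; simp only [rot, mkSL_10, mkSL_11]; ring
  have a11 : g'.1 1 1 = s * g.1 0 1 + c * g.1 1 1 := by
    rw [hg', mul_11]; simp only [rot, mkSL_10, mkSL_11]; ring
  have orth : g'.1 0 0 * g'.1 1 0 + g'.1 0 1 * g'.1 1 1 = 0 := by
    have : g'.1 0 0 * g'.1 1 0 + g'.1 0 1 * g'.1 1 1 = c * s * (A - D) + (c ^ 2 - s ^ 2) * B := by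
      rw [a00, a01, a10, a11, hA, hB, hD]; ring
    rw [this, hx]
    have hB' : B = r * Real.sin φ / 2 := by linarith
    rw [hB', hc2, hs2]; ring
  have big : (g'.1 1 0) ^ 2 + (g'.1 1 1) ^ 2 ≤ (g'.1 0 0) ^ 2 + (g'.1 0 1) ^ 2 := by
    have : (g'.1 0 0) ^ 2 + (g'.1 0 1) ^ 2 - ((g'.1 1 0) ^ 2 + (g'.1 1 1) ^ 2)
        = (c ^ 2 - s ^ 2) * (A - D) - 2 * s * c * (2 * B) := by
      rw [a00, a01, a10, a11, hA, hB, hD]; ring
    have h2 : (c ^ 2 - s ^ 2) * (A - D) - 2 * s * c * (2 * B) = r := by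
      rw [hx, hy, hc2, hs2]
      have : (c ^ 2 + s ^ 2) ^ 2 = 1 := by rw [hcs]; norm_num
      linear_combination r * this
    linarith
  have hdet := det_eq g'
  set P := (g'.1 0 0) ^ 2 + (g'.1 0 1) ^ 2 with hP
  set Q := (g'.1 1 0) ^ 2 + (g'.1 1 1) ^ 2 with hQ
  have hPQ : P * Q = 1 := by
    have : P * Q = (g'.1 0 0 * g'.1 1 1 - g'.1 0 1 * g'.1 1 0) ^ 2
      + (g'.1 0 0 * g'.1 1 0 + g'.1 0 1 * g'.1 1 1) ^ 2 := by rw [hP, hQ]; ring
    rw [this, hdet, orth]; norm_num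
  have hP0 : 0 ≤ P := by positivity
  have hQ0 : 0 ≤ Q := by positivity
  have hP1 : 1 ≤ P := by nlinarith
  set t := Real.log P with ht
  have ht0 : 0 ≤ t := Real.log_nonneg hP1
  have het : Real.exp t = P := Real.exp_log (by linarith)
  have hent : Real.exp (-t) = Q := by
    rw [Real.exp_neg, het]; field_simp; linarith
  set M := dia (-t) * g' with hM
  have hNM : NN M = 2 := by
    rw [hM, NN_dia_mul, hent, neg_neg, het, ← hP, ← hQ]
    linarith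
  obtain ⟨β, hβ⟩ := exists_rot M hNM
  refine ⟨-γ, t, β, ht0, ?_⟩
  rw [← hβ, hM, hg', dia_neg, rot_neg]
  group

/-- A function invariant under rotations on both sides only depends on `NN`. -/
lemma biK_eq {α : Type*} (Γ : SL2 → α) (h1 : ∀ θ M, Γ (rot θ * M) = Γ M)
    (h2 : ∀ θ M, Γ (M * rot θ) = Γ M) {M M' : SL2} (h : NN M = NN M') : Γ M = Γ M' := by
  obtain ⟨α, s, β, hs, e⟩ := exists_KAK M
  obtain ⟨α', s', β', hs', e'⟩ := exists_KAK M'
  have hc : s = s' := by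
    rw [e, e', NN_mul_rot, NN_mul_rot, NN_rot_mul, NN_rot_mul, NN_dia, NN_dia] at h
    have h' : Real.cosh s = Real.cosh s' := by linarith
    have h3 : |s| = |s'| := le_antisymm (Real.cosh_le_cosh.mp h'.le) (Real.cosh_le_cosh.mp h'.ge)
    rwa [abs_of_nonneg hs, abs_of_nonneg hs'] at h3
  rw [e, e', h2, h2, h1, h1, hc]

/-! ### The function `n_θ(s)` -/

/-- The trace-free part. -/
noncomputable def DD (θ : ℝ) (g : SL2) : ℝ :=
  ((g.1 0 0) ^ 2 + (g.1 0 1) ^ 2 - (g.1 1 0) ^ 2 - (g.1 1 1) ^ 2) * Real.cos (2 * θ)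
    - 2 * (g.1 0 0 * g.1 1 0 + g.1 0 1 * g.1 1 1) * Real.sin (2 * θ)

/-- Its `θ`-derivative. -/
noncomputable def DE (θ : ℝ) (g : SL2) : ℝ :=
  -2 * ((g.1 0 0) ^ 2 + (g.1 0 1) ^ 2 - (g.1 1 0) ^ 2 - (g.1 1 1) ^ 2) * Real.sin (2 * θ)
    - 4 * (g.1 0 0 * g.1 1 0 + g.1 0 1 * g.1 1 1) * Real.cos (2 * θ)

lemma NN_formula (s θ : ℝ) (g : SL2) :
    NN (dia (-s) * rot θ * g) = NN g * Real.cosh s - Real.sinh s * DD θ g := by
  have hcs : Real.cos θ ^ 2 + Real.sin θ ^ 2 = 1 := Real.cos_sq_add_sin_sq θ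
  rw [mul_assoc]
  set M := rot θ * g with hM
  have a00 : M.1 0 0 = Real.cos θ * g.1 0 0 - Real.sin θ * g.1 1 0 := by
    rw [hM, mul_00]; simp only [rot, mkSL_00, mkSL_01]; ring
  have a01 : M.1 0 1 = Real.cos θ * g.1 0 1 - Real.sin θ * g.1 1 1 := by
    rw [hM, mul_01]; simp only [rot, mkSL_00, mkSL_01]; ring
  have a10 : M.1 1 0 = Real.sin θ * g.1 0 0 + Real.cos θ * g.1 1 0 := by
    rw [hM, mul_10]; simp only [rot, mkSL_10, mkSL_11]
  have a11 : M.1 1 1 = Real.sin θ * g.1 0 1 + Real.cos θ * g.1 1 1 := by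
    rw [hM, mul_11]; simp only [rot, mkSL_10, mkSL_11]
  rw [NN_dia_mul, neg_neg, a00, a01, a10, a11, Real.cosh_eq, Real.sinh_eq, DD, NN,
    Real.cos_two_mul, Real.sin_two_mul]
  have hc : Real.cos θ ^ 2 = 1 - Real.sin θ ^ 2 := by linarith
  ring_nf
  simp only [hc]
  ring

lemma DD_sq (θ : ℝ) (g : SL2) : 4 * DD θ g ^ 2 + DE θ g ^ 2 = 4 * (NN g ^ 2 - 4) := by
  have hcs : Real.cos (2 * θ) ^ 2 + Real.sin (2 * θ) ^ 2 = 1 := Real.cos_sq_add_sin_sq _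
  have hd := det_eq g
  unfold DD DE NN
  set c := Real.cos (2 * θ)
  set s := Real.sin (2 * θ)
  set a := g.1 0 0
  set b := g.1 0 1
  set x := g.1 1 0
  set y := g.1 1 1
  have h2 : (a * y - b * x) ^ 2 = 1 := by rw [hd]; norm_num
  have : c ^ 2 = 1 - s ^ 2 := by linarith
  linear_combination (4 * ((a ^ 2 + b ^ 2 - x ^ 2 - y ^ 2) ^ 2 + 4 * (a * x + b * y) ^ 2)) * hcs
    - 16 * h2

lemma abs_DD_le (θ : ℝ) (g : SL2) : |DD θ g| ≤ NN g := by
  have h := DD_sq θ g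
  have h2 := NN_ge_two g
  apply abs_le_of_sq_le_sq _ (by linarith)
  nlinarith [sq_nonneg (DE θ g)]

/-! ### Upper triangular decomposition -/

/-- Upper triangular elements. -/
def UT (Y : SL2) : Prop := Y.1 1 0 = 0

lemma UT_conj {Y : SL2} (h : UT Y) : UT (dia (-1) * Y * dia 1) := by
  unfold UT at *
  rw [mul_10, mul_10, mul_11]
  simp only [dia, mkSL_00, mkSL_10, mkSL_11, h]
  ring

lemma NN_conj_le {Y : SL2} (h : UT Y) : NN (dia (-1) * Y * dia 1) ≤ NN Y := by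
  unfold UT at h
  have e : (dia (-1) * Y * dia 1).1 0 0 = Y.1 0 0 := by
    rw [mul_00, mul_00, mul_01]
    simp only [dia, mkSL_00, mkSL_01, mkSL_10, h]
    have : Real.exp (-1 / 2) * Real.exp (1 / 2) = 1 := by
      rw [← Real.exp_add]; norm_num
    linear_combination (Y.1 0 0) * this
  have e' : (dia (-1) * Y * dia 1).1 1 1 = Y.1 1 1 := by
    rw [mul_11, mul_10, mul_11]
    simp only [dia, mkSL_01, mkSL_10, mkSL_11, h]
    have : Real.exp (-(-1 / 2)) * Real.exp (-(1 / 2)) = 1 := by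
      rw [← Real.exp_add]; norm_num
    linear_combination (Y.1 1 1) * this
  have e1 : (dia (-1) * Y * dia 1).1 1 0 = 0 := UT_conj h
  have e2 : (dia (-1) * Y * dia 1).1 0 1 = Real.exp (-1) * Y.1 0 1 := by
    rw [mul_01, mul_00, mul_01]
    simp only [dia, mkSL_00, mkSL_01, mkSL_11]
    have : Real.exp (-1 / 2) * Real.exp (-(1 / 2)) = Real.exp (-1) := by
      rw [← Real.exp_add]; norm_num
    linear_combination (Y.1 0 1) * this
  unfold NN
  rw [e, e', e1, e2, h]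
  have h1 : Real.exp (-1) ≤ 1 := Real.exp_le_one_iff.mpr (by norm_num)
  have h0 : 0 < Real.exp (-1) := Real.exp_pos _
  have : (Real.exp (-1) * Y.1 0 1) ^ 2 ≤ (Y.1 0 1) ^ 2 := by
    rw [mul_pow]
    have : Real.exp (-1) ^ 2 ≤ 1 := by nlinarith
    nlinarith [sq_nonneg (Y.1 0 1)]
  linarith

lemma abs_aux (a b c d E : ℝ) (hE : E ≤ 1) (hE0 : 0 ≤ E)
    (hN : a ^ 2 + b ^ 2 + c ^ 2 + d ^ 2 ≤ 3) : (a * c * E + b * d) ^ 2 ≤ 9 / 4 := by
  have h1 : |a * c * E + b * d| ≤ 3 / 2 := by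
    have h2 : |a * c * E| ≤ (a ^ 2 + c ^ 2) / 2 := by
      rw [abs_mul, abs_of_nonneg hE0]
      have : |a * c| ≤ (a ^ 2 + c ^ 2) / 2 := by
        rw [abs_le]; constructor <;> nlinarith [sq_nonneg (a + c), sq_nonneg (a - c)]
      calc |a * c| * E ≤ |a * c| * 1 := mul_le_mul_of_nonneg_left hE (abs_nonneg _)
        _ ≤ _ := by linarith
    have h3 : |b * d| ≤ (b ^ 2 + d ^ 2) / 2 := by
      rw [abs_le]; constructor <;> nlinarith [sq_nonneg (b + d), sq_nonneg (b - d)]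
    calc |a * c * E + b * d| ≤ |a * c * E| + |b * d| := abs_add_le _ _
      _ ≤ 3 / 2 := by linarith
  rw [← sq_abs]
  nlinarith [abs_nonneg (a * c * E + b * d)]

/-- The key decomposition: `g a_{-s} = Y a_{-s} k`, with `Y` bounded upper triangular. -/
lemma exists_UT (g : SL2) (h1 : 1 / 2 ≤ |g.1 1 1|) (h2 : NN g ≤ 3) (s : ℝ) (hs : 0 ≤ s) :
    ∃ Y δ, UT Y ∧ NN Y ≤ 24 ∧ g * dia (-s) = Y * dia (-s) * rot δ := by
  obtain ⟨M, hM⟩ : ∃ M, M = g * dia (-s) := ⟨_, rfl⟩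
  rw [← hM]
  obtain ⟨φ, hx, hy⟩ := exists_angle (M.1 1 1) (M.1 1 0)
  set r := Real.sqrt ((M.1 1 1) ^ 2 + (M.1 1 0) ^ 2) with hr
  have hrsq : r ^ 2 = (M.1 1 1) ^ 2 + (M.1 1 0) ^ 2 := Real.sq_sqrt (by positivity)
  have hr0 : 0 ≤ r := Real.sqrt_nonneg _
  obtain ⟨Z, hZ⟩ : ∃ Z, Z = M * rot (-φ) := ⟨_, rfl⟩
  have z10 : Z.1 1 0 = 0 := by
    rw [hZ, mul_10]
    simp only [rot, mkSL_00, mkSL_10, Real.cos_neg, Real.sin_neg]
    rw [hx, hy]; ring
  have z11 : Z.1 1 1 = r := by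
    have hcs : Real.cos φ ^ 2 + Real.sin φ ^ 2 = 1 := Real.cos_sq_add_sin_sq φ
    rw [hZ, mul_11]
    simp only [rot, mkSL_01, mkSL_11, Real.cos_neg, Real.sin_neg]
    rw [hx, hy]; linear_combination r * hcs
  have hdZ := det_eq Z
  rw [z10, z11] at hdZ
  have z00 : Z.1 0 0 * r = 1 := by linarith
  have z01 : (Z.1 0 1) * r = M.1 0 0 * M.1 1 0 + M.1 0 1 * M.1 1 1 := by
    have hcs : Real.cos φ ^ 2 + Real.sin φ ^ 2 = 1 := Real.cos_sq_add_sin_sq φ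
    rw [hZ, mul_01]
    simp only [rot, mkSL_01, mkSL_11, Real.cos_neg, Real.sin_neg]
    rw [hx, hy]; ring
  obtain ⟨Y, hY⟩ : ∃ Y, Y = Z * dia s := ⟨_, rfl⟩
  have hYeq : M = Y * dia (-s) * rot φ := by
    rw [hY, hZ, dia_neg, rot_neg]; group
  have e1 : Real.exp (s / 2) ^ 2 = Real.exp s := by
    rw [← Real.exp_nat_mul]; congr 1; push_cast; ring
  have e2 : Real.exp (-(s / 2)) ^ 2 = Real.exp (-s) := by
    rw [← Real.exp_nat_mul]; congr 1; push_cast; ring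
  have m00 : M.1 0 0 = g.1 0 0 * Real.exp (-(s / 2)) := by
    rw [hM, mul_00]; simp only [dia, mkSL_00, mkSL_10]
    rw [show -s / 2 = -(s / 2) by ring]; ring
  have m01 : M.1 0 1 = g.1 0 1 * Real.exp (s / 2) := by
    rw [hM, mul_01]; simp only [dia, mkSL_01, mkSL_11]
    rw [show -(-s / 2) = (s / 2) by ring]; ring
  have m10 : M.1 1 0 = g.1 1 0 * Real.exp (-(s / 2)) := by
    rw [hM, mul_10]; simp only [dia, mkSL_00, mkSL_10]
    rw [show -s / 2 = -(s / 2) by ring]; ring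
  have m11 : M.1 1 1 = g.1 1 1 * Real.exp (s / 2) := by
    rw [hM, mul_11]; simp only [dia, mkSL_01, mkSL_11]
    rw [show -(-s / 2) = (s / 2) by ring]; ring
  unfold NN at h2
  generalize g.1 0 0 = a at *
  generalize g.1 0 1 = b at *
  generalize g.1 1 0 = c at *
  generalize g.1 1 1 = d at *
  have hes : 0 < Real.exp s := Real.exp_pos s
  have hens : 0 < Real.exp (-s) := Real.exp_pos _
  have hprod : Real.exp s * Real.exp (-s) = 1 := by rw [← Real.exp_add]; simp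
  have hes1 : Real.exp (-s) ≤ 1 := Real.exp_le_one_iff.mpr (by linarith)
  have hr2 : r ^ 2 = d ^ 2 * Real.exp s + c ^ 2 * Real.exp (-s) := by
    rw [hrsq, m11, m10, mul_pow, mul_pow, e1, e2]
  have hd2 : 1 / 4 ≤ d ^ 2 := by
    have := mul_self_le_mul_self (by norm_num) h1
    rw [abs_mul_abs_self] at this
    nlinarith
  have hN : a ^ 2 + b ^ 2 + c ^ 2 + d ^ 2 ≤ 3 := h2
  -- ρ² = r² e^{-s}
  have hρ : r ^ 2 * Real.exp (-s) = d ^ 2 + c ^ 2 * Real.exp (-s) ^ 2 := by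
    rw [hr2]; linear_combination d ^ 2 * hprod
  have hρ1 : 1 / 4 ≤ r ^ 2 * Real.exp (-s) := by
    rw [hρ]
    have h5 : 0 ≤ c ^ 2 * Real.exp (-s) ^ 2 := by positivity
    linarith
  have hρ2 : r ^ 2 * Real.exp (-s) ≤ 3 := by
    rw [hρ]
    have h5 : c ^ 2 * Real.exp (-s) ^ 2 ≤ c ^ 2 * 1 :=
      mul_le_mul_of_nonneg_left (pow_le_one₀ hens.le hes1) (sq_nonneg c)
    have h6 := sq_nonneg a
    have h7 := sq_nonneg b
    linarith
  have y11 : (Y.1 1 1) ^ 2 = r ^ 2 * Real.exp (-s) := by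
    rw [hY, mul_11]; simp only [dia, mkSL_01, mkSL_11]
    rw [z11, z10, zero_mul, zero_add, mul_pow, e2]
  have y10 : Y.1 1 0 = 0 := by
    rw [hY, mul_10]; simp only [dia, mkSL_00, mkSL_10]
    rw [z10]; ring
  have y00 : (Y.1 0 0) ^ 2 * (r ^ 2 * Real.exp (-s)) = 1 := by
    have h := det_eq Y
    rw [y10] at h
    have : (Y.1 0 0 * Y.1 1 1) ^ 2 = 1 := by
      have : Y.1 0 0 * Y.1 1 1 = 1 := by linarith
      rw [this]; norm_num
    rw [← y11, ← mul_pow]; exact this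
  have y01 : (Y.1 0 1) ^ 2 * (r ^ 2 * Real.exp (-s))
      = (a * c * Real.exp (-s) ^ 2 + b * d) ^ 2 := by
    have h : Y.1 0 1 = Z.1 0 1 * Real.exp (-(s / 2)) := by
      rw [hY, mul_01]; simp only [dia, mkSL_01, mkSL_11]; ring
    rw [h, mul_pow, e2]
    have h3 : (Z.1 0 1) ^ 2 * r ^ 2 = (a * c * Real.exp (-s) + b * d * Real.exp s) ^ 2 := by
      rw [← mul_pow, z01, m00, m01, m10, m11, ← e1, ← e2]; ring
    have : Z.1 0 1 ^ 2 * Real.exp (-s) * (r ^ 2 * Real.exp (-s))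
      = (Z.1 0 1 ^ 2 * r ^ 2) * Real.exp (-s) ^ 2 := by ring
    rw [this, h3, ← mul_pow]
    congr 1
    linear_combination b * d * hprod
  refine ⟨Y, φ, y10, ?_, hYeq⟩
  have q0 : (Y.1 0 0) ^ 2 ≤ 4 := by
    have := mul_le_mul_of_nonneg_left hρ1 (sq_nonneg (Y.1 0 0))
    linarith
  have q1 : (a * c * Real.exp (-s) ^ 2 + b * d) ^ 2 ≤ 9 / 4 :=
    abs_aux a b c d _ (pow_le_one₀ hens.le hes1) (by positivity) hN
  have q2 : (Y.1 0 1) ^ 2 ≤ 9 := by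
    rw [← y01] at q1
    have := mul_le_mul_of_nonneg_left hρ1 (sq_nonneg (Y.1 0 1))
    linarith
  unfold NN
  rw [y10, y11]
  linarith

/-! ### Continuity and measurability -/

lemma continuous_entry (i j : Fin 2) : Continuous fun g : SL2 => g.1 i j := by
  have : Continuous fun g : SL2 => g.1 := continuous_subtype_val
  exact (continuous_apply j).comp ((continuous_apply i).comp this)

lemma continuous_NN : Continuous NN := by
  unfold NN
  have h := continuous_entry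
  exact ((((h 0 0).pow 2).add ((h 0 1).pow 2)).add ((h 1 0).pow 2)).add ((h 1 1).pow 2)

lemma continuous_mkSL {α : Type*} [TopologicalSpace α] {a b c d : α → ℝ}
    (ha : Continuous a) (hb : Continuous b) (hc : Continuous c) (hd : Continuous d)
    (h : ∀ x, a x * d x - b x * c x = 1) : Continuous fun x => mkSL (a x) (b x) (c x) (d x) (h x) := by
  refine (Matrix.SpecialLinearGroup.isClosedEmbedding_val (n := Fin 2) (R := ℝ)).isInducing.continuous_iff.mpr ?_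
  apply continuous_matrix
  intro i j
  fin_cases i <;> fin_cases j
  · exact ha
  · exact hb
  · exact hc
  · exact hd

lemma continuous_rot : Continuous rot := by
  unfold rot
  exact continuous_mkSL Real.continuous_cos Real.continuous_sin.neg Real.continuous_sin
    Real.continuous_cos _

lemma continuous_dia : Continuous dia := by
  unfold dia
  exact continuous_mkSL (by fun_prop) continuous_const continuous_const (by fun_prop) _

lemma continuous_DD : Continuous fun p : ℝ × SL2 => DD p.1 p.2 := by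
  unfold DD
  have h : ∀ i j, Continuous fun p : ℝ × SL2 => p.2.1 i j :=
    fun i j => (continuous_entry i j).comp continuous_snd
  have h00 := h 0 0
  have h01 := h 0 1
  have h10 := h 1 0
  have h11 := h 1 1
  have hc : Continuous fun p : ℝ × SL2 => Real.cos (2 * p.1) := by fun_prop
  have hs : Continuous fun p : ℝ × SL2 => Real.sin (2 * p.1) := by fun_prop
  exact (((((h00.pow 2).add (h01.pow 2)).sub (h10.pow 2)).sub (h11.pow 2)).mul hc).sub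
    ((continuous_const.mul ((h00.mul h10).add (h01.mul h11))).mul hs)

end Pool.Agent.Helper31.ErgSL2
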