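import Pool.Agent.Helper31.ErgSL2.Final

/-!
# Closed hyperbolic balls, averages of `f (g • x)`
-/

set_option autoImplicit false
open MeasureTheory Filter Topology

namespace Pool.Agent.Helper31.ErgSL2

/-- The Frobenius norm in terms of the hyperbolic distance. -/
lemma cosh_dist_I (g : SL2) :
    2 * Real.cosh (dist UpperHalfPlane.I (g • UpperHalfPlane.I)) = NN g := by
  have hdet := det_eq g
  set a := g.1 0 0 with ha
  set b := g.1 0 1 with hb
  set c := g.1 1 0 with hc
  set d := g.1 1 1 with hd
  have hcd : 0 < c ^ 2 + d ^ 2 := by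
    by_contra h
    have h1 : c ^ 2 + d ^ 2 = 0 := le_antisymm (not_lt.mp h) (by positivity)
    have hc0 : c = 0 := by nlinarith [sq_nonneg c, sq_nonneg d]
    have hd0 : d = 0 := by nlinarith [sq_nonneg c, sq_nonneg d]
    rw [hc0, hd0] at hdet
    norm_num at hdet
  have hco : ((g • UpperHalfPlane.I : UpperHalfPlane) : ℂ)
      = ⟨(a * c + b * d) / (c ^ 2 + d ^ 2), 1 / (c ^ 2 + d ^ 2)⟩ := by
    rw [UpperHalfPlane.coe_specialLinearGroup_apply]
    simp only [Algebra.algebraMap_self, RingHom.id_apply]
    have hne : ((c : ℂ) * Complex.I + d) ≠ 0 := by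
      intro h
      have h1 := congrArg Complex.re h
      have h2 := congrArg Complex.im h
      simp at h1 h2
      rw [h1, h2] at hcd
      norm_num at hcd
    change ((a : ℂ) * Complex.I + b) / ((c : ℂ) * Complex.I + d) = _
    rw [div_eq_iff hne]
    apply Complex.ext
    · simp
      field_simp
      linear_combination (-c) * hdet
    · simp
      field_simp
      linear_combination d * hdet
  have him : (g • UpperHalfPlane.I : UpperHalfPlane).im = 1 / (c ^ 2 + d ^ 2) := by
    change ((g • UpperHalfPlane.I : UpperHalfPlane) : ℂ).im = _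
    rw [hco]
  rw [UpperHalfPlane.cosh_dist, him, hco, Complex.dist_eq, Complex.sq_norm, Complex.normSq_apply]
  have hI : ((UpperHalfPlane.I : UpperHalfPlane) : ℂ) = Complex.I := rfl
  have hIm : UpperHalfPlane.I.im = 1 := by simp
  rw [hI, hIm]
  simp only [Complex.sub_re, Complex.sub_im, Complex.I_re, Complex.I_im, NN]
  rw [← ha, ← hb, ← hc, ← hd]
  field_simp
  nlinarith [hdet]

variable [MeasurableSpace SL2] [BorelSpace SL2]

lemma map_mul_right_eq (m : Measure SL2) [m.IsHaarMeasure] (h : SL2) :
    ∃ κ : NNReal, Measure.map (fun g => g * h) m = κ • m := by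
  have h0 : Measurable (fun g : SL2 => g * h) :=
    (continuous_id.mul continuous_const).measurable
  have : IsFiniteMeasureOnCompacts (Measure.map (fun g => g * h) m) := by
    constructor
    intro K hK
    rw [Measure.map_apply h0 hK.measurableSet]
    exact (((Homeomorph.mulRight h).isCompact_preimage).mpr hK).measure_lt_top
  exact ⟨_, Measure.isMulLeftInvariant_eq_smul _ _⟩

lemma ball3_ne (m : Measure SL2) [m.IsHaarMeasure] :
    m {g | NN g < 3} ≠ 0 ∧ m {g | NN g < 3} ≠ ⊤ := by
  rw [vol_NN]
  have hpos : 0 < vc m * (3 - 2) := by have := vc_pos m; linarith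
  exact ⟨by rw [Ne, ENNReal.ofReal_eq_zero, not_le]; exact hpos, ENNReal.ofReal_ne_top⟩

lemma smul_cancel (m : Measure SL2) [m.IsHaarMeasure] {κ : NNReal} (h : κ • m = m) : κ = 1 := by
  have h1 : (κ • m) {g | NN g < 3} = m {g | NN g < 3} := by rw [h]
  rw [Measure.smul_apply, ENNReal.smul_def, smul_eq_mul] at h1
  obtain ⟨h2, h3⟩ := ball3_ne m
  have h4 : (κ : ENNReal) * m {g | NN g < 3} = 1 * m {g | NN g < 3} := by rw [h1, one_mul]
  have h5 := (ENNReal.mul_left_inj h2 h3).mp h4
  exact_mod_cast h5

lemma map_mul_dia (m : Measure SL2) [m.IsHaarMeasure] (s : ℝ) :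
    Measure.map (fun g => g * dia s) m = m := by
  obtain ⟨κ, hκ⟩ := map_mul_right_eq m (dia s)
  have hmeas : ∀ h : SL2, Measurable (fun g : SL2 => g * h) := fun h =>
    (continuous_id.mul continuous_const).measurable
  have hw : rot (Real.pi / 2) * dia s * rot (-(Real.pi / 2)) = dia (-s) := by
    apply ext2
    · simp [mul_00, mul_01, mul_10, mul_11, rot, dia, neg_div]
    · simp [mul_00, mul_01, mul_10, mul_11, rot, dia]
    · simp [mul_00, mul_01, mul_10, mul_11, rot, dia]
    · simp [mul_00, mul_01, mul_10, mul_11, rot, dia, neg_div]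
  have h1 : Measure.map (fun g => g * dia (-s)) m = κ • m := by
    have e : (fun g : SL2 => g * dia (-s)) =
        (fun g => g * rot (-(Real.pi / 2))) ∘ (fun g => g * dia s) ∘ (fun g => g * rot (Real.pi / 2)) := by
      funext g
      simp only [Function.comp]
      rw [← hw]
      group
    rw [e, ← Measure.map_map (hmeas _) ((hmeas _).comp (hmeas _)),
      ← Measure.map_map (hmeas _) (hmeas _), map_mul_rot m (Real.pi / 2), hκ, Measure.map_smul,
      map_mul_rot]
  have h2 : Measure.map (fun g => g * dia (-s)) (Measure.map (fun g => g * dia s) m) = m := by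
    rw [Measure.map_map (hmeas _) (hmeas _)]
    have e : (fun g : SL2 => g * dia (-s)) ∘ (fun g => g * dia s) = id := by
      funext g
      simp only [Function.comp, mul_assoc, id]
      rw [← dia_add]
      simp [dia_zero]
    rw [e, Measure.map_id]
  rw [hκ, Measure.map_smul, h1, smul_smul] at h2
  have h3 := smul_cancel m h2
  have h4 : κ = 1 := by
    have h5 : (κ : ℝ) * κ = 1 := by exact_mod_cast h3
    have h6 : (0 : ℝ) ≤ κ := κ.2
    have h7 : (κ : ℝ) = 1 := by nlinarith
    exact_mod_cast h7
  rw [hκ, h4, one_smul]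

/-- Unimodularity. -/
lemma map_mul_right (m : Measure SL2) [m.IsHaarMeasure] (h : SL2) :
    Measure.map (fun g => g * h) m = m := by
  obtain ⟨α, s, β, -, rfl⟩ := exists_KAK h
  have hmeas : ∀ h : SL2, Measurable (fun g : SL2 => g * h) := fun h =>
    (continuous_id.mul continuous_const).measurable
  have e : (fun g : SL2 => g * (rot α * dia s * rot β)) =
      (fun g => g * rot β) ∘ (fun g => g * dia s) ∘ (fun g => g * rot α) := by
    funext g
    simp only [Function.comp]
    group
  rw [e, ← Measure.map_map (hmeas _) ((hmeas _).comp (hmeas _)),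
    ← Measure.map_map (hmeas _) (hmeas _), map_mul_rot, map_mul_dia, map_mul_rot]

/-- Invariance under inversion. -/
lemma map_inv (m : Measure SL2) [m.IsHaarMeasure] :
    Measure.map (fun g => g⁻¹) m = m := by
  have h0 : Measurable (fun g : SL2 => g⁻¹) := continuous_inv.measurable
  have hmeas : ∀ h : SL2, Measurable (fun g : SL2 => g * h) := fun h =>
    (continuous_id.mul continuous_const).measurable
  have hmeas' : ∀ h : SL2, Measurable (fun g : SL2 => h * g) := fun h =>
    (continuous_const.mul continuous_id).measurable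
  have i1 : IsFiniteMeasureOnCompacts (Measure.map (fun g => g⁻¹) m) := by
    constructor
    intro K hK
    rw [Measure.map_apply h0 hK.measurableSet]
    exact (((Homeomorph.inv SL2).isCompact_preimage).mpr hK).measure_lt_top
  have i2 : Measure.IsMulLeftInvariant (Measure.map (fun g => g⁻¹) m) := by
    constructor
    intro h
    rw [Measure.map_map (hmeas' h) h0]
    have e : (fun x : SL2 => h * x) ∘ (fun g => g⁻¹) = (fun g => g⁻¹) ∘ (fun g => g * h⁻¹) := by
      funext g
      simp
    rw [e, ← Measure.map_map h0 (hmeas _), map_mul_right]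
  have h2 : Measure.map (fun g => g⁻¹) m =
      Measure.haarScalarFactor (Measure.map (fun g => g⁻¹) m) m • m :=
    Measure.isMulLeftInvariant_eq_smul _ _
  set κ := Measure.haarScalarFactor (Measure.map (fun g => g⁻¹) m) m
  have h3 : Measure.map (fun g => g⁻¹) m {g | NN g < 3} = m {g | NN g < 3} := by
    rw [Measure.map_apply h0 (measurableSet_lt measurable_NN measurable_const)]
    congr 1
    ext g
    simp only [Set.mem_preimage, Set.mem_ofPred_eq, NN_inv]
  rw [h2, Measure.smul_apply, ENNReal.smul_def, smul_eq_mul] at h3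
  obtain ⟨h4, h5⟩ := ball3_ne m
  have h6 : (κ : ENNReal) * m {g | NN g < 3} = 1 * m {g | NN g < 3} := by rw [h3, one_mul]
  have h7 := (ENNReal.mul_left_inj h4 h5).mp h6
  have h8 : κ = 1 := by exact_mod_cast h7
  rw [h2, h8, one_smul]

lemma sphere_null (m : Measure SL2) [m.IsHaarMeasure] (R : ℝ) : m {g | NN g = R} = 0 := by
  have h1 : m {g | NN g = R} = Measure.map NN m {R} := by
    rw [Measure.map_apply measurable_NN (measurableSet_singleton R)]
    rfl
  rw [h1, map_NN, Measure.smul_apply]
  have h2 : (volume.restrict (Set.Ioi (2 : ℝ))) {R} = 0 :=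
    le_antisymm ((Measure.restrict_apply_le _ _).trans (by simp)) (by simp)
  rw [h2, smul_zero]

/-- The average over a closed ball of `f (g • x)` is the ball average `BA`. -/
lemma closed_avg {X : Type*} [MulAction SL2 X] (m : Measure SL2) [m.IsHaarMeasure]
    (f : X → ℝ) (x : X) (r : ℝ) :
    (m {g : SL2 | dist UpperHalfPlane.I (g • UpperHalfPlane.I) ≤ r}).toReal⁻¹ *
      ∫ g in {g : SL2 | dist UpperHalfPlane.I (g • UpperHalfPlane.I) ≤ r}, f (g • x) ∂m
    = if 0 ≤ r then (m {g : SL2 | NN g < 2 * Real.cosh r}).toReal⁻¹ *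
      ∫ g in {g : SL2 | NN g < 2 * Real.cosh r}, f (g⁻¹ • x) ∂m else 0 := by
  split_ifs with hr
  · have e1 : {g : SL2 | dist UpperHalfPlane.I (g • UpperHalfPlane.I) ≤ r}
        = {g : SL2 | NN g ≤ 2 * Real.cosh r} := by
      ext g
      simp only [Set.mem_ofPred_eq, ← cosh_dist_I g]
      rw [mul_le_mul_iff_right₀ (by norm_num : (0 : ℝ) < 2), Real.cosh_le_cosh,
        abs_of_nonneg dist_nonneg, abs_of_nonneg hr]
    have e2 : {g : SL2 | NN g ≤ 2 * Real.cosh r} =ᵐ[m] {g : SL2 | NN g < 2 * Real.cosh r} := by
      have h1 : {g : SL2 | NN g < 2 * Real.cosh r} ⊆ {g : SL2 | NN g ≤ 2 * Real.cosh r} := by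
        intro g hg
        simp only [Set.mem_ofPred_eq] at hg ⊢
        exact hg.le
      refine (ae_eq_of_subset_of_measure_ge h1 ?_ ?_ ?_).symm
      · have h2 : {g : SL2 | NN g ≤ 2 * Real.cosh r} ⊆
            {g : SL2 | NN g < 2 * Real.cosh r} ∪ {g : SL2 | NN g = 2 * Real.cosh r} := by
          intro g hg
          simp only [Set.mem_ofPred_eq, Set.mem_union] at hg ⊢
          exact hg.lt_or_eq
        refine (measure_mono h2).trans ((measure_union_le _ _).trans ?_)
        rw [sphere_null, add_zero]
      · exact (measurableSet_lt measurable_NN measurable_const).nullMeasurableSet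
      · have : {g : SL2 | NN g ≤ 2 * Real.cosh r} ⊆ {g : SL2 | NN g < 2 * Real.cosh r + 1} := by
          intro g hg
          simp only [Set.mem_ofPred_eq] at hg ⊢
          linarith
        refine ((measure_mono this).trans_lt ?_).ne
        rw [vol_NN]
        exact ENNReal.ofReal_lt_top
    rw [e1, measure_congr e2, setIntegral_congr_set e2]
    congr 1
    have hme : MeasurableEmbedding (fun g : SL2 => g⁻¹) :=
      (Homeomorph.inv SL2).measurableEmbedding
    have h3 := hme.setIntegral_map (μ := m) (fun g => f (g • x)) {g : SL2 | NN g < 2 * Real.cosh r}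
    rw [map_inv] at h3
    rw [h3]
    congr 2
    ext g
    simp only [Set.mem_preimage, Set.mem_ofPred_eq, NN_inv]
  · have : {g : SL2 | dist UpperHalfPlane.I (g • UpperHalfPlane.I) ≤ r} = ∅ := by
      ext g
      simp only [Set.mem_ofPred_eq, Set.mem_empty_iff_false, iff_false]
      intro h
      exact hr (dist_nonneg.trans h)
    rw [this]
    simp

end Pool.Agent.Helper31.ErgSL2
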