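import Pool.Agent.Helper31.ErgSL2.Deriv

/-!
# Coercivity from the spectral gap
-/

set_option autoImplicit false
open MeasureTheory Filter Topology

namespace Pool.Agent.Helper31.ErgSL2

/-- second order limit -/
lemma second_order (g g' : ℝ → ℝ) (g2 : ℝ) (h : ∀ x, HasDerivAt g (g' x) x) (h0 : g' 0 = 0)
    (h2 : HasDerivAt g' g2 0) : Tendsto (fun x => (g x - g 0) / x ^ 2) (𝓝[>] 0) (𝓝 (g2 / 2)) := by
  apply HasDerivAt.lhopital_zero_nhdsGT (f' := g') (g' := fun x => 2 * x)
  · exact Eventually.of_forall fun x => (h x).sub_const _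
  · refine Eventually.of_forall fun x => ?_
    simpa using hasDerivAt_pow 2 x
  · filter_upwards [self_mem_nhdsWithin] with x hx
    have : (0 : ℝ) < x := hx
    positivity
  · have : Tendsto (fun x => g x - g 0) (𝓝 0) (𝓝 (g 0 - g 0)) :=
      ((h 0).continuousAt.tendsto).sub_const _
    rw [sub_self] at this
    exact this.mono_left nhdsWithin_le_nhds
  · have : Tendsto (fun x : ℝ => x ^ 2) (𝓝 0) (𝓝 (0 ^ 2)) := (continuous_pow 2).tendsto 0
    rw [zero_pow two_ne_zero] at this
    exact this.mono_left nhdsWithin_le_nhds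
  · have h3 := (hasDerivAt_iff_tendsto_slope.mp h2).mono_left
      (nhdsWithin_mono 0 (fun x (hx : x ∈ Set.Ioi (0:ℝ)) => (ne_of_gt hx : x ≠ 0)))
    have h4 := h3.div_const 2
    refine h4.congr fun x => ?_
    rw [slope_def_field, h0, sub_zero, sub_zero, div_div, mul_comm]

lemma second_order_seq (g g' : ℝ → ℝ) (g2 : ℝ) (h : ∀ x, HasDerivAt g (g' x) x) (h0 : g' 0 = 0)
    (h2 : HasDerivAt g' g2 0) (t : ℝ) (ht : 0 < t) :
    Tendsto (fun n : ℕ => (n : ℝ) ^ 2 * (2 * (g 0 - g (t / n)))) atTop (𝓝 (-(t ^ 2 * g2))) := by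
  have h3 := second_order g g' g2 h h0 h2
  have h4 : Tendsto (fun n : ℕ => t / (n : ℝ)) atTop (𝓝[>] 0) := by
    rw [tendsto_nhdsWithin_iff]
    refine ⟨tendsto_const_div_atTop_nhds_zero_nat t, ?_⟩
    filter_upwards [eventually_gt_atTop 0] with n hn
    have : (0 : ℝ) < n := by exact_mod_cast hn
    exact div_pos ht this
  have h5 := (h3.comp h4).const_mul (-(2 * t ^ 2))
  have e : -(2 * t ^ 2) * (g2 / 2) = -(t ^ 2 * g2) := by ring
  rw [e] at h5
  refine h5.congr' ?_
  filter_upwards [eventually_gt_atTop 0] with n hn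
  have : (0 : ℝ) < n := by exact_mod_cast hn
  simp only [Function.comp]
  field_simp
  ring

variable [MeasurableSpace SL2] [BorelSpace SL2]
variable {X : Type*} [MeasurableSpace X] [MulAction SL2 X] [MeasurableSMul₂ SL2 X]
variable (m : Measure SL2) [m.IsHaarMeasure]
variable (μ : Measure X) [IsProbabilityMeasure μ] [SMulInvariantMeasure SL2 X μ]

lemma telescope {U : X → ℝ} (hU : BM U) (t : ℝ) (n : ℕ) (hn : 0 < n) :
    ∫ x, (U (dia t • x) - U x) ^ 2 ∂μ
      ≤ (n : ℝ) ^ 2 * ∫ x, (U (dia (t / n) • x) - U x) ^ 2 ∂μ := by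
  have hn' : (n : ℝ) ≠ 0 := by exact_mod_cast hn.ne'
  set D : X → ℝ := fun x => U (dia (t / n) • x) - U x with hD
  have hDB : BM D := (hU.smul _).sub hU
  have key : ∀ x, U (dia t • x) - U x = ∑ j ∈ Finset.range n, D (dia (j * (t / n)) • x) := by
    intro x
    have h := Finset.sum_range_sub (fun j : ℕ => U (dia (j * (t / n)) • x)) n
    simp only [Nat.cast_zero, zero_mul, dia_zero, one_smul] at h
    rw [mul_div_cancel₀ t hn'] at h
    rw [← h]
    apply Finset.sum_congr rfl
    intro j _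
    simp only [hD]
    rw [smul_smul, ← dia_add]
    push_cast
    congr 4
    ring
  have h1 : ∀ x, (U (dia t • x) - U x) ^ 2 ≤
      n * ∑ j ∈ Finset.range n, (D (dia (j * (t / n)) • x)) ^ 2 := by
    intro x
    rw [key x]
    have := sq_sum_le_card_mul_sum_sq (s := Finset.range n)
      (f := fun j : ℕ => D (dia (j * (t / n)) • x))
    rwa [Finset.card_range] at this
  have hB : ∀ j : ℕ, BM (fun x => (D (dia (j * (t / n)) • x)) ^ 2) := fun j => (hDB.smul _).sq
  calc ∫ x, (U (dia t • x) - U x) ^ 2 ∂μ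
      ≤ ∫ x, n * ∑ j ∈ Finset.range n, (D (dia (j * (t / n)) • x)) ^ 2 ∂μ :=
        integral_mono (((hU.smul _).sub hU).sq.integrable μ)
          (((BM.sum _ hB).const_mul _).integrable μ) h1
    _ = n * ∑ j ∈ Finset.range n, ∫ x, D x ^ 2 ∂μ := by
        rw [integral_const_mul, integral_finsetSum _ fun j _ => (hB j).integrable μ]
        congr 1
        apply Finset.sum_congr rfl
        intro j _
        exact int_smul μ (fun x => D x ^ 2) hDB.sq.meas _
    _ = _ := by
        rw [Finset.sum_const, Finset.card_range, nsmul_eq_mul]; ring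

/-- The spectral gap in the form that we use. -/
def Gap (R ε : ℝ) : Prop := ∀ U : X → ℝ, BM U → ∫ x, U x ∂μ = 0 →
  ∃ g : SL2, NN g ≤ R ∧ ε ^ 2 * ∫ x, U x ^ 2 ∂μ ≤ ∫ x, (U (g • x) - U x) ^ 2 ∂μ

lemma diff_sq {U : X → ℝ} (hU : BM U) (h : ℝ) :
    ∫ x, (U (dia h • x) - U x) ^ 2 ∂μ
      = 2 * (∫ x, U x * U x ∂μ - ∫ x, U (dia (-h) • x) * U x ∂μ) := by
  have e1 : ∫ x, U (dia (-h) • x) * U x ∂μ = ∫ x, U (dia h • x) * U x ∂μ := by
    rw [← int_smul μ (fun x => U (dia (-h) • x) * U x) ((hU.smul _).mul hU).meas (dia h)]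
    congr 1; funext x
    rw [smul_smul, ← dia_add, neg_add_cancel, dia_zero, one_smul]; ring
  have e2 : ∫ x, U (dia h • x) ^ 2 ∂μ = ∫ x, U x * U x ∂μ := by
    rw [int_smul μ (fun x => U x ^ 2) hU.sq.meas]
    congr 1; funext x; ring
  have b1 : BM (fun x => U (dia h • x) ^ 2) := (hU.smul _).sq
  have b2 : BM (fun x => 2 * (U (dia h • x) * U x)) := ((hU.smul _).mul hU).const_mul 2
  have b3 : BM (fun x => U x * U x) := hU.mul hU
  have e3 : (fun x => (U (dia h • x) - U x) ^ 2) =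
      fun x => (U (dia h • x) ^ 2 - 2 * (U (dia h • x) * U x)) + U x * U x := by
    funext x; ring
  rw [e3, integral_add ((b1.sub b2).integrable μ) (b3.integrable μ),
    integral_sub (b1.integrable μ) (b2.integrable μ), integral_const_mul, e1, e2]
  ring

/-- Derivative of an `L²` pairing. -/
lemma deriv_int_mul {A A' B B' : ℝ → X → ℝ} {C D : ℝ}
    (hA : ∀ s, Measurable (A s)) (hA' : ∀ s, Measurable (A' s)) (hB : ∀ s, Measurable (B s))
    (hB' : ∀ s, Measurable (B' s)) (bA : ∀ s x, |A s x| ≤ C) (bA' : ∀ s x, |A' s x| ≤ C)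
    (bB : ∀ s x, |B s x| ≤ D) (bB' : ∀ s x, |B' s x| ≤ D)
    (dA : ∀ s x, HasDerivAt (fun s => A s x) (A' s x) s)
    (dB : ∀ s x, HasDerivAt (fun s => B s x) (B' s x) s) (s : ℝ) :
    HasDerivAt (fun s => ∫ x, A s x * B s x ∂μ) (∫ x, (A' s x * B s x + A s x * B' s x) ∂μ) s := by
  have hb : ∀ s x, |A' s x * B s x + A s x * B' s x| ≤ C * D + C * D := by
    intro s x
    refine (abs_add_le _ _).trans (add_le_add ?_ ?_)
    · rw [abs_mul]
      exact mul_le_mul (bA' s x) (bB s x) (abs_nonneg _) ((abs_nonneg _).trans (bA' s x))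
    · rw [abs_mul]
      exact mul_le_mul (bA s x) (bB' s x) (abs_nonneg _) ((abs_nonneg _).trans (bA s x))
  have := hasDerivAt_integral_of_dominated_loc_of_deriv_le (μ := μ)
    (F := fun s x => A s x * B s x) (F' := fun s x => A' s x * B s x + A s x * B' s x)
    (x₀ := s) (s := Metric.ball s 1) (bound := fun _ => C * D + C * D)
    (Metric.ball_mem_nhds s one_pos)
    (Eventually.of_forall fun s' => ((hA s').mul (hB s')).aestronglyMeasurable)
    (Integrable.of_bound ((hA s).mul (hB s)).aestronglyMeasurable (C * D)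
      (Eventually.of_forall fun x => by
        rw [Real.norm_eq_abs, abs_mul]
        exact mul_le_mul (bA s x) (bB s x) (abs_nonneg _) ((abs_nonneg _).trans (bA s x))))
    (((hA' s).mul (hB s)).add ((hA s).mul (hB' s))).aestronglyMeasurable
    (Eventually.of_forall fun x s' _ => hb s' x)
    (integrable_const _)
    (Eventually.of_forall fun x s' _ => (dA s' x).mul (dB s' x))
  exact this.2

lemma coercive (p : ℕ) (hp : 2 ≤ p) {w : X → ℝ} (hw : BM w) (hw0 : ∫ x, w x ∂μ = 0)
    {R ε : ℝ} (hgap : Gap μ R ε) (hε : 0 < ε) (s : ℝ) :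
    ∫ x, S s (T m p w) x ^ 2 ∂μ ≤ R ^ 2 / (2 * ε ^ 2) *
      ∫ x, S s (v1 m p w) x * S s (T m p w) x ∂μ := by
  obtain ⟨Cw, hCw0, hCw⟩ := hw.bdd'
  set F := T m p w with hF
  have hFB : BM F := T_BM m p hp hw
  have hFK : Kinv F := T_Kinv m p w
  set U := S s F with hU
  have hUB : BM U := S_BM hFB s
  have hUK : Kinv U := S_Kinv s F
  have hU0 : ∫ x, U x ∂μ = 0 := by
    have h := integral_J m μ hw (integrable_k0 m p hp s)
    rw [hw0, mul_zero] at h
    rw [← h]
    congr 1; funext x; exact (J_k0_eq m p hp hw s x).symm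
  set Z := S s U with hZ
  have hZB : BM Z := S_BM hUB s
  obtain ⟨Cz, hCz0, hCz⟩ := hZB.bdd'
  set q := ∫ x, S s (v1 m p w) x * U x ∂μ with hq
  set gg : ℝ → ℝ := fun h => ∫ x, J m (k0 p h) w x * Z x ∂μ with hgg
  have hgg_eq : ∀ h, ∫ x, U (dia (-h) • x) * U x ∂μ = gg h := by
    intro h
    rw [← integral_S_mul μ hUB hUB hUK h]
    have e1 : ∀ x, S h U x = S s (S h F) x := fun x => S_comm hFB hFK s h x
    simp_rw [e1]
    rw [S_selfadj μ (S_BM hFB h) (S_Kinv h F) hUB hUK s]
    simp only [hgg]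
    congr 1; funext x
    rw [J_k0_eq m p hp hw h x]
  have hg0 : gg 0 = ∫ x, U x * U x ∂μ := by
    rw [← hgg_eq 0]; simp [dia_zero]
  -- derivative of gg
  have hc1 : 0 ≤ (p : ℝ) * (p + 2) + 1 := by positivity
  have bnd : ∀ (k : ℝ × SL2 → ℝ) (h : ℝ), Integrable k (nu.prod m) →
      (∀ q, |k q| ≤ ((p : ℝ) * (p + 2) + 1) * k0 p h q) →
      ∀ x, |J m k w x| ≤ Cw * (((p : ℝ) * (p + 2) + 1) * Zp m p) := by
    intro k h hk hkb x
    refine (J_abs_le m hk hCw x).trans ?_
    exact mul_le_mul_of_nonneg_left (int_abs_le m p hp h hkb) hCw0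
  have kb0 : ∀ h q, |k0 p h q| ≤ ((p : ℝ) * (p + 2) + 1) * k0 p h q := by
    intro h q
    have := k0_pos p h q
    rw [abs_of_pos this]
    have h2 : (0 : ℝ) ≤ p * (p + 2) := by positivity
    nlinarith
  have kb1 : ∀ h q, |k1 p h q| ≤ ((p : ℝ) * (p + 2) + 1) * k0 p h q := by
    intro h q
    refine (k1_le p h q).trans ?_
    have := k0_pos p h q
    have h2 : (0 : ℝ) ≤ p * (p + 1) := by positivity
    nlinarith
  have kb2 : ∀ h q, |k2 p h q| ≤ ((p : ℝ) * (p + 2) + 1) * k0 p h q := by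
    intro h q
    refine (k2_le p h q).trans ?_
    have := k0_pos p h q
    nlinarith
  have d1 : ∀ h, HasDerivAt gg (∫ x, J m (k1 p h) w x * Z x ∂μ) h := by
    intro h
    have := deriv_int_mul μ (A := fun h x => J m (k0 p h) w x) (A' := fun h x => J m (k1 p h) w x)
      (B := fun _ x => Z x) (B' := fun _ _ => 0)
      (C := Cw * (((p : ℝ) * (p + 2) + 1) * Zp m p)) (D := Cz)
      (fun h => J_meas m hw.meas (measurable_k0 p h)) (fun h => J_meas m hw.meas (measurable_k1 p h))
      (fun _ => hZB.meas) (fun _ => measurable_const)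
      (fun h x => bnd _ h (integrable_k0 m p hp h) (kb0 h) x)
      (fun h x => bnd _ h (integrable_k1 m p hp h) (kb1 h) x)
      (fun _ x => hCz x) (fun _ x => by simpa using hCz0)
      (fun h x => J_k0_deriv m p hp hw h x) (fun h x => hasDerivAt_const _ _) h
    simpa using this
  have d2 : ∀ h, HasDerivAt (fun h => ∫ x, J m (k1 p h) w x * Z x ∂μ)
      (∫ x, J m (k2 p h) w x * Z x ∂μ) h := by
    intro h
    have := deriv_int_mul μ (A := fun h x => J m (k1 p h) w x) (A' := fun h x => J m (k2 p h) w x)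
      (B := fun _ x => Z x) (B' := fun _ _ => 0)
      (C := Cw * (((p : ℝ) * (p + 2) + 1) * Zp m p)) (D := Cz)
      (fun h => J_meas m hw.meas (measurable_k1 p h)) (fun h => J_meas m hw.meas (measurable_k2 p h))
      (fun _ => hZB.meas) (fun _ => measurable_const)
      (fun h x => bnd _ h (integrable_k1 m p hp h) (kb1 h) x)
      (fun h x => bnd _ h (integrable_k2 m p hp h) (kb2 h) x)
      (fun _ x => hCz x) (fun _ x => by simpa using hCz0)
      (fun h x => J_k1_deriv m p hp hw h x) (fun h x => hasDerivAt_const _ _) h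
    simpa using this
  have h10 : ∫ x, J m (k1 p 0) w x * Z x ∂μ = 0 := by
    simp_rw [J_k1_zero m p hp hw]
    simp
  have h20 : ∫ x, J m (k2 p 0) w x * Z x ∂μ = -(1 / 2 * q) := by
    simp_rw [J_k2_zero m p hp hw]
    have e1 : ∀ x, -(1 / 2 * J m (kW p 0) w x) * Z x = -(1 / 2) * (v1 m p w x * S s U x) := by
      intro x
      have : J m (kW p 0) w x = v1 m p w x := by
        rw [J_kW_eq m p hp hw]
        unfold S
        simp only [neg_zero, dia_zero, one_mul]
        simp_rw [v1_Kinv m p w _ x]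
        simp
      rw [this]; ring
    simp_rw [e1]
    rw [integral_const_mul, ← S_selfadj μ (v1_BM m p hp hw) (v1_Kinv m p w) hUB hUK s]
    ring
  obtain ⟨g, hgR, hg⟩ := hgap U hUB hU0
  obtain ⟨α, t, β, ht, hgeq⟩ := exists_KAK g
  have hNg : NN g = 2 * Real.cosh t := by
    rw [hgeq, NN_mul_rot, NN_rot_mul, NN_dia]
  have htR : t ≤ R := by
    have h1 : t ≤ Real.cosh t := by
      have h2 := Real.add_one_le_exp t
      have h3 := Real.cosh_eq t
      have h4 := Real.exp_pos (-t)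
      have h5 := Real.one_le_cosh t
      have h6 := Real.quadratic_le_exp_of_nonneg ht
      nlinarith [sq_nonneg (t - 1)]
    have h2 := Real.one_le_cosh t
    linarith
  have hR2 : 0 ≤ R := ht.trans htR
  have e1 : ∫ x, (U (g • x) - U x) ^ 2 ∂μ = ∫ x, (U (dia t • x) - U x) ^ 2 ∂μ := by
    have hb : BM (fun x => (U (dia t • x) - U x) ^ 2) := ((hUB.smul _).sub hUB).sq
    rw [← int_smul μ _ hb.meas (rot β)]
    congr 1; funext x
    rw [hgeq, mul_assoc, ← smul_smul, hUK, ← smul_smul, hUK β x]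
  rw [e1] at hg
  have hsq : ∫ x, U x ^ 2 ∂μ = gg 0 := by
    rw [hg0]; congr 1; funext x; ring
  have hmain : ∀ n : ℕ, 0 < n → ε ^ 2 * gg 0 ≤ (n : ℝ) ^ 2 * (2 * (gg 0 - gg (t / n))) := by
    intro n hn
    rw [← hsq]
    refine hg.trans ((telescope μ hUB t n hn).trans (le_of_eq ?_))
    rw [diff_sq μ hUB, hgg_eq, hsq, hg0]
  rcases ht.eq_or_lt with h0 | h0
  · -- t = 0
    have h1 := hmain 1 one_pos
    rw [← h0] at h1
    simp at h1
    have h2 : gg 0 ≤ 0 := by
      have : 0 < ε ^ 2 := by positivity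
      by_contra hneg
      push Not at hneg
      nlinarith
    -- U² integrates to zero; then q = 0 as well, by Cauchy-Schwarz
    rw [hsq]
    have h3 : 0 ≤ gg 0 := by rw [hg0]; exact integral_nonneg fun x => mul_self_nonneg _
    have h4 : gg 0 = 0 := le_antisymm h2 h3
    rw [h4]
    have h5 : q = 0 := by
      rw [hq]
      have h6 : (fun x => U x * U x) =ᵐ[μ] 0 := by
        rw [← integral_eq_zero_iff_of_nonneg (fun x => mul_self_nonneg _)
          ((hUB.mul hUB).integrable μ), ← hg0, h4]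
      have h7 : (fun x => S s (v1 m p w) x * U x) =ᵐ[μ] 0 := by
        filter_upwards [h6] with x hx
        have : U x = 0 := mul_self_eq_zero.mp hx
        simp [this]
      rw [integral_congr_ae h7]; simp
    rw [h5]; simp
  · have hlim := second_order_seq gg _ _ d1 h10 (d2 0) t h0
    rw [h20] at hlim
    have h1 : ε ^ 2 * gg 0 ≤ -(t ^ 2 * -(1 / 2 * q)) :=
      ge_of_tendsto hlim (by
        filter_upwards [eventually_gt_atTop 0] with n hn
        exact hmain n hn)
    have h2 : ε ^ 2 * gg 0 ≤ t ^ 2 / 2 * q := by linarith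
    have h3 : 0 ≤ gg 0 := by rw [hg0]; exact integral_nonneg fun x => mul_self_nonneg _
    have hε2 : 0 < ε ^ 2 := by positivity
    have hq0 : 0 ≤ q := by
      have h4 : 0 ≤ t ^ 2 / 2 * q := le_trans (by positivity) h2
      have h5 : 0 < t ^ 2 / 2 := by positivity
      exact nonneg_of_mul_nonneg_right h4 h5 |> fun h => h
    rw [hsq]
    have h4 : t ^ 2 / 2 * q ≤ R ^ 2 / 2 * q := by
      apply mul_le_mul_of_nonneg_right _ hq0
      have : t ^ 2 ≤ R ^ 2 := pow_le_pow_left₀ ht htR 2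
      linarith
    have h5 : R ^ 2 / (2 * ε ^ 2) * q = (R ^ 2 / 2 * q) / ε ^ 2 := by field_simp
    rw [h5, le_div_iff₀ hε2]
    linarith

end Pool.Agent.Helper31.ErgSL2
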