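import Pool.Agent.Helper31.ErgSL2.Harnack

/-!
# Comparison of the two recursions
-/

set_option autoImplicit false
open MeasureTheory Filter Topology

namespace Pool.Agent.Helper31.ErgSL2

variable [MeasurableSpace SL2] [BorelSpace SL2]
variable {X : Type*} [MeasurableSpace X] [MulAction SL2 X] [MeasurableSMul₂ SL2 X]

/-- The Harnack property with the constant `576` for bounded elements. -/
def Har (F : X → ℝ) : Prop := ∀ (h : SL2) (x : X), NN h ≤ 24 → F (h • x) ≤ 576 * F x

section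
variable {F : X → ℝ}

omit [MeasurableSpace X] [MeasurableSMul₂ SL2 X] [MeasurableSpace SL2] [BorelSpace SL2]

lemma one_add_har (hF0 : ∀ x, 0 ≤ F x) (hG : ∀ i : ℕ, Har (S i F)) (i : ℕ) (Y : SL2)
    (hY : NN Y ≤ 24) (z : X) : 1 + S i F (Y • z) ≤ 576 * (1 + S i F z) := by
  have h1 := hG i Y z hY
  have h2 := S_nonneg hF0 (i : ℝ) z
  linarith

lemma one_add_har' (hF0 : ∀ x, 0 ≤ F x) (hG : ∀ i : ℕ, Har (S i F)) (i : ℕ) (Y : SL2)
    (hY : NN Y ≤ 24) (z : X) : 1 + S i F z ≤ 576 * (1 + S i F (Y • z)) := by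
  have h1 := one_add_har hF0 hG i Y⁻¹ (by rwa [NN_inv]) (Y • z)
  rwa [inv_smul_smul] at h1

lemma om_compare1 (hF0 : ∀ x, 0 ≤ F x) (hG : ∀ i : ℕ, Har (S i F)) (i : ℕ) (Y : SL2)
    (hY : NN Y ≤ 24) (z : X) : 1 / 576 * om F i (Y • z) ≤ om F i z := by
  have h1 := one_add_har' hF0 hG i Y hY z
  have h2 := S_nonneg hF0 (i : ℝ) z
  have h3 := S_nonneg hF0 (i : ℝ) (Y • z)
  unfold om
  rw [← mul_one_div_cancel (by norm_num : (576 : ℝ) ≠ 0)] at *
  rw [div_mul_div_comm, div_le_div_iff₀ (by positivity) (by positivity)]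
  linarith

lemma om_compare2 (hF0 : ∀ x, 0 ≤ F x) (hG : ∀ i : ℕ, Har (S i F)) (i : ℕ) (Y : SL2)
    (hY : NN Y ≤ 24) (z : X) : om F i z ≤ 576 * om F i (Y • z) := by
  have h1 := one_add_har hF0 hG i Y hY z
  have h2 := S_nonneg hF0 (i : ℝ) z
  have h3 := S_nonneg hF0 (i : ℝ) (Y • z)
  unfold om
  rw [mul_one_div, div_le_div_iff₀ (by positivity) (by positivity)]
  linarith

lemma hc_compare (hF0 : ∀ x, 0 ≤ F x) (hFH : Har F) (hG : ∀ i : ℕ, Har (S i F)) (i : ℕ) :
    ∀ (Y : SL2) (z : X), UT Y → NN Y ≤ 24 → hc F 1 i z ≤ 576 * hc F (1 / 576) i (Y • z) := by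
  induction i with
  | zero =>
    intro Y z _ hY
    simp only [hc]
    have := hFH Y⁻¹ (Y • z) (by rwa [NN_inv])
    rwa [inv_smul_smul] at this
  | succ i ih =>
    intro Y z hU hY
    simp only [hc]
    have e : (dia (-1) * Y * dia 1) • dia (-1) • z = dia (-1) • Y • z := by
      rw [smul_smul, smul_smul, mul_assoc, mul_assoc, ← dia_add]
      norm_num [dia_zero]
    have h1 := ih (dia (-1) * Y * dia 1) (dia (-1) • z) (UT_conj hU) ((NN_conj_le hU).trans hY)
    rw [e] at h1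
    have h2 := om_compare1 hF0 hG (i + 1) Y hY z
    have h3 := om_le_one hF0 (i + 1) z
    have h4 := hc_nonneg hF0 (c := 1 / 576) (by norm_num) (by norm_num) i (dia (-1) • Y • z)
    have h5 := hc_nonneg hF0 (c := 1) (by norm_num) (by norm_num) i (dia (-1) • z)
    calc (1 - 1 * om F (i + 1) z) * hc F 1 i (dia (-1) • z)
        ≤ (1 - 1 / 576 * om F (i + 1) (Y • z)) * (576 * hc F (1 / 576) i (dia (-1) • Y • z)) :=
          mul_le_mul (by linarith) h1 h5 (by linarith)
      _ = _ := by ring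

lemma qc_compare (hF0 : ∀ x, 0 ≤ F x) (hFH : Har F) (hG : ∀ i : ℕ, Har (S i F)) (i : ℕ)
    (Y : SL2) (z : X) (hU : UT Y) (hY : NN Y ≤ 24) :
    qc F 1 i z ≤ 576 ^ 3 * qc F (1 / 576) i (Y • z) := by
  simp only [qc]
  have e : (dia (-1) * Y * dia 1) • dia (-1) • z = dia (-1) • Y • z := by
    rw [smul_smul, smul_smul, mul_assoc, mul_assoc, ← dia_add]
    norm_num [dia_zero]
  have h1 := hc_compare hF0 hFH hG i (dia (-1) * Y * dia 1) (dia (-1) • z) (UT_conj hU)
    ((NN_conj_le hU).trans hY)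
  rw [e] at h1
  have h2 := om_compare2 hF0 hG (i + 1) Y hY z
  have h5 := hc_nonneg hF0 (c := 1) (by norm_num) (by norm_num) i (dia (-1) • z)
  have h6 := om_pos hF0 (i + 1) (Y • z)
  calc 1 * om F (i + 1) z * hc F 1 i (dia (-1) • z)
      ≤ (576 * om F (i + 1) (Y • z)) * (576 * hc F (1 / 576) i (dia (-1) • Y • z)) := by
        rw [one_mul]
        exact mul_le_mul h2 h1 h5 (by positivity)
    _ = _ := by ring

end

section
variable {F : X → ℝ}

lemma S_qc_compare (hF : BM F) (hF0 : ∀ x, 0 ≤ F x) (hFH : Har F) (hG : ∀ i : ℕ, Har (S i F))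
    (i : ℕ) (s : ℝ) (hs : 0 ≤ s) (g : SL2) (h1 : 1 / 2 ≤ |g.1 1 1|) (h2 : NN g ≤ 3) (x : X) :
    S s (qc F 1 i) x ≤ 576 ^ 3 * ∫ θ, qc F (1 / 576) i ((g * dia (-s) * rot θ) • x) ∂nu := by
  obtain ⟨Y, δ, hU, hY, e⟩ := exists_UT g h1 h2 s hs
  have e1 : ∫ θ, qc F (1 / 576) i ((g * dia (-s) * rot θ) • x) ∂nu
      = ∫ θ, qc F (1 / 576) i ((Y * dia (-s) * rot θ) • x) ∂nu := by
    rw [e, ← nu_shift _ (per_rot (qc F (1 / 576) i) (Y * dia (-s)) x) δ]
    congr 1; funext θ
    rw [mul_assoc, ← rot_add, add_comm]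
  rw [e1, ← integral_const_mul]
  unfold S
  apply integral_mono
  · exact int_rot (qc_BM hF hF0 1 i) _ x
  · exact (int_rot (qc_BM hF hF0 (1 / 576) i) _ x).const_mul _
  · intro θ
    simp only
    have := qc_compare hF0 hFH hG i Y ((dia (-s) * rot θ) • x) hU hY
    rwa [smul_smul, ← mul_assoc] at this

variable (m : Measure SL2) [m.IsHaarMeasure]

/-- The neighbourhood of the identity. -/
def OO : Set SL2 := {g | 1 / 2 < |g.1 0 0| ∧ NN g < 3}

lemma isOpen_OO : IsOpen OO :=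
  (isOpen_lt continuous_const (continuous_entry 0 0).abs).inter
    (isOpen_lt continuous_NN continuous_const)

/-- The constant `κ₀`. -/
noncomputable def kz : ℝ := ∫ g in OO, kp 2 g ∂m

lemma kz_pos : 0 < kz m := by
  unfold kz
  rw [integral_pos_iff_support_of_nonneg (fun g => (kp_pos 2 g).le)
    (integrable_kp m 2 le_rfl).integrableOn]
  have : Function.support (kp 2) = Set.univ := by
    ext g; simp [(kp_pos 2 g).ne']
  rw [this, Measure.restrict_apply_univ]
  apply isOpen_OO.measure_pos m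
  refine ⟨1, ?_, ?_⟩
  · simp only [Matrix.SpecialLinearGroup.coe_one, Matrix.one_apply_eq, abs_one]; norm_num
  · simp only [NN, Matrix.SpecialLinearGroup.coe_one, Matrix.one_apply_eq]
    norm_num [Matrix.one_apply]

/-- Fubini for `S T`. -/
lemma S_T_fubini {q : X → ℝ} (hq : BM q) (s : ℝ) (x : X) :
    S s (T m 2 q) x = ∫ g, kp 2 g * ∫ θ, q ((g⁻¹ * dia (-s) * rot θ) • x) ∂nu ∂m := by
  unfold S T
  obtain ⟨C, hC⟩ := hq.bdd
  rw [integral_integral_swap]
  · congr 1; funext g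
    rw [← integral_const_mul]
    congr 1; funext θ
    rw [smul_smul, ← mul_assoc]
  · have h1 : Integrable (fun z : ℝ × SL2 => kp 2 z.2) (nu.prod m) := integrable_kp_snd m 2 le_rfl
    have h2 : AEStronglyMeasurable
        (fun z : ℝ × SL2 => q (z.2⁻¹ • (dia (-s) * rot z.1) • x)) (nu.prod m) := by
      apply Measurable.aestronglyMeasurable
      apply hq.meas.comp
      apply Measurable.smul measurable_snd.inv
      exact (measurable_const.mul (measurable_rot.comp measurable_fst)).smul measurable_const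
    have := h1.bdd_mul (c := C) h2 (Eventually.of_forall fun q => hC _)
    exact this.congr (Eventually.of_forall fun q => mul_comm _ _)

lemma S_qc_le_ST (hF : BM F) (hF0 : ∀ x, 0 ≤ F x) (hFH : Har F) (hG : ∀ i : ℕ, Har (S i F))
    (i : ℕ) (s : ℝ) (hs : 0 ≤ s) (x : X) :
    kz m * S s (qc F 1 i) x ≤ 576 ^ 3 * S s (T m 2 (qc F (1 / 576) i)) x := by
  set q := qc F (1 / 576) i with hq
  have hqB : BM q := qc_BM hF hF0 _ i
  have hq0 : ∀ x, 0 ≤ q x := qc_nonneg hF0 (by norm_num) (by norm_num) i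
  rw [S_T_fubini m hqB, kz, ← integral_mul_const, ← integral_const_mul]
  obtain ⟨C, hC⟩ := hqB.bdd
  have hmeas : Measurable (fun g : SL2 => ∫ θ, q ((g⁻¹ * dia (-s) * rot θ) • x) ∂nu) := by
    have : Measurable (fun z : SL2 × ℝ => q ((z.1⁻¹ * dia (-s) * rot z.2) • x)) := by
      apply hqB.meas.comp
      apply Measurable.smul _ measurable_const
      exact (measurable_fst.inv.mul measurable_const).mul (measurable_rot.comp measurable_snd)
    exact (this.stronglyMeasurable.integral_prod_right' (ν := nu)).measurable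
  have hbd : ∀ g : SL2, |∫ θ, q ((g⁻¹ * dia (-s) * rot θ) • x) ∂nu| ≤ C := by
    intro g
    have := norm_integral_le_of_norm_le_const (μ := nu)
      (f := fun θ => q ((g⁻¹ * dia (-s) * rot θ) • x)) (C := C) (Eventually.of_forall fun θ => hC _)
    simpa using this
  have hint : Integrable (fun g => kp 2 g * ∫ θ, q ((g⁻¹ * dia (-s) * rot θ) • x) ∂nu) m := by
    have := (integrable_kp m 2 le_rfl).bdd_mul (c := C) hmeas.aestronglyMeasurable
      (Eventually.of_forall fun g => hbd g)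
    exact this.congr (Eventually.of_forall fun q => mul_comm _ _)
  have hint2 : Integrable
      (fun g => 576 ^ 3 * (kp 2 g * ∫ θ, q ((g⁻¹ * dia (-s) * rot θ) • x) ∂nu)) m :=
    hint.const_mul _
  have hnn : ∀ g : SL2, 0 ≤ 576 ^ 3 * (kp 2 g * ∫ θ, q ((g⁻¹ * dia (-s) * rot θ) • x) ∂nu) := by
    intro g
    apply mul_nonneg (by norm_num)
    exact mul_nonneg (kp_pos 2 g).le (integral_nonneg fun θ => hq0 _)
  calc ∫ g in OO, kp 2 g * S s (qc F 1 i) x ∂m
      ≤ ∫ g in OO, 576 ^ 3 * (kp 2 g * ∫ θ, q ((g⁻¹ * dia (-s) * rot θ) • x) ∂nu) ∂m := by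
        apply setIntegral_mono_on
        · exact ((integrable_kp m 2 le_rfl).mul_const _).integrableOn
        · exact hint2.integrableOn
        · exact isOpen_OO.measurableSet
        · intro g hg
          have h1 : 1 / 2 ≤ |(g⁻¹).1 1 1| := by rw [inv_11]; exact hg.1.le
          have h2 : NN g⁻¹ ≤ 3 := by rw [NN_inv]; exact hg.2.le
          have h3 := S_qc_compare hF hF0 hFH hG i s hs g⁻¹ h1 h2 x
          have h4 := kp_pos 2 g
          calc kp 2 g * S s (qc F 1 i) x
              ≤ kp 2 g * (576 ^ 3 * ∫ θ, q ((g⁻¹ * dia (-s) * rot θ) • x) ∂nu) :=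
                mul_le_mul_of_nonneg_left h3 h4.le
            _ = _ := by ring
    _ ≤ _ := setIntegral_le_integral hint2 (Eventually.of_forall hnn)

/-- `T q = T (S₀ q)`. -/
lemma T_avg {q : X → ℝ} (hq : BM q) (z : X) : T m 2 (S 0 q) z = T m 2 q z := by
  obtain ⟨C, hC⟩ := hq.bdd
  have h1 : ∀ θ, ∫ g, kp 2 g * q (rot θ • g⁻¹ • z) ∂m = T m 2 q z := by
    intro θ
    unfold T
    rw [← (mp_mul_rot m (-θ)).integral_comp (Homeomorph.mulRight (rot (-θ))).measurableEmbedding
      (fun g => kp 2 g * q (g⁻¹ • z))]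
    congr 1; funext g
    have e1 : kp 2 (g * rot (-θ)) = kp 2 g := by unfold kp; rw [NN_mul_rot]
    rw [e1, mul_inv_rev, rot_neg, inv_inv, smul_smul]
  have h2 : T m 2 (S 0 q) z = ∫ g, ∫ θ, kp 2 g * q (rot θ • g⁻¹ • z) ∂nu ∂m := by
    unfold T
    congr 1; funext g
    rw [S_zero_apply, integral_const_mul]
  rw [h2, integral_integral_swap]
  · simp_rw [h1]; simp
  · have h1 : Integrable (fun z : SL2 × ℝ => kp 2 z.1) (m.prod nu) :=
      (integrable_kp m 2 le_rfl).comp_fst nu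
    have h2 : AEStronglyMeasurable
        (fun w : SL2 × ℝ => q (rot w.2 • w.1⁻¹ • z)) (m.prod nu) := by
      apply Measurable.aestronglyMeasurable
      apply hq.meas.comp
      apply Measurable.smul (measurable_rot.comp measurable_snd)
      exact measurable_fst.inv.smul measurable_const
    have := h1.bdd_mul (c := C) h2 (Eventually.of_forall fun q => hC _)
    exact this.congr (Eventually.of_forall fun q => mul_comm _ _)

end

end Pool.Agent.Helper31.ErgSL2
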