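import Pool.Agent.Helper31.ErgSL2.Ball

/-!
# Convergence for bounded functions
-/

set_option autoImplicit false
open MeasureTheory Filter Topology

namespace Pool.Agent.Helper31.ErgSL2

variable [MeasurableSpace SL2] [BorelSpace SL2]
variable {X : Type*} [MeasurableSpace X] [MulAction SL2 X] [MeasurableSMul₂ SL2 X]
variable (m : Measure SL2) [m.IsHaarMeasure]

omit [MeasurableSpace SL2] [BorelSpace SL2] [MulAction SL2 X] [MeasurableSMul₂ SL2 X] in
lemma ae_tendsto_of_summable (μ : Measure X) [IsProbabilityMeasure μ] (g : ℕ → X → ℝ)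
    (hg : ∀ n, BM (g n)) (hs : Summable fun n => ∫ x, g n x ^ 2 ∂μ) :
    ∀ᵐ x ∂μ, Tendsto (fun n => g n x) atTop (𝓝 0) := by
  have h1 : ∫⁻ x, ∑' n, ENNReal.ofReal (g n x ^ 2) ∂μ ≠ ⊤ := by
    rw [lintegral_tsum fun n => ((hg n).sq.meas.ennreal_ofReal).aemeasurable]
    have : ∀ n, ∫⁻ x, ENNReal.ofReal (g n x ^ 2) ∂μ = ENNReal.ofReal (∫ x, g n x ^ 2 ∂μ) :=
      fun n => (ofReal_integral_eq_lintegral_ofReal ((hg n).sq.integrable μ)
        (Eventually.of_forall fun x => sq_nonneg _)).symm
    simp_rw [this]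
    rw [← ENNReal.ofReal_tsum_of_nonneg (fun n => integral_nonneg fun x => sq_nonneg _) hs]
    exact ENNReal.ofReal_ne_top
  have h2 : ∀ᵐ x ∂μ, ∑' n, ENNReal.ofReal (g n x ^ 2) < ⊤ := by
    apply ae_lt_top' _ h1
    exact (Measurable.tsum fun n => (hg n).sq.meas.ennreal_ofReal).aemeasurable
  filter_upwards [h2] with x hx
  have h3 := ENNReal.tendsto_atTop_zero_of_tsum_ne_top hx.ne
  have h4 : Tendsto (fun n => g n x ^ 2) atTop (𝓝 0) := by
    have := (ENNReal.tendsto_toReal ENNReal.zero_ne_top).comp h3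
    simp only [ENNReal.toReal_zero] at this
    refine this.congr fun n => ?_
    simp only [Function.comp]
    rw [ENNReal.toReal_ofReal (sq_nonneg _)]
  have h5 : Tendsto (fun n => Real.sqrt (g n x ^ 2)) atTop (𝓝 0) := by
    have := (Real.continuous_sqrt.tendsto 0).comp h4
    rw [Real.sqrt_zero] at this
    exact this
  have h6 : Tendsto (fun n => |g n x|) atTop (𝓝 0) := by
    refine h5.congr fun n => ?_
    rw [Real.sqrt_sq_eq_abs]
  exact (tendsto_zero_iff_abs_tendsto_zero _).mpr h6

lemma S_T_lip (p : ℕ) (hp : 2 ≤ p) {w : X → ℝ} (hw : BM w) {C : ℝ} (hC : ∀ x, |w x| ≤ C)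
    (s t : ℝ) (x : X) :
    |S t (T m p w) x - S s (T m p w) x| ≤ C * (p * Zp m p) * |t - s| := by
  have h := Convex.norm_image_sub_le_of_norm_hasDerivWithin_le (s := Set.univ)
    (f := fun s => J m (k0 p s) w x) (f' := fun s => J m (k1 p s) w x)
    (C := C * (p * Zp m p)) (x := s) (y := t)
    (fun u _ => (J_k0_deriv m p hp hw u x).hasDerivWithinAt)
    (fun u _ => by
      have hC0 : 0 ≤ C := (abs_nonneg _).trans (hC x)
      refine (J_abs_le m (integrable_k1 m p hp u) hC x).trans ?_
      exact mul_le_mul_of_nonneg_left (int_abs_le m p hp u (k1_le p u)) hC0)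
    convex_univ (Set.mem_univ _) (Set.mem_univ _)
  simp only [Real.norm_eq_abs] at h
  rwa [J_k0_eq m p hp hw, J_k0_eq m p hp hw] at h

section
variable (μ : Measure X) [IsProbabilityMeasure μ] [SMulInvariantMeasure SL2 X μ]

/-- Pointwise decay. -/
lemma decay_ae (p : ℕ) (hp : 2 ≤ p) {R ε : ℝ} (hgap : Gap μ R ε) (hε : 0 < ε)
    {w : X → ℝ} (hw : BM w) (hw0 : ∫ x, w x ∂μ = 0) :
    ∀ᵐ x ∂μ, Tendsto (fun s => S s (T m p w) x) atTop (𝓝 0) := by
  obtain ⟨C, β, hC, hβ, hdec⟩ := decay m μ p hp hgap hε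
  obtain ⟨Cw, hCw0, hCw⟩ := hw.bdd'
  set L := Cw * (p * Zp m p) with hL
  have hZ := Zp_pos m p hp
  have hL0 : 0 ≤ L := by positivity
  have h1 : ∀ k : ℕ, ∀ᵐ x ∂μ, Tendsto (fun n : ℕ => S ((n : ℝ) / (k + 1)) (T m p w) x) atTop
      (𝓝 0) := by
    intro k
    apply ae_tendsto_of_summable μ _ fun n => S_BM (T_BM m p hp hw) _
    have hk : (0 : ℝ) < k + 1 := by positivity
    have hsum : Summable fun n : ℕ => (C * ∫ x, w x ^ 2 ∂μ) * (Real.exp (-β / (k + 1))) ^ n := by
      apply Summable.mul_left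
      apply summable_geometric_of_lt_one (Real.exp_pos _).le
      rw [Real.exp_lt_one_iff]
      exact div_neg_of_neg_of_pos (by linarith) hk
    refine Summable.of_nonneg_of_le (fun n => integral_nonneg fun x => sq_nonneg _) ?_ hsum
    intro n
    refine (hdec w hw hw0 _ (by positivity)).trans (le_of_eq ?_)
    rw [← Real.exp_nat_mul]
    have : -β * ((n : ℝ) / (k + 1)) = n * (-β / (k + 1)) := by ring
    rw [this]; ring
  have h2 := ae_all_iff.mpr h1
  filter_upwards [h2] with x hx
  rw [Metric.tendsto_atTop]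
  intro e he
  obtain ⟨k, hk⟩ : ∃ k : ℕ, L / (k + 1) < e / 2 := by
    obtain ⟨k, hk⟩ := exists_nat_gt (L / (e / 2))
    refine ⟨k, ?_⟩
    rw [div_lt_iff₀ (by positivity)]
    rw [div_lt_iff₀ (by positivity)] at hk
    nlinarith
  obtain ⟨N, hN⟩ := (Metric.tendsto_atTop.mp (hx k)) (e / 2) (by positivity)
  have hk1 : (0 : ℝ) < k + 1 := by positivity
  refine ⟨(N : ℝ) / (k + 1), fun s hs => ?_⟩
  have hs0 : 0 ≤ s := le_trans (by positivity) hs
  set n := ⌊s * (k + 1)⌋₊ with hn
  have hnN : N ≤ n := by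
    apply Nat.le_floor
    rw [ge_iff_le, div_le_iff₀ hk1] at hs
    exact hs
  have h3 := hN n hnN
  rw [Real.dist_eq, sub_zero] at h3 ⊢
  have h4 := S_T_lip m p hp hw hCw ((n : ℝ) / (k + 1)) s x
  have h5 : |s - (n : ℝ) / (k + 1)| ≤ 1 / (k + 1) := by
    have a1 := Nat.floor_le (mul_nonneg hs0 hk1.le)
    have a2 := Nat.lt_floor_add_one (s * (k + 1))
    rw [← hn] at a1 a2
    rw [abs_le]
    constructor
    · have : (n : ℝ) / (k + 1) ≤ s := by rw [div_le_iff₀ hk1]; exact a1
      have : 0 ≤ 1 / ((k : ℝ) + 1) := by positivity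
      linarith
    · have : s ≤ (n : ℝ) / (k + 1) + 1 / (k + 1) := by
        rw [← add_div, le_div_iff₀ hk1]; exact a2.le
      linarith
  have h6 : L * |s - (n : ℝ) / (k + 1)| ≤ L / (k + 1) := by
    calc L * |s - (n : ℝ) / (k + 1)| ≤ L * (1 / (k + 1)) := mul_le_mul_of_nonneg_left h5 hL0
      _ = _ := by ring
  have h7 := abs_sub_abs_le_abs_sub (S s (T m p w) x) (S ((n : ℝ) / (k + 1)) (T m p w) x)
  linarith

end

/-- The spherical mean through group elements. -/
lemma sph_eq {v : X → ℝ} (hv : Kinv v) (x : X) (g : SL2) : ∃ s, 0 ≤ s ∧ NN g = 2 * Real.cosh s ∧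
    ∫ θ, v (g⁻¹ • rot θ • x) ∂nu = S s v x := by
  obtain ⟨α, s, β, hs, e⟩ := exists_KAK g
  refine ⟨s, hs, by rw [e, NN_mul_rot, NN_rot_mul, NN_dia], ?_⟩
  unfold S
  rw [← nu_shift _ (per_rot v (dia (-s)) x) (-α)]
  congr 1; funext θ
  rw [e, mul_inv_rev, mul_inv_rev, ← rot_neg, ← rot_neg, ← dia_neg, ← smul_smul, hv, ← smul_smul,
    smul_smul (rot (-α)), ← rot_add, smul_smul, add_comm]

instance finite_ball (R : ℝ) : IsFiniteMeasure (m.restrict {g : SL2 | NN g < R}) := by
  constructor
  rw [Measure.restrict_apply_univ, vol_NN]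
  exact ENNReal.ofReal_lt_top

lemma ball_avg {v : X → ℝ} (hv : BM v) (R : ℝ) (x : X) :
    ∫ g in {g : SL2 | NN g < R}, v (g⁻¹ • x) ∂m
      = ∫ g in {g : SL2 | NN g < R}, (∫ θ, v (g⁻¹ • rot θ • x) ∂nu) ∂m := by
  obtain ⟨C, hC⟩ := hv.bdd
  rw [integral_integral_swap]
  · have h1 : ∀ θ, ∫ g in {g : SL2 | NN g < R}, v (g⁻¹ • rot θ • x) ∂m
        = ∫ g in {g : SL2 | NN g < R}, v (g⁻¹ • x) ∂m := by
      intro θ
      rw [← integral_indicator (measurableSet_ball R), ← integral_indicator (measurableSet_ball R),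
        ← integral_mul_left_eq_self (fun g => ({g : SL2 | NN g < R}.indicator
          (fun g => v (g⁻¹ • rot θ • x))) g) (rot θ)]
      congr 1; funext g
      by_cases hg : NN g < R
      · rw [Set.indicator_of_mem (show g ∈ {g : SL2 | NN g < R} from hg),
          Set.indicator_of_mem (show rot θ * g ∈ {g : SL2 | NN g < R} by
            simpa [NN_rot_mul] using hg)]
        rw [smul_smul, mul_inv_rev, mul_assoc, inv_mul_cancel, mul_one]
      · rw [Set.indicator_of_notMem (show g ∉ {g : SL2 | NN g < R} from hg),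
          Set.indicator_of_notMem (show rot θ * g ∉ {g : SL2 | NN g < R} by
            simpa [NN_rot_mul] using hg)]
    simp_rw [h1]
    simp
  · refine Integrable.of_bound ?_ C (Eventually.of_forall fun q => hC _)
    apply Measurable.aestronglyMeasurable
    apply hv.meas.comp
    apply Measurable.smul measurable_fst.inv
    exact (measurable_rot.comp measurable_snd).smul measurable_const

lemma BA_tendsto_zero {v : X → ℝ} (hv : BM v) (hK : Kinv v) (x : X)
    (h : Tendsto (fun s => S s v x) atTop (𝓝 0)) :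
    Tendsto (fun R => BA m R v x) atTop (𝓝 0) := by
  obtain ⟨C, hC0, hC⟩ := hv.bdd'
  have hvc := vc_pos m
  rw [Metric.tendsto_atTop]
  intro e he
  obtain ⟨s0, hs0⟩ := (Metric.tendsto_atTop.mp h) (e / 2) (by positivity)
  set R0 := 2 * Real.cosh (max s0 0) with hR0
  have hR02 : 2 ≤ R0 := by have := Real.one_le_cosh (max s0 0); linarith
  have hΨ : ∀ g : SL2, |∫ θ, v (g⁻¹ • rot θ • x) ∂nu| ≤ e / 2 + C * (if NN g < R0 then 1 else 0) := by
    intro g
    obtain ⟨s, hs, hN, hE⟩ := sph_eq hK x g
    rw [hE]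
    split_ifs with hg
    · have := S_bound hC s x
      linarith
    · rw [hN, hR0, not_lt] at hg
      have h1 : max s0 0 ≤ s := by
        have h2 : Real.cosh (max s0 0) ≤ Real.cosh s := by linarith
        rw [Real.cosh_le_cosh, abs_of_nonneg (le_max_right _ _), abs_of_nonneg hs] at h2
        exact h2
      have h3 := hs0 s ((le_max_left _ _).trans h1)
      rw [Real.dist_eq, sub_zero] at h3
      linarith
  -- choose R large
  refine ⟨max (R0 + 4) (2 + (2 * C * (R0 - 2)) / e + 1), fun R hR => ?_⟩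
  have hR1 : R0 + 4 ≤ R := (le_max_left _ _).trans hR
  have hR2 : 2 + (2 * C * (R0 - 2)) / e + 1 ≤ R := (le_max_right _ _).trans hR
  have hR4 : 4 ≤ R := by linarith
  rw [Real.dist_eq, sub_zero]
  unfold BA
  rw [ball_avg m hv, vol_toReal m (by linarith), abs_mul, abs_inv,
    abs_of_pos (mul_pos hvc (by linarith : 0 < R - 2)), inv_mul_lt_iff₀ (mul_pos hvc (by linarith))]
  have hint : Integrable (fun g : SL2 => e / 2 + C * (if NN g < R0 then (1 : ℝ) else 0))
      (m.restrict {g : SL2 | NN g < R}) := by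
    refine Integrable.of_bound (C := e / 2 + C) ?_ (Eventually.of_forall fun g => ?_)
    · apply Measurable.aestronglyMeasurable
      exact measurable_const.add (measurable_const.mul
        (Measurable.ite (measurableSet_ball R0) measurable_const measurable_const))
    · rw [Real.norm_eq_abs, abs_le]
      split_ifs <;> constructor <;> linarith
  calc |∫ g in {g : SL2 | NN g < R}, (∫ θ, v (g⁻¹ • rot θ • x) ∂nu) ∂m|
      ≤ ∫ g in {g : SL2 | NN g < R}, (e / 2 + C * (if NN g < R0 then 1 else 0)) ∂m := by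
        rw [← Real.norm_eq_abs]
        exact norm_integral_le_of_norm_le hint (Eventually.of_forall hΨ)
    _ = vc m * (R - 2) * (e / 2) + C * (vc m * (R0 - 2)) := by
        rw [integral_add (integrable_const _), integral_const, integral_const_mul]
        · have e1 : ∫ g in {g : SL2 | NN g < R}, (if NN g < R0 then (1 : ℝ) else 0) ∂m
              = vc m * (R0 - 2) := by
            have e2 : (fun g : SL2 => if NN g < R0 then (1 : ℝ) else 0)
                = {g : SL2 | NN g < R0}.indicator (fun _ => 1) := by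
              funext g; simp [Set.indicator]
            rw [e2, integral_indicator (measurableSet_ball R0), Measure.restrict_restrict
              (measurableSet_ball R0), setIntegral_const]
            have e3 : {g : SL2 | NN g < R0} ∩ {g : SL2 | NN g < R} = {g : SL2 | NN g < R0} := by
              apply Set.inter_eq_left.mpr
              intro g hg; simp only [Set.mem_ofPred_eq] at hg ⊢; linarith
            rw [e3, measureReal_def, vol_toReal m hR02]; simp
          rw [e1, measureReal_def, Measure.restrict_apply_univ, vol_toReal m (by linarith),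
            smul_eq_mul]
        · refine Integrable.of_bound (C := C) ?_ (Eventually.of_forall fun g => ?_)
          · apply Measurable.aestronglyMeasurable
            exact (measurable_const.mul
              (Measurable.ite (measurableSet_ball R0) measurable_const measurable_const))
          · rw [Real.norm_eq_abs, abs_le]
            split_ifs <;> constructor <;> linarith
    _ < vc m * (R - 2) * e := by
        have h1 : 2 * C * (R0 - 2) < e * (R - 2) := by
          have h2 : (2 * C * (R0 - 2)) / e < R - 2 := by linarith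
          rw [div_lt_iff₀ he] at h2
          linarith
        nlinarith

/-- Symmetric difference of a ball and its translate. -/
lemma symm_meas (h : SL2) {R : ℝ} (hR : 0 ≤ R) :
    m {g : SL2 | ¬ (NN g < R ↔ NN (g * h) < R)}
      ≤ ENNReal.ofReal (2 * vc m * R * Real.sqrt (NN h * (NN h - 2))) := by
  set η := Real.sqrt (NN h * (NN h - 2)) with hη
  have hη0 : 0 ≤ η := Real.sqrt_nonneg _
  have hvc := vc_pos m
  have h1 : ∀ g, NN (g * h) ≤ NN g * (1 + η) := fun g => NN_mul_sub g h
  have h2 : ∀ g, NN g ≤ NN (g * h) * (1 + η) := by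
    intro g
    have := NN_mul_sub (g * h) h⁻¹
    rwa [mul_inv_cancel_right, NN_inv] at this
  have hsub : {g : SL2 | ¬ (NN g < R ↔ NN (g * h) < R)} ⊆
      {g | NN g < R * (1 + η)} \ {g | NN g < R / (1 + η)} := by
    intro g hg
    simp only [Set.mem_ofPred_eq, Set.mem_sdiff, not_lt] at hg ⊢
    have hpos : 0 < 1 + η := by linarith
    by_cases hgR : NN g < R
    · have h3 : R ≤ NN (g * h) := by
        by_contra hlt; push Not at hlt; exact hg ⟨fun _ => hlt, fun _ => hgR⟩
      constructor
      · nlinarith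
      · rw [div_le_iff₀ hpos]; exact h3.trans (h1 g)
    · have h3 : NN (g * h) < R := by
        by_contra hlt; exact hg ⟨fun h4 => absurd h4 hgR, fun h4 => absurd h4 hlt⟩
      push Not at hgR
      constructor
      · calc NN g ≤ NN (g * h) * (1 + η) := h2 g
          _ < R * (1 + η) := mul_lt_mul_of_pos_right h3 hpos
      · rw [div_le_iff₀ hpos]; nlinarith
  refine (measure_mono hsub).trans ?_
  have hpos : 0 < 1 + η := by linarith
  have hle : R / (1 + η) ≤ R * (1 + η) := by
    rw [div_le_iff₀ hpos]; nlinarith [mul_nonneg hR hη0, mul_nonneg hR (sq_nonneg η)]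
  rw [measure_sdiff, vol_NN, vol_NN, tsub_le_iff_right]
  · refine le_trans (ENNReal.ofReal_le_ofReal ?_) ENNReal.ofReal_add_le
    have key : R * (1 + η) - R / (1 + η) ≤ 2 * R * η := by
      have : R / (1 + η) ≥ R * (1 - η) := by
        rw [ge_iff_le, le_div_iff₀ hpos]; nlinarith [mul_nonneg hR (sq_nonneg η)]
      nlinarith
    have := mul_le_mul_of_nonneg_left key hvc.le
    nlinarith
  · intro g hg; simp only [Set.mem_ofPred_eq] at hg ⊢; linarith
  · exact (measurableSet_ball _).nullMeasurableSet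
  · rw [vol_NN]; exact ENNReal.ofReal_ne_top

end Pool.Agent.Helper31.ErgSL2
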