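import Pool.Agent.Helper31.ErgSL2.Kernel

/-!
# Derivatives of the kernels and the Darboux equation
-/

set_option autoImplicit false
open MeasureTheory Filter Topology

namespace Pool.Agent.Helper31.ErgSL2

/-- `N(a_{-s} k_θ g)`. -/
noncomputable def nn (s : ℝ) (q : ℝ × SL2) : ℝ := NN (dia (-s) * rot q.1 * q.2)

/-- its `s`-derivative. -/
noncomputable def nd (s : ℝ) (q : ℝ × SL2) : ℝ :=
  NN q.2 * Real.sinh s - Real.cosh s * DD q.1 q.2

lemma nn_eq (s : ℝ) (q : ℝ × SL2) :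
    nn s q = NN q.2 * Real.cosh s - Real.sinh s * DD q.1 q.2 := NN_formula _ _ _

lemma nn_pos (s : ℝ) (q : ℝ × SL2) : 0 < nn s q := NN_pos _

lemma hasDerivAt_nn (s : ℝ) (q : ℝ × SL2) : HasDerivAt (fun s => nn s q) (nd s q) s := by
  have h := ((Real.hasDerivAt_cosh s).const_mul (NN q.2)).sub
    ((Real.hasDerivAt_sinh s).mul_const (DD q.1 q.2))
  refine (h.congr_of_eventuallyEq (Eventually.of_forall fun s => ?_))
  simp only [nn_eq, Pi.sub_apply]

lemma hasDerivAt_nd (s : ℝ) (q : ℝ × SL2) : HasDerivAt (fun s => nd s q) (nn s q) s := by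
  have h := ((Real.hasDerivAt_sinh s).const_mul (NN q.2)).sub
    ((Real.hasDerivAt_cosh s).mul_const (DD q.1 q.2))
  rw [nn_eq]
  exact h

lemma abs_nd_le (s : ℝ) (q : ℝ × SL2) : |nd s q| ≤ nn s q := by
  have h1 := abs_le.mp (abs_DD_le q.1 q.2)
  rw [abs_le, nn_eq, nd, Real.cosh_eq, Real.sinh_eq]
  have e1 := Real.exp_pos s
  have e2 := Real.exp_pos (-s)
  constructor
  · nlinarith [mul_nonneg e1.le (sub_nonneg.mpr h1.2)]
  · nlinarith [mul_nonneg e2.le (by linarith [h1.1] : 0 ≤ NN q.2 + DD q.1 q.2)]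

/-- inverse. -/
noncomputable def yy (s : ℝ) (q : ℝ × SL2) : ℝ := (nn s q)⁻¹

lemma yy_pos (s : ℝ) (q : ℝ × SL2) : 0 < yy s q := inv_pos.mpr (nn_pos s q)

lemma nn_mul_yy (s : ℝ) (q : ℝ × SL2) : nn s q * yy s q = 1 := mul_inv_cancel₀ (nn_pos s q).ne'

lemma abs_nd_yy_le (s : ℝ) (q : ℝ × SL2) : |nd s q * yy s q| ≤ 1 := by
  rw [abs_mul, abs_of_pos (yy_pos s q), ← nn_mul_yy s q]
  exact mul_le_mul_of_nonneg_right (abs_nd_le s q) (yy_pos s q).le

lemma hasDerivAt_yy (s : ℝ) (q : ℝ × SL2) :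
    HasDerivAt (fun s => yy s q) (-(nd s q * yy s q ^ 2)) s := by
  have h := (hasDerivAt_nn s q).inv (nn_pos s q).ne'
  refine h.congr_deriv ?_
  unfold yy
  rw [inv_pow]; ring

lemma hasDerivAt_yy_pow (p : ℕ) (s : ℝ) (q : ℝ × SL2) :
    HasDerivAt (fun s => yy s q ^ p) (-(p * nd s q * yy s q ^ (p + 1))) s := by
  rcases p with _ | p
  · simpa using hasDerivAt_const s (1 : ℝ)
  · have h := (hasDerivAt_yy s q).pow (p + 1)
    refine h.congr_deriv ?_
    rw [Nat.add_sub_cancel]; push_cast; ring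

/-- The kernel of `S_s T_p`. -/
noncomputable def k0 (p : ℕ) (s : ℝ) (q : ℝ × SL2) : ℝ := yy s q ^ p
/-- first derivative -/
noncomputable def k1 (p : ℕ) (s : ℝ) (q : ℝ × SL2) : ℝ := -(p * nd s q * yy s q ^ (p + 1))
/-- second derivative -/
noncomputable def k2 (p : ℕ) (s : ℝ) (q : ℝ × SL2) : ℝ :=
  -(p * yy s q ^ p) + p * (p + 1) * nd s q ^ 2 * yy s q ^ (p + 2)

lemma k0_deriv (p : ℕ) (s : ℝ) (q : ℝ × SL2) : HasDerivAt (fun s => k0 p s q) (k1 p s q) s :=
  hasDerivAt_yy_pow p s q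

lemma k1_deriv (p : ℕ) (s : ℝ) (q : ℝ × SL2) : HasDerivAt (fun s => k1 p s q) (k2 p s q) s := by
  have h := (((hasDerivAt_nd s q).const_mul (p : ℝ)).mul (hasDerivAt_yy_pow (p + 1) s q)).neg
  refine h.congr_deriv ?_
  unfold k2
  have hy := nn_mul_yy s q
  push_cast
  have e : yy s q ^ (p + 1) = yy s q ^ p * yy s q := pow_succ _ _
  have e2 : yy s q ^ (p + 2) = yy s q ^ p * yy s q ^ 2 := pow_add _ _ _
  have e3 : yy s q ^ (p + 1 + 1) = yy s q ^ p * yy s q ^ 2 := by rw [← e2]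
  rw [e3, e]
  linear_combination (-(p : ℝ)) * yy s q ^ p * hy

lemma k0_pos (p : ℕ) (s : ℝ) (q : ℝ × SL2) : 0 < k0 p s q := pow_pos (yy_pos s q) p

lemma k1_le (p : ℕ) (s : ℝ) (q : ℝ × SL2) : |k1 p s q| ≤ p * k0 p s q := by
  have e : k1 p s q = -(p * (nd s q * yy s q)) * k0 p s q := by
    unfold k1 k0; rw [pow_succ]; ring
  have h0 := k0_pos p s q
  rw [e, abs_mul, abs_of_pos h0, abs_neg, abs_mul, abs_of_nonneg (Nat.cast_nonneg p)]
  have h1 := abs_nd_yy_le s q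
  have h2 : (0 : ℝ) ≤ p := Nat.cast_nonneg p
  apply mul_le_mul_of_nonneg_right _ h0.le
  calc (p : ℝ) * |nd s q * yy s q| ≤ p * 1 := mul_le_mul_of_nonneg_left h1 h2
    _ = p := mul_one _

lemma k2_le (p : ℕ) (s : ℝ) (q : ℝ × SL2) : |k2 p s q| ≤ p * (p + 2) * k0 p s q := by
  have e : k2 p s q = (-(p : ℝ) + p * (p + 1) * (nd s q * yy s q) ^ 2) * k0 p s q := by
    unfold k2 k0; rw [pow_add]; ring
  have h0 := k0_pos p s q
  rw [e, abs_mul, abs_of_pos h0]
  have h1 := abs_nd_yy_le s q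
  have h2 : (0 : ℝ) ≤ p := Nat.cast_nonneg p
  apply mul_le_mul_of_nonneg_right _ h0.le
  have h3 : (nd s q * yy s q) ^ 2 ≤ 1 := by
    rw [← sq_abs]; exact pow_le_one₀ (abs_nonneg _) h1
  have h4 : 0 ≤ (nd s q * yy s q) ^ 2 := sq_nonneg _
  have h5 : 0 ≤ (p : ℝ) * (p + 1) := by positivity
  rw [abs_le]
  constructor
  · nlinarith [mul_nonneg h5 h4]
  · nlinarith [mul_le_mul_of_nonneg_left h3 h5]

/-- The kernel of `S_s v₁`. -/
noncomputable def kW (p : ℕ) (s : ℝ) (q : ℝ × SL2) : ℝ :=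
  4 * p * (p + 1) * k0 (p + 2) s q + (-(p * (p - 1))) * k0 p s q

/-! ### θ-derivatives -/

lemma hasDerivAt_DD (g : SL2) (θ : ℝ) : HasDerivAt (fun θ => DD θ g) (DE θ g) θ := by
  unfold DD DE
  have h2 : HasDerivAt (fun θ : ℝ => 2 * θ) 2 θ := by
    simpa using (hasDerivAt_id θ).const_mul (2 : ℝ)
  have hc : HasDerivAt (fun θ => Real.cos (2 * θ)) (-Real.sin (2 * θ) * 2) θ :=
    (Real.hasDerivAt_cos (2 * θ)).comp θ h2
  have hs : HasDerivAt (fun θ => Real.sin (2 * θ)) (Real.cos (2 * θ) * 2) θ :=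
    (Real.hasDerivAt_sin (2 * θ)).comp θ h2
  have h := (hc.const_mul ((g.1 0 0) ^ 2 + (g.1 0 1) ^ 2 - (g.1 1 0) ^ 2 - (g.1 1 1) ^ 2)).sub
    (hs.const_mul (2 * (g.1 0 0 * g.1 1 0 + g.1 0 1 * g.1 1 1)))
  refine h.congr_deriv ?_
  ring

lemma hasDerivAt_DE (g : SL2) (θ : ℝ) : HasDerivAt (fun θ => DE θ g) (-4 * DD θ g) θ := by
  unfold DD DE
  have h2 : HasDerivAt (fun θ : ℝ => 2 * θ) 2 θ := by
    simpa using (hasDerivAt_id θ).const_mul (2 : ℝ)
  have hc : HasDerivAt (fun θ => Real.cos (2 * θ)) (-Real.sin (2 * θ) * 2) θ :=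
    (Real.hasDerivAt_cos (2 * θ)).comp θ h2
  have hs : HasDerivAt (fun θ => Real.sin (2 * θ)) (Real.cos (2 * θ) * 2) θ :=
    (Real.hasDerivAt_sin (2 * θ)).comp θ h2
  have h := (hs.const_mul (-2 * ((g.1 0 0) ^ 2 + (g.1 0 1) ^ 2 - (g.1 1 0) ^ 2
    - (g.1 1 1) ^ 2))).sub (hc.const_mul (4 * (g.1 0 0 * g.1 1 0 + g.1 0 1 * g.1 1 1)))
  refine h.congr_deriv ?_
  ring

lemma DD_per (g : SL2) : Function.Periodic (fun θ => DD θ g) (2 * Real.pi) := by
  intro θ
  simp only [DD]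
  rw [show 2 * (θ + 2 * Real.pi) = 2 * θ + 2 * Real.pi + 2 * Real.pi by ring, Real.cos_add_two_pi,
    Real.cos_add_two_pi, Real.sin_add_two_pi, Real.sin_add_two_pi]

lemma DE_per (g : SL2) : Function.Periodic (fun θ => DE θ g) (2 * Real.pi) := by
  intro θ
  simp only [DE]
  rw [show 2 * (θ + 2 * Real.pi) = 2 * θ + 2 * Real.pi + 2 * Real.pi by ring, Real.cos_add_two_pi,
    Real.cos_add_two_pi, Real.sin_add_two_pi, Real.sin_add_two_pi]

lemma hasDerivAt_yyθ (s : ℝ) (g : SL2) (θ : ℝ) :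
    HasDerivAt (fun θ => yy s (θ, g)) (Real.sinh s * DE θ g * yy s (θ, g) ^ 2) θ := by
  have h1 : HasDerivAt (fun θ => nn s (θ, g)) (-(Real.sinh s * DE θ g)) θ := by
    have h := ((hasDerivAt_DD g θ).const_mul (Real.sinh s)).const_sub (NN g * Real.cosh s)
    refine (h.congr_of_eventuallyEq (Eventually.of_forall fun s => ?_))
    simp only [nn_eq]
  have h := h1.inv (nn_pos s (θ, g)).ne'
  refine h.congr_deriv ?_
  unfold yy
  rw [inv_pow]; ring

lemma hasDerivAt_yyθ_pow (p : ℕ) (s : ℝ) (g : SL2) (θ : ℝ) :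
    HasDerivAt (fun θ => yy s (θ, g) ^ (p + 1))
      ((p + 1) * Real.sinh s * DE θ g * yy s (θ, g) ^ (p + 2)) θ := by
  have h := (hasDerivAt_yyθ s g θ).pow (p + 1)
  refine h.congr_deriv ?_
  rw [Nat.add_sub_cancel]; push_cast; ring

lemma yy_per (s : ℝ) (g : SL2) : Function.Periodic (fun θ => yy s (θ, g)) (2 * Real.pi) := by
  intro θ
  simp only [yy, nn, rot_two_pi]

lemma continuous_DDθ (g : SL2) : Continuous fun θ => DD θ g :=
  continuous_iff_continuousAt.mpr fun θ => (hasDerivAt_DD g θ).continuousAt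
lemma continuous_DEθ (g : SL2) : Continuous fun θ => DE θ g :=
  continuous_iff_continuousAt.mpr fun θ => (hasDerivAt_DE g θ).continuousAt
lemma continuous_yyθ (s : ℝ) (g : SL2) : Continuous fun θ => yy s (θ, g) :=
  continuous_iff_continuousAt.mpr fun θ => (hasDerivAt_yyθ s g θ).continuousAt

/-- The Darboux identity, averaged over the circle. -/
lemma darboux_avg (p : ℕ) (s : ℝ) (hs : s ≠ 0) (g : SL2) :
    ∫ θ, (k2 p s (θ, g) + Real.cosh s / Real.sinh s * k1 p s (θ, g) + kW p s (θ, g)) ∂nu = 0 := by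
  have hsh : Real.sinh s ≠ 0 := by rwa [Ne, Real.sinh_eq_zero]
  set f : ℝ → ℝ := fun θ => -(p / (4 * Real.sinh s)) * (yy s (θ, g) ^ (p + 1) * DE θ g) with hf
  have hd : ∀ θ, HasDerivAt f (k2 p s (θ, g) + Real.cosh s / Real.sinh s * k1 p s (θ, g)
      + kW p s (θ, g)) θ := by
    intro θ
    have h := ((hasDerivAt_yyθ_pow p s g θ).mul (hasDerivAt_DE g θ)).const_mul
      (-(p / (4 * Real.sinh s)))
    refine h.congr_deriv ?_
    have hy := nn_mul_yy s (θ, g)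
    have hn := nn_eq s (θ, g)
    have hD := DD_sq θ g
    have hch : Real.cosh s ^ 2 = Real.sinh s ^ 2 + 1 := Real.cosh_sq s
    unfold k2 k1 kW k0 nd
    simp only at hn hy ⊢
    have e1 : yy s (θ, g) ^ (p + 1) = yy s (θ, g) ^ p * yy s (θ, g) := pow_succ _ _
    have e2 : yy s (θ, g) ^ (p + 2) = yy s (θ, g) ^ p * yy s (θ, g) ^ 2 := pow_add _ _ _
    rw [e2, e1]
    generalize yy s (θ, g) = y at *
    generalize y ^ p = z at *
    generalize DD θ g = D at *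
    generalize DE θ g = E at *
    generalize NN g = N at *
    rw [hn] at hy
    generalize Real.sinh s = b at *
    generalize Real.cosh s = a at *
    obtain ⟨c, hc⟩ : ∃ c, c = b⁻¹ := ⟨_, rfl⟩
    have hcb : c * b = 1 := by rw [hc]; exact inv_mul_cancel₀ hsh
    have ec1 : (p : ℝ) / (4 * b) = p * c / 4 := by rw [hc]; field_simp
    have ec2 : a / b = a * c := by rw [hc]; rfl
    rw [ec1, ec2]
    have hE : E ^ 2 = 4 * (N ^ 2 - 4) - 4 * D ^ 2 := by linarith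
    have h1 : (N * b - a * D) ^ 2 = (N * a - b * D) ^ 2 - N ^ 2 + D ^ 2 := by
      linear_combination (D ^ 2 - N ^ 2) * hch
    have h2 : a * (N * b - a * D) = b * (N * a - b * D) - D := by
      linear_combination (-D) * hch
    linear_combination (-((p : ℝ) * (p + 1) / 4) * z * y ^ 2 * E ^ 2) * hcb
      + (-((p : ℝ) * (p + 1) / 4) * z * y ^ 2) * hE + (-((p : ℝ) * (p + 1)) * z * y ^ 2) * h1
      + (p * z * c * y) * h2
      + (-((p : ℝ) * (p + 1)) * z * ((N * a - b * D) * y + 1)) * hy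
      + (p * z * (N * a - b * D) * y) * hcb + (p * z) * hy
  apply nu_deriv f _ _ hd
  · have c1 := continuous_DDθ g
    have c2 := continuous_DEθ g
    have c3 := continuous_yyθ s g
    unfold k2 k1 kW k0 nd
    simp only
    fun_prop
  · intro θ
    simp only [hf]
    have h1 := yy_per s g θ
    have h2 := DE_per g θ
    simp only at h1 h2
    rw [h1, h2]

/-- First order behaviour at `0`. -/
lemma k1_zero_avg (p : ℕ) (g : SL2) : ∫ θ, k1 p 0 (θ, g) ∂nu = 0 := by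
  set f : ℝ → ℝ := fun θ => -(p / 4) * ((NN g)⁻¹) ^ (p + 1) * DE θ g with hf
  have hd : ∀ θ, HasDerivAt f (k1 p 0 (θ, g)) θ := by
    intro θ
    have h := (hasDerivAt_DE g θ).const_mul (-(p / 4) * ((NN g)⁻¹) ^ (p + 1))
    refine h.congr_deriv ?_
    unfold k1 nd yy
    rw [nn_eq]
    simp only [Real.sinh_zero, Real.cosh_zero, mul_one, zero_mul, sub_zero, mul_zero]
    ring
  apply nu_deriv f _ _ hd
  · unfold k1 nd
    have c1 := continuous_DDθ g
    have c3 := continuous_yyθ 0 g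
    simp only
    fun_prop
  · intro θ
    simp only [hf]
    have h2 := DE_per g θ
    simp only at h2
    rw [h2]

/-- Second order behaviour at `0`. -/
lemma k2_zero_avg (p : ℕ) (g : SL2) :
    ∫ θ, (k2 p 0 (θ, g) + 1 / 2 * kW p 0 (θ, g)) ∂nu = 0 := by
  set f : ℝ → ℝ := fun θ => -(p * (p + 1) / 8) * ((NN g)⁻¹) ^ (p + 2) * (DD θ g * DE θ g) with hf
  have hd : ∀ θ, HasDerivAt f (k2 p 0 (θ, g) + 1 / 2 * kW p 0 (θ, g)) θ := by
    intro θ
    have h := ((hasDerivAt_DD g θ).mul (hasDerivAt_DE g θ)).const_mul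
      (-(p * (p + 1) / 8) * ((NN g)⁻¹) ^ (p + 2))
    refine h.congr_deriv ?_
    have hD := DD_sq θ g
    have hy : (NN g)⁻¹ * NN g = 1 := inv_mul_cancel₀ (NN_pos g).ne'
    unfold k2 kW k0 nd yy
    rw [nn_eq]
    simp only [Real.sinh_zero, Real.cosh_zero, mul_one, zero_mul, sub_zero, mul_zero, one_mul,
      zero_sub]
    have e2 : (NN g)⁻¹ ^ (p + 2) = (NN g)⁻¹ ^ p * (NN g)⁻¹ ^ 2 := pow_add _ _ _
    rw [e2]
    generalize (NN g)⁻¹ = y at *
    generalize y ^ p = z at *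
    generalize DD θ g = D at *
    generalize DE θ g = E at *
    generalize NN g = N at *
    have hE : E ^ 2 = 4 * (N ^ 2 - 4) - 4 * D ^ 2 := by linarith
    linear_combination (-((p : ℝ) * (p + 1) / 8) * z * y ^ 2) * hE
      - ((p : ℝ) * (p + 1) / 2) * z * (y * N + 1) * hy
  apply nu_deriv f _ _ hd
  · have c1 := continuous_DDθ g
    have c2 := continuous_DEθ g
    have c3 := continuous_yyθ 0 g
    unfold k2 kW k0 nd
    simp only
    fun_prop
  · intro θ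
    simp only [hf]
    have h1 := DD_per g θ
    have h2 := DE_per g θ
    simp only at h1 h2
    rw [h1, h2]

end Pool.Agent.Helper31.ErgSL2
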