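import Pool.Agent.Helper31.ErgSL2.Coercive

/-!
# Exponential decay in `L²`
-/

set_option autoImplicit false
open MeasureTheory Filter Topology

namespace Pool.Agent.Helper31.ErgSL2

/-- The energy estimate. -/
lemma energy_decay {a b d q κ : ℝ → ℝ} {Λ : ℝ} (hΛ : 0 < Λ)
    (ha : ∀ s, 1 ≤ s → 0 ≤ a s) (hd : ∀ s, 1 ≤ s → 0 ≤ d s) (haq : ∀ s, 1 ≤ s → a s ≤ Λ * q s)
    (hb : ∀ s, 1 ≤ s → b s ^ 2 ≤ a s * d s)
    (hκ1 : ∀ s, 1 ≤ s → 1 ≤ κ s) (hκ2 : ∀ s, 1 ≤ s → κ s ≤ 2)
    (de : ∀ s, 1 ≤ s → HasDerivAt (fun s => d s + q s) (-(2 * κ s * d s)) s)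
    (db : ∀ s, 1 ≤ s → HasDerivAt b (d s - κ s * b s - q s) s) :
    ∀ s, 1 ≤ s → a s ≤ 4 * Λ * (d 1 + q 1) * Real.exp (-(1 / (16 * (1 + Λ))) * (s - 1)) := by
  set α : ℝ := 1 / (4 * (1 + Λ)) with hα
  set β : ℝ := 1 / (16 * (1 + Λ)) with hβ
  have hβα : β = α / 4 := by rw [hα, hβ]; field_simp; ring
  have hα0 : 0 < α := by rw [hα]; positivity
  have hβ0 : 0 < β := by rw [hβ]; positivity
  have hα1 : α ≤ 1 / 4 := by
    rw [hα, div_le_div_iff₀ (by positivity) (by positivity)]; linarith
  have hαΛ : α * Λ ≤ 1 / 4 := by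
    rw [hα, div_mul_eq_mul_div, div_le_div_iff₀ (by positivity) (by positivity)]; linarith
  set E : ℝ → ℝ := fun s => d s + q s + α * b s with hE
  have hq : ∀ s, 1 ≤ s → 0 ≤ q s := by
    intro s hs
    have h1 := ha s hs
    have h2 := haq s hs
    by_contra hneg
    push Not at hneg
    nlinarith
  -- bound on |b|
  have hbb : ∀ s, 1 ≤ s → α * (2 * |b s|) ≤ α / 2 * q s + 2 * (α * Λ) * d s := by
    intro s hs
    have h1 : 2 * |b s| ≤ 1 / (2 * Λ) * a s + 2 * Λ * d s := by
      have h2 : (2 * |b s|) ^ 2 ≤ (1 / (2 * Λ) * a s + 2 * Λ * d s) ^ 2 := by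
        rw [mul_pow, sq_abs]
        have h3 := hb s hs
        have h4 : (1 / (2 * Λ) * a s + 2 * Λ * d s) ^ 2
          = (1 / (2 * Λ) * a s - 2 * Λ * d s) ^ 2 + 4 * (a s * d s) := by field_simp; ring
        rw [h4]
        nlinarith [sq_nonneg (1 / (2 * Λ) * a s - 2 * Λ * d s)]
      have h5 : 0 ≤ 1 / (2 * Λ) * a s + 2 * Λ * d s := by
        have := ha s hs
        have := hd s hs
        positivity
      exact (abs_le_of_sq_le_sq' h2 h5).2
    have h6 : 1 / (2 * Λ) * a s ≤ 1 / 2 * q s := by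
      have h7 := haq s hs
      calc 1 / (2 * Λ) * a s ≤ 1 / (2 * Λ) * (Λ * q s) :=
            mul_le_mul_of_nonneg_left h7 (by positivity)
        _ = 1 / 2 * q s := by field_simp
    calc α * (2 * |b s|) ≤ α * (1 / 2 * q s + 2 * Λ * d s) :=
          mul_le_mul_of_nonneg_left (by linarith) hα0.le
      _ = _ := by ring
  have hElow : ∀ s, 1 ≤ s → 1 / 2 * q s ≤ E s := by
    intro s hs
    have h1 := hbb s hs
    have h2 := hd s hs
    have h3 := hq s hs
    have h4 := neg_abs_le (b s)
    have h5 : 2 * (α * Λ) * d s ≤ 1 / 2 * d s := by nlinarith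
    have h6 : α / 2 * q s ≤ 1 / 8 * q s := by nlinarith
    have h7 : -(α * |b s|) ≤ α * b s := by nlinarith
    simp only [hE]
    nlinarith
  have hEup : E 1 ≤ 2 * (d 1 + q 1) := by
    have h1 := hbb 1 le_rfl
    have h2 := hd 1 le_rfl
    have h3 := hq 1 le_rfl
    have h4 := le_abs_self (b 1)
    have h5 : 2 * (α * Λ) * d 1 ≤ 1 / 2 * d 1 := by nlinarith
    have h6 : α / 2 * q 1 ≤ 1 / 8 * q 1 := by nlinarith
    have h7 : α * b 1 ≤ α * |b 1| := by nlinarith
    simp only [hE]
    nlinarith
  have hEd : ∀ s, 1 ≤ s → HasDerivAt E (-(2 * κ s * d s) + α * (d s - κ s * b s - q s)) s := by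
    intro s hs
    exact (de s hs).add ((db s hs).const_mul α)
  have hineq : ∀ s, 1 ≤ s → -(2 * κ s * d s) + α * (d s - κ s * b s - q s) + β * E s ≤ 0 := by
    intro s hs
    have h1 := hbb s hs
    have h2 := hd s hs
    have h3 := hq s hs
    have k1 := hκ1 s hs
    have k2 := hκ2 s hs
    have h4 : -((α * κ s - β * α) * b s) ≤ α * (2 * |b s|) := by
      have h5 : |α * κ s - β * α| ≤ α * 2 := by
        rw [abs_le]
        have : β ≤ 1 := by rw [hβα]; linarith
        constructor
        · nlinarith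
        · nlinarith
      calc -((α * κ s - β * α) * b s) ≤ |(α * κ s - β * α) * b s| := neg_le_abs _
        _ = |α * κ s - β * α| * |b s| := abs_mul _ _
        _ ≤ α * 2 * |b s| := mul_le_mul_of_nonneg_right h5 (abs_nonneg _)
        _ = _ := by ring
    have h6 : -(2 * κ s * d s) ≤ -(2 * d s) := by nlinarith
    have h7 : 2 * (α * Λ) * d s ≤ 1 / 2 * d s := by nlinarith
    have h8 : -(2 * κ s * d s) + α * (d s - κ s * b s - q s) + β * E s
        = -(2 * κ s * d s) + (α + β) * d s - (α - β) * q s - (α * κ s - β * α) * b s := by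
      simp only [hE]; ring
    rw [h8, hβα]
    rw [hβα] at h4
    have h9 : (α + α / 4) * d s ≤ 1 / 2 * d s := by nlinarith
    have h10 : 0 ≤ α * q s := mul_nonneg hα0.le h3
    nlinarith
  have hanti : AntitoneOn (fun s => E s * Real.exp (β * s)) (Set.Ici 1) := by
    have hder : ∀ s, 1 ≤ s → HasDerivAt (fun s => E s * Real.exp (β * s))
        ((-(2 * κ s * d s) + α * (d s - κ s * b s - q s)) * Real.exp (β * s)
          + E s * (Real.exp (β * s) * β)) s := by
      intro s hs
      have h1 : HasDerivAt (fun s : ℝ => β * s) β s := by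
        simpa using (hasDerivAt_id s).const_mul β
      exact (hEd s hs).mul h1.exp
    apply antitoneOn_of_deriv_nonpos (convex_Ici 1)
    · intro s hs
      exact (hder s hs).continuousAt.continuousWithinAt
    · intro s hs
      rw [interior_Ici] at hs
      exact (hder s (le_of_lt hs)).differentiableAt.differentiableWithinAt
    · intro s hs
      rw [interior_Ici] at hs
      have hs' : 1 ≤ s := le_of_lt hs
      rw [(hder s hs').deriv]
      have h1 := hineq s hs'
      have h2 := Real.exp_pos (β * s)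
      have : (-(2 * κ s * d s) + α * (d s - κ s * b s - q s)) * Real.exp (β * s)
          + E s * (Real.exp (β * s) * β)
          = (-(2 * κ s * d s) + α * (d s - κ s * b s - q s) + β * E s) * Real.exp (β * s) := by
        ring
      rw [this]
      exact mul_nonpos_of_nonpos_of_nonneg h1 h2.le
  intro s hs
  have h1 := hanti (Set.mem_Ici.mpr le_rfl) (Set.mem_Ici.mpr hs) hs
  simp only at h1
  have h2 : E s ≤ E 1 * Real.exp (-β * (s - 1)) := by
    have h3 : Real.exp (-β * (s - 1)) = Real.exp (β * 1) * Real.exp (-(β * s)) := by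
      rw [← Real.exp_add]; congr 1; ring
    have h4 : Real.exp (β * s) * Real.exp (-(β * s)) = 1 := by rw [← Real.exp_add]; simp
    have h5 := Real.exp_pos (-(β * s))
    rw [h3]
    calc E s = E s * (Real.exp (β * s) * Real.exp (-(β * s))) := by rw [h4, mul_one]
      _ = (E s * Real.exp (β * s)) * Real.exp (-(β * s)) := by ring
      _ ≤ (E 1 * Real.exp (β * 1)) * Real.exp (-(β * s)) := mul_le_mul_of_nonneg_right h1 h5.le
      _ = _ := by ring
  have h3 := haq s hs
  have h4 := hElow s hs
  have h5 := Real.exp_pos (-β * (s - 1))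
  calc a s ≤ Λ * q s := h3
    _ ≤ Λ * (2 * E s) := mul_le_mul_of_nonneg_left (by linarith) hΛ.le
    _ ≤ Λ * (2 * (E 1 * Real.exp (-β * (s - 1)))) := by
        apply mul_le_mul_of_nonneg_left _ hΛ.le; linarith
    _ ≤ Λ * (2 * (2 * (d 1 + q 1) * Real.exp (-β * (s - 1)))) := by
        apply mul_le_mul_of_nonneg_left _ hΛ.le
        have := mul_le_mul_of_nonneg_right hEup h5.le
        linarith
    _ = _ := by ring

lemma coth_bounds (s : ℝ) (hs : 1 ≤ s) :
    1 ≤ Real.cosh s / Real.sinh s ∧ Real.cosh s / Real.sinh s ≤ 2 := by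
  have hsh : 0 < Real.sinh s := Real.sinh_pos_iff.mpr (by linarith)
  have e1 := Real.exp_pos s
  have e2 := Real.exp_pos (-s)
  have e3 : Real.exp s * Real.exp (-s) = 1 := by rw [← Real.exp_add]; simp
  have e4 : 2 ≤ Real.exp s := by
    have := Real.add_one_le_exp s; linarith
  constructor
  · rw [le_div_iff₀ hsh, Real.cosh_eq, Real.sinh_eq]; linarith
  · rw [div_le_iff₀ hsh, Real.cosh_eq, Real.sinh_eq]
    have : Real.exp (-s) ≤ 1 / 2 := by nlinarith
    linarith

variable [MeasurableSpace SL2] [BorelSpace SL2]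
variable {X : Type*} [MeasurableSpace X] [MulAction SL2 X] [MeasurableSMul₂ SL2 X]
variable (m : Measure SL2) [m.IsHaarMeasure]
variable (μ : Measure X) [IsProbabilityMeasure μ] [SMulInvariantMeasure SL2 X μ]

/-- derivative of `kW` -/
noncomputable def kW1 (p : ℕ) (s : ℝ) (q : ℝ × SL2) : ℝ :=
  4 * p * (p + 1) * k1 (p + 2) s q + (-(p * (p - 1))) * k1 p s q

omit [MeasurableSpace SL2] [BorelSpace SL2] in
lemma kW_deriv (p : ℕ) (s : ℝ) (q : ℝ × SL2) :
    HasDerivAt (fun s => kW p s q) (kW1 p s q) s :=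
  ((k0_deriv (p + 2) s q).const_mul _).add ((k0_deriv p s q).const_mul _)

omit [MeasurableSpace SL2] [BorelSpace SL2] in
lemma yy_le_half (s : ℝ) (q : ℝ × SL2) : yy s q ≤ 1 / 2 := by
  unfold yy
  rw [inv_eq_one_div, div_le_div_iff₀ (nn_pos s q) (by norm_num)]
  have := NN_ge_two (dia (-s) * rot q.1 * q.2)
  unfold nn
  linarith

omit [MeasurableSpace SL2] [BorelSpace SL2] in
lemma k0_add_two_le (p : ℕ) (s : ℝ) (q : ℝ × SL2) : k0 (p + 2) s q ≤ k0 p s q := by
  unfold k0
  rw [pow_add]
  have h1 := yy_le_half s q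
  have h2 := yy_pos s q
  have h3 : yy s q ^ 2 ≤ 1 := by nlinarith
  have h4 := pow_pos h2 p
  nlinarith

omit [MeasurableSpace SL2] [BorelSpace SL2] in
lemma kW_le (p : ℕ) (s : ℝ) (q : ℝ × SL2) :
    |kW p s q| ≤ (5 * (p + 2) ^ 3 : ℝ) * k0 p s q := by
  have h0 := k0_pos p s q
  have h2 := k0_pos (p + 2) s q
  have h3 := k0_add_two_le p s q
  have hp : (0 : ℝ) ≤ p := Nat.cast_nonneg p
  unfold kW
  refine (abs_add_le _ _).trans ?_
  rw [abs_mul (4 * (p : ℝ) * (p + 1)) _, abs_mul (-((p : ℝ) * (p - 1))) _, abs_neg, abs_of_pos h0,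
    abs_of_pos h2, abs_of_nonneg (by positivity : (0 : ℝ) ≤ 4 * p * (p + 1))]
  have h4 : |(p : ℝ) * (p - 1)| ≤ p * (p + 1) := by
    rw [abs_le]; constructor <;> nlinarith
  calc 4 * (p : ℝ) * (p + 1) * k0 (p + 2) s q + |(p : ℝ) * (p - 1)| * k0 p s q
      ≤ 4 * (p : ℝ) * (p + 1) * k0 p s q + p * (p + 1) * k0 p s q :=
        add_le_add (mul_le_mul_of_nonneg_left h3 (by positivity))
          (mul_le_mul_of_nonneg_right h4 h0.le)
    _ = (5 * (p * (p + 1))) * k0 p s q := by ring
    _ ≤ _ := by
        apply mul_le_mul_of_nonneg_right _ h0.le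
        nlinarith [mul_nonneg hp hp, mul_nonneg hp (mul_nonneg hp hp)]

omit [MeasurableSpace SL2] [BorelSpace SL2] in
lemma kW1_le (p : ℕ) (s : ℝ) (q : ℝ × SL2) :
    |kW1 p s q| ≤ (5 * (p + 2) ^ 3 : ℝ) * k0 p s q := by
  have h0 := k0_pos p s q
  have h3 := k0_add_two_le p s q
  have hp : (0 : ℝ) ≤ p := Nat.cast_nonneg p
  have h5 := k1_le (p + 2) s q
  have h6 := k1_le p s q
  push_cast at h5
  unfold kW1
  refine (abs_add_le _ _).trans ?_
  rw [abs_mul (4 * (p : ℝ) * (p + 1)) _, abs_mul (-((p : ℝ) * (p - 1))) _, abs_neg,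
    abs_of_nonneg (by positivity : (0 : ℝ) ≤ 4 * p * (p + 1))]
  have h4 : |(p : ℝ) * (p - 1)| ≤ p * (p + 1) := by
    rw [abs_le]; constructor <;> nlinarith
  have h7 : |k1 (p + 2) s q| ≤ (p + 2) * k0 p s q :=
    h5.trans (mul_le_mul_of_nonneg_left h3 (by positivity))
  calc 4 * (p : ℝ) * (p + 1) * |k1 (p + 2) s q| + |(p : ℝ) * (p - 1)| * |k1 p s q|
      ≤ 4 * (p : ℝ) * (p + 1) * ((p + 2) * k0 p s q) + p * (p + 1) * (p * k0 p s q) :=
        add_le_add (mul_le_mul_of_nonneg_left h7 (by positivity))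
          (mul_le_mul h4 h6 (abs_nonneg _) (by positivity))
    _ = (4 * p * (p + 1) * (p + 2) + p * (p + 1) * p) * k0 p s q := by ring
    _ ≤ _ := by
        apply mul_le_mul_of_nonneg_right _ h0.le
        nlinarith [mul_nonneg hp hp, mul_nonneg hp (mul_nonneg hp hp)]

lemma measurable_kW1 (p : ℕ) (s : ℝ) : Measurable (kW1 p s) := by
  unfold kW1
  exact ((measurable_k1 _ s).const_mul _).add ((measurable_k1 _ s).const_mul _)

lemma integrable_kW1 (p : ℕ) (hp : 2 ≤ p) (s : ℝ) : Integrable (kW1 p s) (nu.prod m) :=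
  ((integrable_k1 m (p + 2) (by omega) s).const_mul _).add
    ((integrable_k1 m p hp s).const_mul _)

lemma J_kW_deriv (p : ℕ) (hp : 2 ≤ p) {w : X → ℝ} (hw : BM w) (s : ℝ) (x : X) :
    HasDerivAt (fun s => J m (kW p s) w x) (J m (kW1 p s) w x) s :=
  J_hasDerivAt m p hp (by positivity) (measurable_kW p) (integrable_kW m p hp)
    (measurable_kW1 p) (kW_deriv p) (kW1_le p) hw s x

/-- The symmetric form. -/
lemma symm_form (p : ℕ) (hp : 2 ≤ p) {w : X → ℝ} (hw : BM w) (s t : ℝ) :
    ∫ x, J m (kW p s) w x * J m (k0 p t) w x ∂μ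
      = ∫ x, J m (kW p t) w x * J m (k0 p s) w x ∂μ := by
  have hv := v1_BM m p hp hw
  have hvK := v1_Kinv m p w
  have hF := T_BM m p hp hw
  have hFK := T_Kinv m p w
  have key : ∀ s t, ∫ x, J m (kW p s) w x * J m (k0 p t) w x ∂μ
      = ∫ x, S t (S s (v1 m p w)) x * T m p w x ∂μ := by
    intro s t
    rw [S_selfadj μ (S_BM hv s) (S_Kinv s _) hF hFK t]
    congr 1; funext x
    rw [J_kW_eq m p hp hw, J_k0_eq m p hp hw]
  rw [key s t, key t s]
  congr 1; funext x
  rw [S_comm hv hvK]

/-- `L²` decay for the smoothed averages. -/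
theorem decay (p : ℕ) (hp : 2 ≤ p) {R ε : ℝ} (hgap : Gap μ R ε) (hε : 0 < ε) :
    ∃ C β : ℝ, 0 < C ∧ 0 < β ∧ ∀ w : X → ℝ, BM w → ∫ x, w x ∂μ = 0 → ∀ s, 0 ≤ s →
      ∫ x, S s (T m p w) x ^ 2 ∂μ ≤ C * Real.exp (-β * s) * ∫ x, w x ^ 2 ∂μ := by
  have hZ := Zp_pos m p hp
  set Λ : ℝ := R ^ 2 / (2 * ε ^ 2) + 1 with hΛ
  have hΛ0 : 0 < Λ := by positivity
  set β : ℝ := 1 / (16 * (1 + Λ)) with hβ
  have hβ0 : 0 < β := by positivity
  set c : ℝ := 5 * (p + 2) ^ 3 with hc
  have hc0 : 1 ≤ c := by
    have hp' : (0 : ℝ) ≤ p := Nat.cast_nonneg p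
    rw [hc]
    nlinarith [mul_nonneg hp' hp', mul_nonneg hp' (mul_nonneg hp' hp')]
  refine ⟨(4 * Λ * (2 * (c * Zp m p) ^ 2) + (c * Zp m p) ^ 2) * Real.exp β, β, by positivity, hβ0, ?_⟩
  intro w hw hw0 s hs
  obtain ⟨Cw, hCw0, hCw⟩ := hw.bdd'
  set I := ∫ x, w x ^ 2 ∂μ with hI
  have hI0 : 0 ≤ I := integral_nonneg fun x => sq_nonneg _
  -- kernel bounds
  have hcp : (p : ℝ) * (p + 2) + 1 ≤ c := by
    have hp' : (0 : ℝ) ≤ p := Nat.cast_nonneg p
    rw [hc]
    nlinarith [mul_nonneg hp' hp', mul_nonneg hp' (mul_nonneg hp' hp')]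
  have hpc : (p : ℝ) ≤ c := by
    have hp' : (0 : ℝ) ≤ p := Nat.cast_nonneg p
    nlinarith [mul_nonneg hp' hp']
  have kb0 : ∀ s q, |k0 p s q| ≤ c * k0 p s q := by
    intro s q
    have := k0_pos p s q
    rw [abs_of_pos this]; nlinarith
  have kb1 : ∀ s q, |k1 p s q| ≤ c * k0 p s q := fun s q =>
    (k1_le p s q).trans (mul_le_mul_of_nonneg_right hpc (k0_pos p s q).le)
  have kb2 : ∀ s q, |k2 p s q| ≤ c * k0 p s q := fun s q =>
    (k2_le p s q).trans (mul_le_mul_of_nonneg_right (by linarith) (k0_pos p s q).le)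
  have bnd : ∀ (k : ℝ × SL2 → ℝ) (h : ℝ), Integrable k (nu.prod m) →
      (∀ q, |k q| ≤ c * k0 p h q) → ∀ x, |J m k w x| ≤ Cw * (c * Zp m p) := by
    intro k h hk hkb x
    refine (J_abs_le m hk hCw x).trans ?_
    exact mul_le_mul_of_nonneg_left (int_abs_le m p hp h hkb) hCw0
  have L2 : ∀ (k : ℝ × SL2 → ℝ) (h : ℝ), Measurable k → Integrable k (nu.prod m) →
      (∀ q, |k q| ≤ c * k0 p h q) → ∫ x, J m k w x ^ 2 ∂μ ≤ (c * Zp m p) ^ 2 * I := by
    intro k h hkm hk hkb
    refine (J_L2 m μ hw hkm hk).trans ?_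
    apply mul_le_mul_of_nonneg_right _ hI0
    exact pow_le_pow_left₀ (integral_nonneg fun q => abs_nonneg _) (int_abs_le m p hp h hkb) 2
  set a : ℝ → ℝ := fun s => ∫ x, J m (k0 p s) w x ^ 2 ∂μ with ha
  set b : ℝ → ℝ := fun s => ∫ x, J m (k0 p s) w x * J m (k1 p s) w x ∂μ with hb
  set d : ℝ → ℝ := fun s => ∫ x, J m (k1 p s) w x * J m (k1 p s) w x ∂μ with hd
  set q : ℝ → ℝ := fun s => ∫ x, J m (kW p s) w x * J m (k0 p s) w x ∂μ with hq
  have B0 : ∀ s, BM (J m (k0 p s) w) := fun s => J_BM m hw (measurable_k0 p s) (integrable_k0 m p hp s)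
  have B1 : ∀ s, BM (J m (k1 p s) w) := fun s => J_BM m hw (measurable_k1 p s) (integrable_k1 m p hp s)
  have B2 : ∀ s, BM (J m (k2 p s) w) := fun s => J_BM m hw (measurable_k2 p s) (integrable_k2 m p hp s)
  have BW : ∀ s, BM (J m (kW p s) w) := fun s => J_BM m hw (measurable_kW p s) (integrable_kW m p hp s)
  have BW1 : ∀ s, BM (J m (kW1 p s) w) := fun s =>
    J_BM m hw (measurable_kW1 p s) (integrable_kW1 m p hp s)
  have b0 := fun s x => bnd _ s (integrable_k0 m p hp s) (kb0 s) x
  have b1 := fun s x => bnd _ s (integrable_k1 m p hp s) (kb1 s) x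
  have b2 := fun s x => bnd _ s (integrable_k2 m p hp s) (kb2 s) x
  have bW := fun s x => bnd _ s (integrable_kW m p hp s) (kW_le p s) x
  have bW1 := fun s x => bnd _ s (integrable_kW1 m p hp s) (kW1_le p s) x
  have D0 := fun s x => J_k0_deriv m p hp hw s x
  have D1 := fun s x => J_k1_deriv m p hp hw s x
  have DW := fun s x => J_kW_deriv m p hp hw s x
  have hsq : ∀ s, a s = ∫ x, S s (T m p w) x ^ 2 ∂μ := by
    intro s
    simp only [ha]
    congr 1; funext x; rw [J_k0_eq m p hp hw]
  rcases le_or_gt 1 s with h1s | h1s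
  · -- apply the energy estimate
    have hmain := energy_decay (a := a) (b := b) (d := d) (q := q)
      (κ := fun s => Real.cosh s / Real.sinh s) hΛ0
      (fun s _ => integral_nonneg fun x => sq_nonneg _)
      (fun s _ => integral_nonneg fun x => mul_self_nonneg _)
      (fun s hs => by
        have h1 := coercive m μ p hp hw hw0 hgap hε s
        rw [← hsq] at h1
        have h2 : ∫ x, S s (v1 m p w) x * S s (T m p w) x ∂μ = q s := by
          simp only [hq]
          congr 1; funext x; rw [J_k0_eq m p hp hw, J_kW_eq m p hp hw]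
        rw [h2] at h1
        have h3 : 0 ≤ a s := integral_nonneg fun x => sq_nonneg _
        have h4 : 0 ≤ R ^ 2 / (2 * ε ^ 2) := by positivity
        have h5 : 0 ≤ q s := by
          rcases h4.eq_or_lt with h6 | h6
          · -- R = 0 : impossible since NN ≥ 2, but a = 0 and then q = 0
            rw [← h6, zero_mul] at h1
            have h7 : a s = 0 := le_antisymm h1 h3
            have h8 : (fun x => J m (k0 p s) w x ^ 2) =ᵐ[μ] 0 := by
              rw [← integral_eq_zero_iff_of_nonneg (fun x => sq_nonneg _)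
                ((B0 s).sq.integrable μ)]
              exact h7
            have h9 : (fun x => J m (kW p s) w x * J m (k0 p s) w x) =ᵐ[μ] 0 := by
              filter_upwards [h8] with x hx
              have : J m (k0 p s) w x = 0 := by simpa using hx
              simp [this]
            simp only [hq]
            rw [integral_congr_ae h9]; simp
          · by_contra hneg
            push Not at hneg
            nlinarith
        rw [hΛ]; nlinarith)
      (fun s _ => by
        have := cs_integral (η := μ) (φ := fun _ => (1:ℝ)) (f := fun x => J m (k0 p s) w x)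
          (fun _ => zero_le_one) (integrable_const _) (by simpa using (B0 s).integrable μ)
          (by simpa using (B0 s).sq.integrable μ)
        -- Cauchy-Schwarz for the product
        have cs : b s ^ 2 ≤ a s * d s := by
          have key : ∀ t : ℝ, 0 ≤ a s - 2 * t * b s + t ^ 2 * d s := by
            intro t
            have e : a s - 2 * t * b s + t ^ 2 * d s
                = ∫ x, (J m (k0 p s) w x - t * J m (k1 p s) w x) ^ 2 ∂μ := by
              simp only [ha, hb, hd]
              have j1 : BM (fun x => J m (k0 p s) w x ^ 2) := (B0 s).sq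
              have j2 : BM (fun x => 2 * t * (J m (k0 p s) w x * J m (k1 p s) w x)) :=
                ((B0 s).mul (B1 s)).const_mul _
              have j3 : BM (fun x => t ^ 2 * (J m (k1 p s) w x * J m (k1 p s) w x)) :=
                ((B1 s).mul (B1 s)).const_mul _
              have e1 : (fun x => (J m (k0 p s) w x - t * J m (k1 p s) w x) ^ 2) = fun x =>
                (J m (k0 p s) w x ^ 2 - 2 * t * (J m (k0 p s) w x * J m (k1 p s) w x))
                  + t ^ 2 * (J m (k1 p s) w x * J m (k1 p s) w x) := by funext x; ring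
              rw [e1, integral_add ((j1.sub j2).integrable μ) (j3.integrable μ),
                integral_sub (j1.integrable μ) (j2.integrable μ), integral_const_mul,
                integral_const_mul]
            rw [e]; exact integral_nonneg fun x => sq_nonneg _
          have hd0 : 0 ≤ d s := integral_nonneg fun x => mul_self_nonneg _
          have ha0 : 0 ≤ a s := integral_nonneg fun x => sq_nonneg _
          rcases hd0.eq_or_lt with h0 | h0
          · have hB : b s = 0 := by
              by_contra hne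
              have h1 := key ((a s + 1) / (2 * b s))
              rw [← h0] at h1
              have : 2 * ((a s + 1) / (2 * b s)) * b s = a s + 1 := by field_simp
              rw [this] at h1
              linarith
            rw [hB, ← h0]; simp
          · have h1 := key (b s / d s)
            have h2 : a s - 2 * (b s / d s) * b s + (b s / d s) ^ 2 * d s
                = a s - b s ^ 2 / d s := by field_simp; ring
            rw [h2, sub_nonneg, div_le_iff₀ h0] at h1
            exact h1
        exact cs)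
      (fun s hs => (coth_bounds s hs).1) (fun s hs => (coth_bounds s hs).2)
      (fun s hs => by
        have hs0 : s ≠ 0 := by linarith
        have e1 := deriv_int_mul μ (fun h => (B1 h).meas) (fun h => (B2 h).meas)
          (fun h => (B1 h).meas) (fun h => (B2 h).meas) b1 b2 b1 b2 D1 D1 s
        have e2 := deriv_int_mul μ (fun h => (BW h).meas) (fun h => (BW1 h).meas)
          (fun h => (B0 h).meas) (fun h => (B1 h).meas) bW bW1 b0 b1 DW D0 s
        refine (e1.add e2).congr_deriv ?_
        -- symmetric derivative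
        have hsym : ∫ x, J m (kW1 p s) w x * J m (k0 p s) w x ∂μ
            = ∫ x, J m (kW p s) w x * J m (k1 p s) w x ∂μ := by
          have f1 := deriv_int_mul μ (fun h => (BW h).meas) (fun h => (BW1 h).meas)
            (B := fun _ => J m (k0 p s) w) (B' := fun _ _ => 0)
            (fun _ => (B0 s).meas) (fun _ => measurable_const) bW bW1 (fun _ x => b0 s x)
            (fun _ x => by simpa using (abs_nonneg _).trans (b0 s x)) DW
            (fun h x => hasDerivAt_const _ _) s
          have f2 := deriv_int_mul μ (A := fun _ => J m (kW p s) w) (A' := fun _ _ => 0)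
            (fun _ => (BW s).meas) (fun _ => measurable_const)
            (fun h => (B0 h).meas) (fun h => (B1 h).meas) (fun _ x => bW s x)
            (fun _ x => by simpa using (abs_nonneg _).trans (bW s x)) b0 b1
            (fun h x => hasDerivAt_const _ _) D0 s
          have f3 : (fun t => ∫ x, J m (kW p t) w x * J m (k0 p s) w x ∂μ)
              = fun t => ∫ x, J m (kW p s) w x * J m (k0 p t) w x ∂μ := by
            funext t; exact symm_form m μ p hp hw t s
          rw [f3] at f1
          have := f1.unique f2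
          simpa using this
        rw [integral_add (((B2 s).mul (B1 s)).integrable μ) (((B1 s).mul (B2 s)).integrable μ),
          integral_add (((BW1 s).mul (B0 s)).integrable μ) (((BW s).mul (B1 s)).integrable μ), hsym]
        have e3 : ∫ x, J m (k2 p s) w x * J m (k1 p s) w x ∂μ
            = -(Real.cosh s / Real.sinh s * d s)
              - ∫ x, J m (kW p s) w x * J m (k1 p s) w x ∂μ := by
          have e4 : ∀ x, J m (k2 p s) w x * J m (k1 p s) w x =
              -(Real.cosh s / Real.sinh s) * (J m (k1 p s) w x * J m (k1 p s) w x)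
                - J m (kW p s) w x * J m (k1 p s) w x := by
            intro x; rw [J_darboux m p hp hw s hs0]; ring
          simp_rw [e4]
          rw [integral_sub ((((B1 s).mul (B1 s)).const_mul _).integrable μ)
            (((BW s).mul (B1 s)).integrable μ), integral_const_mul]
          simp only [hd]; ring
        have e5 : ∫ x, J m (k1 p s) w x * J m (k2 p s) w x ∂μ
            = ∫ x, J m (k2 p s) w x * J m (k1 p s) w x ∂μ := by
          congr 1; funext x; ring
        rw [e5, e3]
        ring)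
      (fun s hs => by
        have hs0 : s ≠ 0 := by linarith
        have e1 := deriv_int_mul μ (fun h => (B0 h).meas) (fun h => (B1 h).meas)
          (fun h => (B1 h).meas) (fun h => (B2 h).meas) b0 b1 b1 b2 D0 D1 s
        refine e1.congr_deriv ?_
        rw [integral_add (((B1 s).mul (B1 s)).integrable μ) (((B0 s).mul (B2 s)).integrable μ)]
        have e3 : ∫ x, J m (k0 p s) w x * J m (k2 p s) w x ∂μ
            = -(Real.cosh s / Real.sinh s * b s) - q s := by
          have e4 : ∀ x, J m (k0 p s) w x * J m (k2 p s) w x =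
              -(Real.cosh s / Real.sinh s) * (J m (k0 p s) w x * J m (k1 p s) w x)
                - J m (kW p s) w x * J m (k0 p s) w x := by
            intro x; rw [J_darboux m p hp hw s hs0]; ring
          simp_rw [e4]
          rw [integral_sub ((((B0 s).mul (B1 s)).const_mul _).integrable μ)
            (((BW s).mul (B0 s)).integrable μ), integral_const_mul]
          simp only [hb, hq]; ring
        rw [e3]
        simp only [hd]; ring)
      s h1s
    rw [← hsq]
    refine hmain.trans ?_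
    have hd1 : d 1 ≤ (c * Zp m p) ^ 2 * I := by
      have := L2 _ 1 (measurable_k1 p 1) (integrable_k1 m p hp 1) (kb1 1)
      refine le_trans (le_of_eq ?_) this
      simp only [hd]; congr 1; funext x; ring
    have hq1 : q 1 ≤ (c * Zp m p) ^ 2 * I := by
      have h1 := L2 _ 1 (measurable_kW p 1) (integrable_kW m p hp 1) (kW_le p 1)
      have h2 := L2 _ 1 (measurable_k0 p 1) (integrable_k0 m p hp 1) (kb0 1)
      have h3 : q 1 ≤ ∫ x, (1 / 2 * J m (kW p 1) w x ^ 2 + 1 / 2 * J m (k0 p 1) w x ^ 2) ∂μ := by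
        simp only [hq]
        apply integral_mono (((BW 1).mul (B0 1)).integrable μ)
          ((((BW 1).sq.const_mul _).add ((B0 1).sq.const_mul _)).integrable μ)
        intro x
        simp only
        nlinarith [sq_nonneg (J m (kW p 1) w x - J m (k0 p 1) w x)]
      rw [integral_add (((BW 1).sq.const_mul _).integrable μ)
        (((B0 1).sq.const_mul _).integrable μ), integral_const_mul, integral_const_mul] at h3
      linarith
    have e1 : -(1 / (16 * (1 + Λ))) * (s - 1) = β + -β * s := by rw [hβ]; ring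
    rw [e1, Real.exp_add]
    have h4 : 4 * Λ * (d 1 + q 1) ≤ (4 * Λ * (2 * (c * Zp m p) ^ 2) + (c * Zp m p) ^ 2) * I := by
      have : 4 * Λ * (d 1 + q 1) ≤ 4 * Λ * (2 * ((c * Zp m p) ^ 2 * I)) :=
        mul_le_mul_of_nonneg_left (by linarith) (by positivity)
      have h5 : 0 ≤ (c * Zp m p) ^ 2 * I := by positivity
      linarith
    have h6 : 0 < Real.exp β * Real.exp (-β * s) := by positivity
    calc 4 * Λ * (d 1 + q 1) * (Real.exp β * Real.exp (-β * s))
        ≤ ((4 * Λ * (2 * (c * Zp m p) ^ 2) + (c * Zp m p) ^ 2) * I)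
            * (Real.exp β * Real.exp (-β * s)) := mul_le_mul_of_nonneg_right h4 h6.le
      _ = _ := by ring
  · -- s < 1
    rw [← hsq]
    have h2 := L2 _ s (measurable_k0 p s) (integrable_k0 m p hp s) (kb0 s)
    refine h2.trans ?_
    have h3 : 1 ≤ Real.exp β * Real.exp (-β * s) := by
      rw [← Real.exp_add]
      apply Real.one_le_exp
      nlinarith
    have h4 : 0 ≤ (c * Zp m p) ^ 2 * I := by positivity
    have h5 : 0 ≤ 4 * Λ * (2 * (c * Zp m p) ^ 2) * I := by positivity
    calc (c * Zp m p) ^ 2 * I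
        ≤ (4 * Λ * (2 * (c * Zp m p) ^ 2) + (c * Zp m p) ^ 2) * I := by linarith
      _ = (4 * Λ * (2 * (c * Zp m p) ^ 2) + (c * Zp m p) ^ 2) * I * 1 := by ring
      _ ≤ (4 * Λ * (2 * (c * Zp m p) ^ 2) + (c * Zp m p) ^ 2) * I
            * (Real.exp β * Real.exp (-β * s)) :=
          mul_le_mul_of_nonneg_left h3 (by positivity)
      _ = _ := by ring

end Pool.Agent.Helper31.ErgSL2
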