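import Pool.Agent.Helper31.ErgSL2.Darboux

/-!
# Differentiation of the kernel operators
-/

set_option autoImplicit false
open MeasureTheory Filter Topology

namespace Pool.Agent.Helper31.ErgSL2

variable [MeasurableSpace SL2] [BorelSpace SL2]
variable {X : Type*} [MeasurableSpace X] [MulAction SL2 X] [MeasurableSMul₂ SL2 X]
variable (m : Measure SL2) [m.IsHaarMeasure]

lemma measurable_nn (s : ℝ) : Measurable (nn s) := by
  have : nn s = fun q => NN q.2 * Real.cosh s - Real.sinh s * DD q.1 q.2 := by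
    funext q; exact nn_eq s q
  rw [this]
  exact ((measurable_NN.comp measurable_snd).mul_const _).sub (continuous_DD.measurable.const_mul _)

lemma measurable_nd (s : ℝ) : Measurable (nd s) := by
  unfold nd
  exact ((measurable_NN.comp measurable_snd).mul_const _).sub (continuous_DD.measurable.const_mul _)

lemma measurable_yy (s : ℝ) : Measurable (yy s) := (measurable_nn s).inv

lemma measurable_k0 (p : ℕ) (s : ℝ) : Measurable (k0 p s) := (measurable_yy s).pow_const p

lemma measurable_k1 (p : ℕ) (s : ℝ) : Measurable (k1 p s) := by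
  unfold k1
  exact (((measurable_nd s).const_mul _).mul ((measurable_yy s).pow_const _)).neg

lemma measurable_k2 (p : ℕ) (s : ℝ) : Measurable (k2 p s) := by
  unfold k2
  exact (((measurable_yy s).pow_const _).const_mul _).neg.add
    ((((measurable_nd s).pow_const 2).const_mul _).mul ((measurable_yy s).pow_const _))

lemma measurable_kW (p : ℕ) (s : ℝ) : Measurable (kW p s) := by
  unfold kW
  exact ((measurable_k0 _ s).const_mul _).add ((measurable_k0 _ s).const_mul _)

omit [MeasurableSpace SL2] [BorelSpace SL2] in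
lemma k0_eq (p : ℕ) (s : ℝ) (q : ℝ × SL2) : k0 p s q = kp p (dia (-s) * rot q.1 * q.2) := rfl

lemma integrable_k0 (p : ℕ) (hp : 2 ≤ p) (s : ℝ) : Integrable (k0 p s) (nu.prod m) := by
  rw [integrable_prod_iff (measurable_k0 p s).aestronglyMeasurable]
  constructor
  · refine Eventually.of_forall fun θ => ?_
    exact (integrable_kp m p hp).comp_mul_left (dia (-s) * rot θ)
  · have : ∀ θ, ∫ g, ‖k0 p s (θ, g)‖ ∂m = Zp m p := by
      intro θ
      have : ∀ g, ‖k0 p s (θ, g)‖ = kp p (dia (-s) * rot θ * g) := by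
        intro g; rw [Real.norm_of_nonneg (k0_pos p s _).le, k0_eq]
      simp_rw [this]
      exact integral_mul_left_eq_self (kp p) _
    simp_rw [this]
    exact integrable_const _

lemma integral_k0 (p : ℕ) (hp : 2 ≤ p) (s : ℝ) : ∫ q, k0 p s q ∂(nu.prod m) = Zp m p := by
  rw [integral_prod _ (integrable_k0 m p hp s)]
  have : ∀ θ, ∫ g, k0 p s (θ, g) ∂m = Zp m p := by
    intro θ
    simp_rw [k0_eq]
    exact integral_mul_left_eq_self (kp p) _
  simp_rw [this]
  simp

lemma integrable_k1 (p : ℕ) (hp : 2 ≤ p) (s : ℝ) : Integrable (k1 p s) (nu.prod m) :=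
  ((integrable_k0 m p hp s).const_mul (p : ℝ)).mono' (measurable_k1 p s).aestronglyMeasurable
    (Eventually.of_forall fun q => k1_le p s q)

lemma integrable_k2 (p : ℕ) (hp : 2 ≤ p) (s : ℝ) : Integrable (k2 p s) (nu.prod m) :=
  ((integrable_k0 m p hp s).const_mul ((p : ℝ) * (p + 2))).mono'
    (measurable_k2 p s).aestronglyMeasurable (Eventually.of_forall fun q => k2_le p s q)

lemma integrable_kW (p : ℕ) (hp : 2 ≤ p) (s : ℝ) : Integrable (kW p s) (nu.prod m) :=
  ((integrable_k0 m (p + 2) (by omega) s).const_mul _).add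
    ((integrable_k0 m p hp s).const_mul _)

lemma int_abs_k0 (p : ℕ) (hp : 2 ≤ p) (s : ℝ) : ∫ q, |k0 p s q| ∂(nu.prod m) = Zp m p := by
  rw [← integral_k0 m p hp s]
  congr 1; funext q; exact abs_of_pos (k0_pos p s q)

lemma int_abs_le (p : ℕ) (hp : 2 ≤ p) (s : ℝ) {k : ℝ × SL2 → ℝ} {c : ℝ}
    (h : ∀ q, |k q| ≤ c * k0 p s q) : ∫ q, |k q| ∂(nu.prod m) ≤ c * Zp m p := by
  rw [← integral_k0 m p hp s, ← integral_const_mul]
  apply integral_mono_of_nonneg (Eventually.of_forall fun q => abs_nonneg _)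
    ((integrable_k0 m p hp s).const_mul c) (Eventually.of_forall h)

omit [MeasurableSpace SL2] [BorelSpace SL2] in
lemma k0_le (p : ℕ) (s : ℝ) (q : ℝ × SL2) : k0 p s q ≤ (2 * Real.cosh s) ^ p * kp p q.2 := by
  have h : NN q.2 ≤ 2 * Real.cosh s * nn s q := by
    have h1 : q.2 = (dia (-s) * rot q.1)⁻¹ * (dia (-s) * rot q.1 * q.2) := by group
    have h2 := NN_mul_le (dia (-s) * rot q.1)⁻¹ (dia (-s) * rot q.1 * q.2)
    rw [← h1, NN_inv, NN_mul_rot, NN_dia, Real.cosh_neg] at h2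
    exact h2
  have h3 : yy s q ≤ (2 * Real.cosh s) * (NN q.2)⁻¹ := by
    unfold yy
    have h4 := nn_pos s q
    have h5 := NN_pos q.2
    rw [← div_eq_mul_inv, inv_eq_one_div, div_le_div_iff₀ h4 h5]
    linarith
  unfold k0 kp
  rw [← mul_pow]
  exact pow_le_pow_left₀ (yy_pos s q).le h3 p

lemma integrable_kp_snd (p : ℕ) (hp : 2 ≤ p) :
    Integrable (fun q : ℝ × SL2 => kp p q.2) (nu.prod m) :=
  (integrable_kp m p hp).comp_snd nu

/-- Differentiation under the integral sign. -/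
lemma J_hasDerivAt (p : ℕ) (hp : 2 ≤ p) {k k' : ℝ → ℝ × SL2 → ℝ} {c : ℝ} (hc : 0 ≤ c)
    (hk : ∀ s, Measurable (k s)) (hki : ∀ s, Integrable (k s) (nu.prod m))
    (hk' : ∀ s, Measurable (k' s))
    (hd : ∀ s q, HasDerivAt (fun s => k s q) (k' s q) s)
    (hb : ∀ s q, |k' s q| ≤ c * k0 p s q) {w : X → ℝ} (hw : BM w) (s : ℝ) (x : X) :
    HasDerivAt (fun s => J m (k s) w x) (J m (k' s) w x) s := by
  obtain ⟨C, hC0, hC⟩ := hw.bdd'
  have hwm : Measurable (fun q : ℝ × SL2 => w (q.2⁻¹ • x)) :=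
    (meas_inv_smul' hw.meas x).comp measurable_snd
  have := hasDerivAt_integral_of_dominated_loc_of_deriv_le (μ := nu.prod m)
    (F := fun s q => k s q * w (q.2⁻¹ • x)) (F' := fun s q => k' s q * w (q.2⁻¹ • x))
    (x₀ := s) (s := Metric.ball s 1)
    (bound := fun q => c * ((2 * Real.cosh (|s| + 1)) ^ p * kp p q.2) * C)
    (Metric.ball_mem_nhds s one_pos)
    (Eventually.of_forall fun s' => ((hk s').mul hwm).aestronglyMeasurable)
    (int_J m hw (hki s) x)
    ((hk' s).mul hwm).aestronglyMeasurable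
    (Eventually.of_forall fun q s' hs' => ?_)
    ((((integrable_kp_snd m p hp).const_mul _).const_mul c).mul_const C)
    (Eventually.of_forall fun q s' hs' => (hd s' q).mul_const _)
  · exact this.2
  · rw [Real.norm_eq_abs, abs_mul]
    have h1 : |s'| ≤ |s| + 1 := by
      rw [Metric.mem_ball, Real.dist_eq] at hs'
      have := abs_add_le (s' - s) s
      rw [sub_add_cancel] at this
      linarith
    have h2 : Real.cosh s' ≤ Real.cosh (|s| + 1) := by
      rw [Real.cosh_le_cosh]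
      rw [abs_of_nonneg (by positivity : (0 : ℝ) ≤ |s| + 1)]
      exact h1
    have h3 : k0 p s' q ≤ (2 * Real.cosh (|s| + 1)) ^ p * kp p q.2 := by
      refine (k0_le p s' q).trans ?_
      apply mul_le_mul_of_nonneg_right _ (kp_pos p q.2).le
      apply pow_le_pow_left₀ (by have := Real.cosh_pos s'; positivity)
      linarith
    have h4 : |k' s' q| ≤ c * ((2 * Real.cosh (|s| + 1)) ^ p * kp p q.2) :=
      (hb s' q).trans (mul_le_mul_of_nonneg_left h3 hc)
    exact mul_le_mul h4 (hC _) (abs_nonneg _) ((abs_nonneg _).trans h4)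

lemma J_k0_deriv (p : ℕ) (hp : 2 ≤ p) {w : X → ℝ} (hw : BM w) (s : ℝ) (x : X) :
    HasDerivAt (fun s => J m (k0 p s) w x) (J m (k1 p s) w x) s :=
  J_hasDerivAt m p hp (Nat.cast_nonneg p) (measurable_k0 p) (integrable_k0 m p hp)
    (measurable_k1 p) (k0_deriv p) (k1_le p) hw s x

lemma J_k1_deriv (p : ℕ) (hp : 2 ≤ p) {w : X → ℝ} (hw : BM w) (s : ℝ) (x : X) :
    HasDerivAt (fun s => J m (k1 p s) w x) (J m (k2 p s) w x) s :=
  J_hasDerivAt m p hp (by positivity) (measurable_k1 p) (integrable_k1 m p hp)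
    (measurable_k2 p) (k1_deriv p) (k2_le p) hw s x

lemma T_bound (p : ℕ) (hp : 2 ≤ p) {w : X → ℝ} {C : ℝ} (hC : ∀ x, |w x| ≤ C) (x : X) :
    |T m p w x| ≤ C * Zp m p := by
  have h := norm_integral_le_of_norm_le (μ := m) (f := fun g => kp p g * w (g⁻¹ • x))
    (g := fun g => C * kp p g) ((integrable_kp m p hp).const_mul C)
    (Eventually.of_forall fun q => by
      rw [Real.norm_eq_abs, abs_mul, mul_comm, abs_of_pos (kp_pos p q)]
      exact mul_le_mul_of_nonneg_right (hC _) (kp_pos p q).le)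
  rwa [integral_const_mul, Real.norm_eq_abs] at h

lemma T_meas (p : ℕ) {w : X → ℝ} (hw : Measurable w) : Measurable (T m p w) := by
  have : Measurable (fun z : X × SL2 => kp p z.2 * w (z.2⁻¹ • z.1)) :=
    ((measurable_kp p).comp measurable_snd).mul (meas_inv_smul hw)
  exact (this.stronglyMeasurable.integral_prod_right' (ν := m)).measurable

lemma T_BM (p : ℕ) (hp : 2 ≤ p) {w : X → ℝ} (hw : BM w) : BM (T m p w) := by
  obtain ⟨C, hC⟩ := hw.bdd
  exact ⟨T_meas m p hw.meas, _, T_bound m p hp hC⟩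

/-- Translation of `T`. -/
lemma T_smul (p : ℕ) (w : X → ℝ) (h : SL2) (x : X) :
    T m p w (h • x) = ∫ g, kp p (h * g) * w (g⁻¹ • x) ∂m := by
  unfold T
  rw [← integral_mul_left_eq_self (fun g => kp p g * w (g⁻¹ • h • x)) h]
  congr 1; funext g
  rw [smul_smul, mul_inv_rev, mul_assoc, inv_mul_cancel, mul_one]

lemma T_Kinv (p : ℕ) (w : X → ℝ) : Kinv (T m p w) := by
  intro θ x
  rw [T_smul]
  unfold T kp
  simp_rw [NN_rot_mul]

lemma J_k0_eq (p : ℕ) (hp : 2 ≤ p) {w : X → ℝ} (hw : BM w) (s : ℝ) (x : X) :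
    J m (k0 p s) w x = S s (T m p w) x := by
  unfold J S
  rw [integral_prod _ (int_J m hw (integrable_k0 m p hp s) x)]
  congr 1; funext θ
  rw [T_smul]
  rfl

/-- Kernels with vanishing circle average act trivially. -/
lemma J_eq_zero {k : ℝ × SL2 → ℝ} (hk : Integrable k (nu.prod m))
    (h0 : ∀ g, ∫ θ, k (θ, g) ∂nu = 0) {w : X → ℝ} (hw : BM w) (x : X) : J m k w x = 0 := by
  unfold J
  rw [integral_prod_symm _ (int_J m hw hk x)]
  have : ∀ g : SL2, ∫ θ, k (θ, g) * w (((θ, g) : ℝ × SL2).2⁻¹ • x) ∂nu = 0 := by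
    intro g
    simp only
    rw [integral_mul_const, h0, zero_mul]
  simp only at this
  simp_rw [this]
  simp

lemma J_darboux (p : ℕ) (hp : 2 ≤ p) {w : X → ℝ} (hw : BM w) (s : ℝ) (hs : s ≠ 0) (x : X) :
    J m (k2 p s) w x = -(Real.cosh s / Real.sinh s * J m (k1 p s) w x) - J m (kW p s) w x := by
  have i1 := integrable_k1 m p hp s
  have i2 := integrable_k2 m p hp s
  have i3 := integrable_kW m p hp s
  have i4 : Integrable (fun q => Real.cosh s / Real.sinh s * k1 p s q) (nu.prod m) :=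
    i1.const_mul _
  have i5 : Integrable (fun q => k2 p s q + Real.cosh s / Real.sinh s * k1 p s q)
    (nu.prod m) := i2.add i4
  have h := J_eq_zero m (i5.add i3) (darboux_avg p s hs) hw x
  have h2 := J_add m hw i5 i3 x
  have h3 := J_add m hw i2 i4 x
  have h4 := J_smul m (Real.cosh s / Real.sinh s) (k1 p s) w x
  have h5 : J m ((fun q => k2 p s q + Real.cosh s / Real.sinh s * k1 p s q) + kW p s) w x
    = J m (fun q => (k2 p s q + Real.cosh s / Real.sinh s * k1 p s q) + kW p s q) w x := rfl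
  rw [h5, h2, h3, h4] at h
  linarith

lemma J_k1_zero (p : ℕ) (hp : 2 ≤ p) {w : X → ℝ} (hw : BM w) (x : X) :
    J m (k1 p 0) w x = 0 :=
  J_eq_zero m (integrable_k1 m p hp 0) (k1_zero_avg p) hw x

lemma J_k2_zero (p : ℕ) (hp : 2 ≤ p) {w : X → ℝ} (hw : BM w) (x : X) :
    J m (k2 p 0) w x = -(1 / 2 * J m (kW p 0) w x) := by
  have i2 := integrable_k2 m p hp 0
  have i3 : Integrable (fun q => 1 / 2 * kW p 0 q) (nu.prod m) :=
    (integrable_kW m p hp 0).const_mul _
  have h := J_eq_zero m (k := fun q => k2 p 0 q + 1 / 2 * kW p 0 q) (i2.add i3)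
    (k2_zero_avg p) hw x
  rw [J_add m hw i2 i3 x, J_smul] at h
  linarith

/-- The function `v₁`. -/
noncomputable def v1 (p : ℕ) (w : X → ℝ) (x : X) : ℝ :=
  4 * p * (p + 1) * T m (p + 2) w x + (-(p * (p - 1))) * T m p w x

lemma v1_BM (p : ℕ) (hp : 2 ≤ p) {w : X → ℝ} (hw : BM w) : BM (v1 m p w) :=
  ((T_BM m (p + 2) (by omega) hw).const_mul _).add ((T_BM m p hp hw).const_mul _)

lemma v1_Kinv (p : ℕ) (w : X → ℝ) : Kinv (v1 m p w) := by
  intro θ x
  unfold v1
  rw [T_Kinv, T_Kinv]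

lemma J_kW_eq (p : ℕ) (hp : 2 ≤ p) {w : X → ℝ} (hw : BM w) (s : ℝ) (x : X) :
    J m (kW p s) w x = S s (v1 m p w) x := by
  have i1 := (integrable_k0 m (p + 2) (by omega) s).const_mul (4 * p * (p + 1) : ℝ)
  have i2 := (integrable_k0 m p hp s).const_mul (-(p * (p - 1)) : ℝ)
  have h := J_add m hw i1 i2 x
  have e : J m (kW p s) w x = J m (fun q => 4 * p * (p + 1) * k0 (p + 2) s q +
    (-(p * (p - 1))) * k0 p s q) w x := rfl
  rw [e, h, J_smul, J_smul, J_k0_eq m (p + 2) (by omega) hw, J_k0_eq m p hp hw]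
  unfold v1
  rw [S_add ((T_BM m (p + 2) (by omega) hw).const_mul _) ((T_BM m p hp hw).const_mul _),
    S_const_mul, S_const_mul]

end Pool.Agent.Helper31.ErgSL2
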