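import Pool.Agent.Helper31.ErgSL2.Approx

/-!
# The `L¹` ergodic theorem
-/

set_option autoImplicit false
open MeasureTheory Filter Topology

namespace Pool.Agent.Helper31.ErgSL2

variable [MeasurableSpace SL2] [BorelSpace SL2]
variable {X : Type*} [MeasurableSpace X] [MulAction SL2 X] [MeasurableSMul₂ SL2 X]
variable (m : Measure SL2) [m.IsHaarMeasure]

/-- Truncation of a nonnegative function. -/
def tr (h : X → ℝ) (k : ℕ) (x : X) : ℝ := min (h x) k

omit [MulAction SL2 X] [MeasurableSpace SL2] [BorelSpace SL2] [MeasurableSMul₂ SL2 X] in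
lemma tr_BM {h : X → ℝ} (hm : Measurable h) (h0 : ∀ x, 0 ≤ h x) (k : ℕ) : BM (tr h k) := by
  refine ⟨hm.min measurable_const, k, fun x => ?_⟩
  unfold tr
  rw [abs_of_nonneg (le_min (h0 x) (Nat.cast_nonneg k))]
  exact min_le_right _ _

omit [MulAction SL2 X] [MeasurableSpace SL2] [BorelSpace SL2] [MeasurableSMul₂ SL2 X]
  [MeasurableSpace X] in
lemma tr_nonneg {h : X → ℝ} (h0 : ∀ x, 0 ≤ h x) (k : ℕ) (x : X) : 0 ≤ tr h k x :=
  le_min (h0 x) (Nat.cast_nonneg k)

/-- The exceptional set of the maximal function. -/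
def Bad (lam : ℝ) (h : X → ℝ) : Set X := {x | ∃ R : ℝ, 4 ≤ R ∧ ∃ k : ℕ, lam < BA m R (tr h k) x}

lemma ball_int {f : X → ℝ} (hf : BM f) (R : ℝ) (x : X) :
    Integrable (fun g : SL2 => f (g⁻¹ • x)) (m.restrict {g : SL2 | NN g < R}) := by
  obtain ⟨C, hC⟩ := hf.bdd
  exact Integrable.of_bound (meas_inv_smul' hf.meas x).aestronglyMeasurable C
    (Eventually.of_forall fun g => hC _)

lemma BA_mono {f f' : X → ℝ} (hf : BM f) (hf' : BM f') (h : ∀ x, f x ≤ f' x) (R : ℝ) (x : X) :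
    BA m R f x ≤ BA m R f' x := by
  unfold BA
  apply mul_le_mul_of_nonneg_left _ (inv_nonneg.mpr ENNReal.toReal_nonneg)
  exact integral_mono (ball_int m hf R x) (ball_int m hf' R x) fun g => h _

/-- Outside of the exceptional set the ball averages of `h` are finite and bounded. -/
lemma good_bound {lam : ℝ} (hlam : 0 ≤ lam) {h : X → ℝ} (hm : Measurable h) (h0 : ∀ x, 0 ≤ h x)
    {x : X} (hx : x ∉ Bad m lam h) {R : ℝ} (hR : 4 ≤ R) :
    Integrable (fun g : SL2 => h (g⁻¹ • x)) (m.restrict {g : SL2 | NN g < R}) ∧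
      BA m R h x ≤ lam := by
  have hvc := vc_pos m
  have hpos : 0 < vc m * (R - 2) := mul_pos hvc (by linarith)
  have hb : ∀ k : ℕ, ∫ g in {g : SL2 | NN g < R}, tr h k (g⁻¹ • x) ∂m
      ≤ lam * (vc m * (R - 2)) := by
    intro k
    by_contra hneg
    push Not at hneg
    apply hx
    refine ⟨R, hR, k, ?_⟩
    unfold BA
    rw [vol_toReal m (by linarith), lt_inv_mul_iff₀ hpos]
    linarith
  have hmx : Measurable (fun g : SL2 => h (g⁻¹ • x)) := meas_inv_smul' hm x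
  have hsup : ∀ y, ENNReal.ofReal (h y) = ⨆ k : ℕ, ENNReal.ofReal (tr h k y) := by
    intro y
    apply le_antisymm
    · obtain ⟨k, hk⟩ := exists_nat_ge (h y)
      refine le_trans (le_of_eq ?_) (le_iSup _ k)
      unfold tr; rw [min_eq_left hk]
    · apply iSup_le
      intro k
      exact ENNReal.ofReal_le_ofReal (min_le_left _ _)
  have hL : ∫⁻ g in {g : SL2 | NN g < R}, ENNReal.ofReal (h (g⁻¹ • x)) ∂m
      ≤ ENNReal.ofReal (lam * (vc m * (R - 2))) := by
    simp_rw [hsup]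
    rw [lintegral_iSup]
    · apply iSup_le
      intro k
      rw [← ofReal_integral_eq_lintegral_ofReal (ball_int m (tr_BM hm h0 k) R x)
        (Eventually.of_forall fun g => tr_nonneg h0 k _)]
      exact ENNReal.ofReal_le_ofReal (hb k)
    · intro k
      exact (meas_inv_smul' (tr_BM hm h0 k).meas x).ennreal_ofReal
    · intro i j hij g
      apply ENNReal.ofReal_le_ofReal
      unfold tr
      exact min_le_min_left _ (by exact_mod_cast hij)
  have hint : Integrable (fun g : SL2 => h (g⁻¹ • x)) (m.restrict {g : SL2 | NN g < R}) := by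
    refine ⟨hmx.aestronglyMeasurable, ?_⟩
    rw [hasFiniteIntegral_iff_ofReal (Eventually.of_forall fun g => h0 _)]
    exact hL.trans_lt ENNReal.ofReal_lt_top
  refine ⟨hint, ?_⟩
  unfold BA
  rw [vol_toReal m (by linarith), inv_mul_le_iff₀ hpos]
  rw [← ofReal_integral_eq_lintegral_ofReal hint (Eventually.of_forall fun g => h0 _)] at hL
  rw [ENNReal.ofReal_le_ofReal_iff (by positivity)] at hL
  linarith

variable (μ : Measure X) [IsProbabilityMeasure μ] [SMulInvariantMeasure SL2 X μ]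

/-- The weak type inequality for integrable functions. -/
lemma bad_measure {C : ℝ} (hC : 0 < C) (hw : ∀ f : X → ℝ, BM f → (∀ x, 0 ≤ f x) → ∀ lam : ℝ,
    0 < lam → μ {x | ∃ R : ℝ, 4 ≤ R ∧ lam < BA m R f x}
      ≤ ENNReal.ofReal (C * (∫ x, f x ∂μ) / lam)) {lam : ℝ} (hlam : 0 < lam) {h : X → ℝ}
    (hm : Measurable h) (h0 : ∀ x, 0 ≤ h x) (hi : Integrable h μ) :
    μ (Bad m lam h) ≤ ENNReal.ofReal (C * (∫ x, h x ∂μ) / lam) := by
  have hU : Bad m lam h = ⋃ k : ℕ, {x | ∃ R : ℝ, 4 ≤ R ∧ lam < BA m R (tr h k) x} := by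
    ext x
    simp only [Bad, Set.mem_ofPred_eq, Set.mem_iUnion]
    constructor
    · rintro ⟨R, hR, k, hk⟩; exact ⟨k, R, hR, hk⟩
    · rintro ⟨k, R, hR, hk⟩; exact ⟨R, hR, k, hk⟩
  have hmono : Monotone fun k : ℕ => {x | ∃ R : ℝ, 4 ≤ R ∧ lam < BA m R (tr h k) x} := by
    intro i j hij x hx
    obtain ⟨R, hR, hk⟩ := hx
    refine ⟨R, hR, hk.trans_le ?_⟩
    apply BA_mono m (tr_BM hm h0 i) (tr_BM hm h0 j)
    intro y
    exact min_le_min_left _ (by exact_mod_cast hij)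
  rw [hU, hmono.measure_iUnion]
  apply iSup_le
  intro k
  refine (hw _ (tr_BM hm h0 k) (tr_nonneg h0 k) lam hlam).trans ?_
  apply ENNReal.ofReal_le_ofReal
  have : ∫ x, tr h k x ∂μ ≤ ∫ x, h x ∂μ :=
    integral_mono ((tr_BM hm h0 k).integrable μ) hi fun x => min_le_left _ _
  gcongr

/-- The remainder after truncation. -/
def rem (f : X → ℝ) (k : ℕ) (x : X) : ℝ := max (|f x| - k) 0

/-- The two-sided truncation. -/
def tt (f : X → ℝ) (k : ℕ) (x : X) : ℝ := max (-(k : ℝ)) (min k (f x))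

omit [MulAction SL2 X] [MeasurableSpace SL2] [BorelSpace SL2] [MeasurableSMul₂ SL2 X]
  [MeasurableSpace X] in
lemma tt_sub (f : X → ℝ) (k : ℕ) (x : X) : |f x - tt f k x| = rem f k x := by
  have hk : (0 : ℝ) ≤ k := Nat.cast_nonneg k
  unfold tt rem
  rcases le_or_gt (f x) k with h1 | h1
  · rw [min_eq_right h1]
    rcases le_or_gt (-(k : ℝ)) (f x) with h2 | h2
    · rw [max_eq_right h2, sub_self, abs_zero, max_eq_right]
      rw [sub_nonpos, abs_le]; exact ⟨h2, h1⟩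
    · rw [max_eq_left h2.le, abs_of_neg (by linarith : f x - -(k : ℝ) < 0),
        abs_of_neg (by linarith : f x < 0), max_eq_left (by linarith)]
      ring
  · rw [min_eq_left h1.le, max_eq_right (by linarith), abs_of_pos (by linarith : 0 < f x - k),
      abs_of_pos (by linarith : 0 < f x), max_eq_left (by linarith)]

omit [MulAction SL2 X] [MeasurableSpace SL2] [BorelSpace SL2] [MeasurableSMul₂ SL2 X] in
lemma tt_BM {f : X → ℝ} (hf : Measurable f) (k : ℕ) : BM (tt f k) := by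
  have hk : (0 : ℝ) ≤ k := Nat.cast_nonneg k
  refine ⟨measurable_const.max (measurable_const.min hf), k, fun x => ?_⟩
  unfold tt
  rw [abs_le]
  exact ⟨le_max_left _ _, max_le (by linarith) (min_le_left _ _)⟩

omit [MulAction SL2 X] [MeasurableSpace SL2] [BorelSpace SL2] [MeasurableSMul₂ SL2 X] in
lemma rem_tendsto (μ : Measure X) {f : X → ℝ} (hf : Measurable f) (hi : Integrable f μ) :
    Tendsto (fun k => ∫ x, rem f k x ∂μ) atTop (𝓝 0) := by
  have h := tendsto_integral_of_dominated_convergence (μ := μ) (F := fun k x => rem f k x)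
    (f := fun _ => (0 : ℝ)) (fun x => |f x|)
    (fun k => ((hf.abs.sub_const _).max measurable_const).aestronglyMeasurable)
    hi.abs (fun k => Eventually.of_forall fun x => ?_) (Eventually.of_forall fun x => ?_)
  · simpa using h
  · unfold rem
    rw [Real.norm_of_nonneg (le_max_right _ _)]
    apply max_le _ (abs_nonneg _)
    have : (0 : ℝ) ≤ k := Nat.cast_nonneg k
    linarith
  · apply tendsto_const_nhds.congr'
    obtain ⟨N, hN⟩ := exists_nat_ge |f x|
    filter_upwards [eventually_ge_atTop N] with k hk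
    have : (N : ℝ) ≤ k := by exact_mod_cast hk
    unfold rem
    rw [max_eq_right]
    linarith

/-- The `L¹` theorem for measurable integrable functions. -/
theorem conv_L1 {R₀ ε : ℝ} (hgap : Gap μ R₀ ε) (hε : 0 < ε) {f : X → ℝ} (hfm : Measurable f)
    (hfi : Integrable f μ) :
    ∀ᵐ x ∂μ, Tendsto (fun R => BA m R f x) atTop (𝓝 (∫ y, f y ∂μ)) := by
  obtain ⟨C, hC, hw⟩ := ball_weak m μ hgap hε
  have hrm : ∀ k, Measurable (rem f k) := fun k => (hfm.abs.sub_const _).max measurable_const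
  have hr0 : ∀ k x, 0 ≤ rem f k x := fun k x => le_max_right _ _
  have hri : ∀ k, Integrable (rem f k) μ := by
    intro k
    refine hfi.abs.mono' (hrm k).aestronglyMeasurable (Eventually.of_forall fun x => ?_)
    unfold rem
    rw [Real.norm_of_nonneg (le_max_right _ _)]
    apply max_le _ (abs_nonneg _)
    have : (0 : ℝ) ≤ k := Nat.cast_nonneg k
    linarith
  have hrt := rem_tendsto μ hfm hfi
  have h1 : ∀ k, ∀ᵐ x ∂μ, Tendsto (fun R => BA m R (tt f k) x) atTop (𝓝 (∫ y, tt f k y ∂μ)) :=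
    fun k => conv_bdd m μ hgap hε (tt_BM hfm k)
  have h2 : ∀ n K : ℕ, ∀ᵐ x ∂μ, ∃ k, K ≤ k ∧ x ∉ Bad m (1 / ((n : ℝ) + 1)) (rem f k) := by
    intro n K
    have hlam : 0 < 1 / ((n : ℝ) + 1) := by positivity
    rw [ae_iff]
    have hsub : ∀ k, K ≤ k → μ {x | ¬ ∃ k, K ≤ k ∧ x ∉ Bad m (1 / ((n : ℝ) + 1)) (rem f k)}
        ≤ ENNReal.ofReal (C * (∫ x, rem f k x ∂μ) / (1 / ((n : ℝ) + 1))) := by
      intro k hk
      refine le_trans (measure_mono ?_) (bad_measure m μ hC hw hlam (hrm k) (hr0 k) (hri k))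
      intro x hx
      simp only [Set.mem_ofPred_eq, not_exists, not_and, not_not] at hx
      exact hx k hk
    have hlim : Tendsto (fun k => ENNReal.ofReal (C * (∫ x, rem f k x ∂μ) / (1 / ((n : ℝ) + 1))))
        atTop (𝓝 0) := by
      have := (hrt.const_mul C).div_const (1 / ((n : ℝ) + 1))
      rw [mul_zero, zero_div] at this
      have h3 := (ENNReal.continuous_ofReal.tendsto 0).comp this
      rw [ENNReal.ofReal_zero] at h3
      exact h3
    apply le_antisymm _ zero_le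
    apply ge_of_tendsto hlim
    filter_upwards [eventually_ge_atTop K] with k hk
    exact hsub k hk
  filter_upwards [ae_all_iff.mpr h1, ae_all_iff.mpr fun n => ae_all_iff.mpr (h2 n)] with x hx1 hx2
  rw [Metric.tendsto_atTop]
  intro e he
  obtain ⟨n, hn⟩ := exists_nat_one_div_lt (show 0 < e / 3 by positivity)
  obtain ⟨K, hK⟩ := (Metric.tendsto_atTop.mp hrt) (e / 3) (by positivity)
  obtain ⟨k, hkK, hk⟩ := hx2 n K
  have hKk := hK k hkK
  rw [Real.dist_eq, sub_zero, abs_of_nonneg (integral_nonneg (hr0 k))] at hKk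
  obtain ⟨R1, hR1⟩ := (Metric.tendsto_atTop.mp (hx1 k)) (e / 3) (by positivity)
  refine ⟨max R1 4, fun R hR => ?_⟩
  have hRa := hR1 R ((le_max_left _ _).trans hR)
  have hR4 : 4 ≤ R := (le_max_right _ _).trans hR
  obtain ⟨hint, hbd⟩ := good_bound m (by positivity) (hrm k) (hr0 k) hk hR4
  rw [Real.dist_eq] at hRa ⊢
  have hdi : Integrable (fun g : SL2 => f (g⁻¹ • x) - tt f k (g⁻¹ • x))
      (m.restrict {g : SL2 | NN g < R}) := by
    refine hint.mono' ?_ (Eventually.of_forall fun g => ?_)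
    · exact (meas_inv_smul' (hfm.sub (tt_BM hfm k).meas) x).aestronglyMeasurable
    · rw [Real.norm_eq_abs, tt_sub]
  have hsplit : BA m R f x = BA m R (tt f k) x +
      (m {g : SL2 | NN g < R}).toReal⁻¹ *
        ∫ g in {g : SL2 | NN g < R}, (f (g⁻¹ • x) - tt f k (g⁻¹ • x)) ∂m := by
    unfold BA
    rw [← mul_add, ← integral_add (ball_int m (tt_BM hfm k) R x) hdi]
    congr 2; funext g; ring
  have hsmall : |(m {g : SL2 | NN g < R}).toReal⁻¹ *
        ∫ g in {g : SL2 | NN g < R}, (f (g⁻¹ • x) - tt f k (g⁻¹ • x)) ∂m| ≤ 1 / ((n : ℝ) + 1) := by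
    refine le_trans ?_ hbd
    rw [abs_mul, abs_of_nonneg (inv_nonneg.mpr ENNReal.toReal_nonneg)]
    unfold BA
    apply mul_le_mul_of_nonneg_left _ (inv_nonneg.mpr ENNReal.toReal_nonneg)
    refine (abs_integral_le_integral_abs).trans (le_of_eq ?_)
    congr 1; funext g; exact tt_sub f k _
  have hmean : |∫ y, tt f k y ∂μ - ∫ y, f y ∂μ| ≤ ∫ y, rem f k y ∂μ := by
    rw [← integral_sub ((tt_BM hfm k).integrable μ) hfi]
    refine (abs_integral_le_integral_abs).trans (le_of_eq ?_)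
    congr 1; funext y
    rw [abs_sub_comm]; exact tt_sub f k y
  rw [hsplit]
  have := abs_add_le (BA m R (tt f k) x - ∫ y, tt f k y ∂μ)
    ((m {g : SL2 | NN g < R}).toReal⁻¹ *
        ∫ g in {g : SL2 | NN g < R}, (f (g⁻¹ • x) - tt f k (g⁻¹ • x)) ∂m +
      (∫ y, tt f k y ∂μ - ∫ y, f y ∂μ))
  have h5 := abs_add_le ((m {g : SL2 | NN g < R}).toReal⁻¹ *
        ∫ g in {g : SL2 | NN g < R}, (f (g⁻¹ • x) - tt f k (g⁻¹ • x)) ∂m)
      (∫ y, tt f k y ∂μ - ∫ y, f y ∂μ)
  have h6 : BA m R (tt f k) x + (m {g : SL2 | NN g < R}).toReal⁻¹ *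
        ∫ g in {g : SL2 | NN g < R}, (f (g⁻¹ • x) - tt f k (g⁻¹ • x)) ∂m - ∫ y, f y ∂μ
      = (BA m R (tt f k) x - ∫ y, tt f k y ∂μ) + ((m {g : SL2 | NN g < R}).toReal⁻¹ *
        ∫ g in {g : SL2 | NN g < R}, (f (g⁻¹ • x) - tt f k (g⁻¹ • x)) ∂m +
      (∫ y, tt f k y ∂μ - ∫ y, f y ∂μ)) := by ring
  rw [h6]
  linarith

/-- Almost everywhere equal functions have almost everywhere equal ball averages. -/
lemma BA_congr_ae {f f' : X → ℝ} (h : f =ᵐ[μ] f') :
    ∀ᵐ x ∂μ, ∀ R, BA m R f x = BA m R f' x := by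
  set Z := toMeasurable μ {x | f x ≠ f' x} with hZ
  have hZm : MeasurableSet Z := measurableSet_toMeasurable _ _
  have hZ0 : μ Z = 0 := by
    rw [hZ, measure_toMeasurable]; exact h
  have hset : MeasurableSet {z : X × SL2 | z.2⁻¹ • z.1 ∈ Z} :=
    hZm.preimage (measurable_snd.inv.smul measurable_fst)
  have h1 : (μ.prod m) {z : X × SL2 | z.2⁻¹ • z.1 ∈ Z} = 0 := by
    rw [Measure.prod_apply_symm hset]
    have : ∀ g : SL2, μ ((fun x => (x, g)) ⁻¹' {z : X × SL2 | z.2⁻¹ • z.1 ∈ Z}) = 0 := by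
      intro g
      have e : (fun x => (x, g)) ⁻¹' {z : X × SL2 | z.2⁻¹ • z.1 ∈ Z} = (fun x => g⁻¹ • x) ⁻¹' Z := rfl
      rw [e, (measurePreserving_smul g⁻¹ μ).measure_preimage hZm.nullMeasurableSet, hZ0]
    simp_rw [this]
    simp
  have h2 : ∀ᵐ z ∂(μ.prod m), z.2⁻¹ • z.1 ∉ Z := by
    rw [ae_iff]; simpa using h1
  filter_upwards [Measure.ae_ae_of_ae_prod h2] with x hx R
  unfold BA
  congr 1
  apply integral_congr_ae
  apply ae_restrict_of_ae
  filter_upwards [hx] with g hg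
  by_contra hne
  exact hg (subset_toMeasurable μ _ hne)

theorem conv_final {R₀ ε : ℝ} (hgap : Gap μ R₀ ε) (hε : 0 < ε) {f : X → ℝ}
    (hfi : Integrable f μ) :
    ∀ᵐ x ∂μ, Tendsto (fun R => BA m R f x) atTop (𝓝 (∫ y, f y ∂μ)) := by
  set f' := hfi.aestronglyMeasurable.mk f with hf'
  have hm : Measurable f' := hfi.aestronglyMeasurable.stronglyMeasurable_mk.measurable
  have hae : f =ᵐ[μ] f' := hfi.aestronglyMeasurable.ae_eq_mk
  have hi : Integrable f' μ := hfi.congr hae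
  filter_upwards [conv_L1 m μ hgap hε hm hi, BA_congr_ae m μ hae] with x h1 h2
  rw [integral_congr_ae hae]
  refine h1.congr fun R => ?_
  exact (h2 R).symm

omit [MeasurableSpace SL2] [BorelSpace SL2] [MulAction SL2 X] [MeasurableSMul₂ SL2 X]
  [SMulInvariantMeasure SL2 X μ] in
lemma eLpNorm_two {U : X → ℝ} (hU : BM U) :
    eLpNorm U 2 μ = ENNReal.ofReal (Real.sqrt (∫ x, U x ^ 2 ∂μ)) := by
  have h := eLpNorm_nnreal_pow_eq_lintegral (μ := μ) (f := U) (p := 2) (by norm_num)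
  have h2 : ∫⁻ x, ‖U x‖ₑ ^ ((2 : NNReal) : ℝ) ∂μ = ENNReal.ofReal (∫ x, U x ^ 2 ∂μ) := by
    rw [ofReal_integral_eq_lintegral_ofReal (hU.sq.integrable μ)
      (Eventually.of_forall fun x => sq_nonneg _)]
    apply lintegral_congr
    intro x
    have : ((2 : NNReal) : ℝ) = ((2 : ℕ) : ℝ) := by norm_num
    rw [this, ENNReal.rpow_natCast, Real.enorm_eq_ofReal_abs, ← ENNReal.ofReal_pow (abs_nonneg _),
      sq_abs]
  rw [h2] at h
  have h3 : ENNReal.ofReal (Real.sqrt (∫ x, U x ^ 2 ∂μ)) ^ ((2 : NNReal) : ℝ)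
      = ENNReal.ofReal (∫ x, U x ^ 2 ∂μ) := by
    have : ((2 : NNReal) : ℝ) = ((2 : ℕ) : ℝ) := by norm_num
    rw [this, ENNReal.rpow_natCast, ← ENNReal.ofReal_pow (Real.sqrt_nonneg _), Real.sq_sqrt
      (integral_nonneg fun x => sq_nonneg _)]
  rw [← h3] at h
  have h4 := congrArg (fun t : ENNReal => t ^ ((1 : ℝ) / 2)) h
  simp only [← ENNReal.rpow_mul] at h4
  norm_num at h4
  exact h4

/-- From the spectral gap of the statement. -/
lemma gap_of {Q : Set SL2} (hQ : IsCompact Q) {ε : ℝ} (hε : 0 < ε)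
    (h : ∀ f : X → ℝ, MemLp f 2 μ → ∫ y, f y ∂μ = 0 → eLpNorm f 2 μ = 1 →
      ∃ g ∈ Q, ENNReal.ofReal ε ≤ eLpNorm (fun y => f (g • y) - f y) 2 μ) :
    ∃ R₀, Gap μ R₀ ε := by
  obtain ⟨B, hB⟩ := hQ.bddAbove_image continuous_NN.continuousOn
  refine ⟨max B 2, ?_⟩
  intro U hU hU0
  have hI0 : 0 ≤ ∫ x, U x ^ 2 ∂μ := integral_nonneg fun x => sq_nonneg _
  rcases hI0.eq_or_lt with h0 | h0
  · refine ⟨1, ?_, ?_⟩
    · refine le_trans (le_of_eq ?_) (le_max_right _ _)
      simp only [NN, Matrix.SpecialLinearGroup.coe_one, Matrix.one_apply_eq]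
      norm_num [Matrix.one_apply]
    · rw [← h0]; simp
  · set r := Real.sqrt (∫ x, U x ^ 2 ∂μ) with hr
    have hr0 : 0 < r := Real.sqrt_pos.mpr h0
    have hr2 : r ^ 2 = ∫ x, U x ^ 2 ∂μ := Real.sq_sqrt hI0
    set f : X → ℝ := fun x => r⁻¹ * U x with hf
    have hfB : BM f := hU.const_mul _
    have hmem : MemLp f 2 μ := by
      obtain ⟨C, hC⟩ := hfB.bdd
      exact MemLp.of_bound hfB.meas.aestronglyMeasurable C (Eventually.of_forall hC)
    have hf0 : ∫ y, f y ∂μ = 0 := by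
      simp only [hf]; rw [integral_const_mul, hU0, mul_zero]
    have hf2 : ∫ y, f y ^ 2 ∂μ = 1 := by
      simp only [hf, mul_pow]
      rw [integral_const_mul, ← hr2, inv_pow, inv_mul_cancel₀ (by positivity)]
    have hf1 : eLpNorm f 2 μ = 1 := by
      rw [eLpNorm_two μ hfB, hf2, Real.sqrt_one, ENNReal.ofReal_one]
    obtain ⟨g, hg, hge⟩ := h f hmem hf0 hf1
    refine ⟨g, (hB (Set.mem_image_of_mem _ hg)).trans (le_max_left _ _), ?_⟩
    have hdB : BM (fun y => f (g • y) - f y) := (hfB.smul g).sub hfB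
    rw [eLpNorm_two μ hdB, ENNReal.ofReal_le_ofReal_iff (Real.sqrt_nonneg _)] at hge
    have h3 : ε ^ 2 ≤ ∫ y, (f (g • y) - f y) ^ 2 ∂μ := by
      rw [← Real.sq_sqrt (integral_nonneg fun x => sq_nonneg _ : 0 ≤ ∫ y, (f (g • y) - f y) ^ 2 ∂μ)]
      exact pow_le_pow_left₀ hε.le hge 2
    have h4 : ∫ y, (f (g • y) - f y) ^ 2 ∂μ = (r ^ 2)⁻¹ * ∫ y, (U (g • y) - U y) ^ 2 ∂μ := by
      rw [← integral_const_mul]
      congr 1; funext y
      simp only [hf]
      rw [← mul_sub, mul_pow, inv_pow]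
    rw [h4, ← div_eq_inv_mul, le_div_iff₀ (by positivity)] at h3
    rw [← hr2]; exact h3

end Pool.Agent.Helper31.ErgSL2
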