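import Pool.Agent.Helper31.ErgSL2.Basic

/-!
# The Haar measure of `SL(2, ℝ)`: exact volume of Frobenius balls
-/

set_option autoImplicit false
open MeasureTheory Filter Topology

namespace Pool.Agent.Helper31.ErgSL2

/-- Pairs of columns. -/
abbrev EE := (Fin 2 → ℝ) × (Fin 2 → ℝ)

/-- Determinant of a pair of columns. -/
def dt (p : EE) : ℝ := p.1 0 * p.2 1 - p.2 0 * p.1 1

/-- Square norm. -/
def sn (p : EE) : ℝ := p.1 0 ^ 2 + p.2 0 ^ 2 + p.1 1 ^ 2 + p.2 1 ^ 2

open Classical in
/-- Projection to `SL2`. -/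
noncomputable def nrm (p : EE) : SL2 :=
  if h : 0 < dt p then
    mkSL (p.1 0 / Real.sqrt (dt p)) (p.2 0 / Real.sqrt (dt p)) (p.1 1 / Real.sqrt (dt p))
      (p.2 1 / Real.sqrt (dt p)) (by
        have h2 : Real.sqrt (dt p) ≠ 0 := (Real.sqrt_pos.mpr h).ne'
        have h3 : Real.sqrt (dt p) ^ 2 = dt p := Real.sq_sqrt h.le
        field_simp
        rw [h3, dt])
  else 1

/-- Left multiplication on columns. -/
noncomputable def lm (g : SL2) (p : EE) : EE := (g.1.mulVec p.1, g.1.mulVec p.2)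

lemma lm_10 (g : SL2) (p : EE) : (lm g p).1 0 = g.1 0 0 * p.1 0 + g.1 0 1 * p.1 1 := by
  simp [lm]
lemma lm_11 (g : SL2) (p : EE) : (lm g p).1 1 = g.1 1 0 * p.1 0 + g.1 1 1 * p.1 1 := by
  simp [lm]
lemma lm_20 (g : SL2) (p : EE) : (lm g p).2 0 = g.1 0 0 * p.2 0 + g.1 0 1 * p.2 1 := by
  simp [lm]
lemma lm_21 (g : SL2) (p : EE) : (lm g p).2 1 = g.1 1 0 * p.2 0 + g.1 1 1 * p.2 1 := by
  simp [lm]

lemma dt_lm (g : SL2) (p : EE) : dt (lm g p) = dt p := by
  unfold dt
  rw [lm_10, lm_11, lm_20, lm_21]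
  linear_combination (p.1 0 * p.2 1 - p.2 0 * p.1 1) * det_eq g

lemma nrm_lm (g : SL2) (p : EE) (h : 0 < dt p) : nrm (lm g p) = g * nrm p := by
  have h' : 0 < dt (lm g p) := by rwa [dt_lm]
  unfold nrm
  rw [dif_pos h, dif_pos h']
  apply ext2
  · rw [mul_00]; simp only [mkSL_00, mkSL_10, dt_lm, lm_10]; ring
  · rw [mul_01]; simp only [mkSL_01, mkSL_11, dt_lm, lm_20]; ring
  · rw [mul_10]; simp only [mkSL_00, mkSL_10, dt_lm, lm_11]; ring
  · rw [mul_11]; simp only [mkSL_01, mkSL_11, dt_lm, lm_21]; ring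

lemma NN_nrm (p : EE) (h : 0 < dt p) : NN (nrm p) = sn p / dt p := by
  unfold nrm
  rw [dif_pos h]
  have h3 : Real.sqrt (dt p) ^ 2 = dt p := Real.sq_sqrt h.le
  simp only [NN, mkSL_00, mkSL_01, mkSL_10, mkSL_11, div_pow, h3, sn]
  ring

lemma continuous_dt : Continuous dt := by
  unfold dt; fun_prop

lemma continuous_sn : Continuous sn := by
  unfold sn; fun_prop

lemma mp_lm (g : SL2) : MeasurePreserving (lm g) volume volume := by
  have h1 : MeasurePreserving (fun v : Fin 2 → ℝ => g.1.mulVec v) volume volume := by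
    refine ⟨?_, ?_⟩
    · exact (LinearMap.continuous_of_finiteDimensional (Matrix.toLin' g.1)).measurable
    · have := Real.map_matrix_volume_pi_eq_smul_volume_pi (M := g.1) (by rw [g.2]; norm_num)
      rw [g.2] at this
      simp only [inv_one, abs_one, ENNReal.ofReal_one, one_smul] at this
      exact this
  exact h1.prod h1

/-- The truncated cone. -/
def cone : Set EE := {p | 0 < dt p ∧ dt p ≤ 1}

lemma measurableSet_cone : MeasurableSet cone :=
  (measurableSet_lt measurable_const continuous_dt.measurable).inter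
    (measurableSet_le continuous_dt.measurable measurable_const)

variable [MeasurableSpace SL2] [BorelSpace SL2]

lemma measurable_nrm : Measurable nrm := by
  have hce : IsClosedEmbedding (fun g : SL2 => (fun i j => g.1 i j : Fin 2 → Fin 2 → ℝ)) :=
    Matrix.SpecialLinearGroup.isClosedEmbedding_val (n := Fin 2) (R := ℝ)
  have hemb : MeasurableEmbedding (fun g : SL2 => (fun i j => g.1 i j : Fin 2 → Fin 2 → ℝ)) :=
    hce.measurableEmbedding
  rw [← hemb.measurable_comp_iff]
  have hd := continuous_dt.measurable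
  rw [measurable_pi_iff]
  intro i
  rw [measurable_pi_iff]
  intro j
  have key : ∀ (f : EE → ℝ) (c : ℝ), Measurable f →
      Measurable (fun p : EE => if 0 < dt p then f p / Real.sqrt (dt p) else c) := by
    intro f c hf
    apply Measurable.ite (measurableSet_lt measurable_const hd)
    · exact hf.div (Real.continuous_sqrt.measurable.comp hd)
    · exact measurable_const
  have e : ∀ (p : EE), ((fun g : SL2 => (fun i j => g.1 i j : Fin 2 → Fin 2 → ℝ)) ∘ nrm) p
      = fun i j => if 0 < dt p then (!![p.1 0, p.2 0; p.1 1, p.2 1] i j) / Real.sqrt (dt p)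
        else (1 : Matrix (Fin 2) (Fin 2) ℝ) i j := by
    intro p
    funext i j
    simp only [Function.comp, nrm]
    split_ifs with h
    · fin_cases i <;> fin_cases j <;> rfl
    · rfl
  have e2 : (fun x => ((fun g : SL2 => (fun i j => g.1 i j : Fin 2 → Fin 2 → ℝ)) ∘ nrm) x i j)
      = fun p => if 0 < dt p then (!![p.1 0, p.2 0; p.1 1, p.2 1] i j) / Real.sqrt (dt p)
        else (1 : Matrix (Fin 2) (Fin 2) ℝ) i j := by
    funext p; rw [e p]
  rw [e2]
  apply key
  fin_cases i <;> fin_cases j <;> simp <;> fun_prop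

/-- The cone measure. -/
noncomputable def mc : Measure SL2 := Measure.map nrm ((volume : Measure EE).restrict cone)

instance : Measure.IsMulLeftInvariant mc := by
  constructor
  intro g
  have hmul : Measurable (fun h : SL2 => g * h) := (continuous_const.mul continuous_id).measurable
  unfold mc
  rw [Measure.map_map hmul measurable_nrm]
  have h1 : ((fun h => g * h) ∘ nrm) =ᵐ[(volume : Measure EE).restrict cone] nrm ∘ lm g := by
    rw [Filter.EventuallyEq, ae_restrict_iff' measurableSet_cone]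
    apply Filter.Eventually.of_forall
    intro p hp
    exact (nrm_lm g p hp.1).symm
  rw [Measure.map_congr h1, ← Measure.map_map measurable_nrm (mp_lm g).measurable]
  congr 1
  have := (mp_lm g).restrict_preimage measurableSet_cone
  have e : (lm g) ⁻¹' cone = cone := by
    ext p; simp only [cone, Set.mem_preimage, Set.mem_ofPred_eq, dt_lm]
  rw [e] at this
  exact this.map_eq

lemma mc_apply {s : Set SL2} (hs : MeasurableSet s) :
    mc s = volume (nrm ⁻¹' s ∩ cone) := by
  rw [mc, Measure.map_apply measurable_nrm hs,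
    Measure.restrict_apply (measurable_nrm hs)]

lemma mc_le_lt_top (R : ℝ) : mc {g | NN g ≤ R} < ⊤ := by
  rw [mc_apply (measurableSet_le continuous_NN.measurable measurable_const)]
  have hsub : nrm ⁻¹' {g | NN g ≤ R} ∩ cone ⊆ Metric.closedBall (0 : EE) (|R| + 1) := by
    rintro p ⟨h1, h2, h3⟩
    simp only [Set.mem_preimage, Set.mem_ofPred_eq] at h1
    rw [NN_nrm p h2, div_le_iff₀ h2] at h1
    have h4 : sn p ≤ |R| := by
      calc sn p ≤ R * dt p := h1
        _ ≤ |R| * dt p := mul_le_mul_of_nonneg_right (le_abs_self R) h2.le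
        _ ≤ |R| * 1 := mul_le_mul_of_nonneg_left h3 (abs_nonneg R)
        _ = |R| := mul_one _
    have key : ∀ x : ℝ, x ^ 2 ≤ |R| → |x| ≤ |R| + 1 := by
      intro x hx
      have h5 := abs_nonneg R
      have h6 := abs_nonneg x
      rw [← sq_abs] at hx
      nlinarith
    rw [mem_closedBall_zero_iff, Prod.norm_def, max_le_iff]
    have hR : 0 ≤ |R| + 1 := by positivity
    have a0 := sq_nonneg (p.1 0)
    have a1 := sq_nonneg (p.1 1)
    have a2 := sq_nonneg (p.2 0)
    have a3 := sq_nonneg (p.2 1)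
    unfold sn at h4
    constructor
    · rw [pi_norm_le_iff_of_nonneg hR]
      intro i
      fin_cases i
      · exact key _ (by simp; linarith)
      · exact key _ (by simp; linarith)
    · rw [pi_norm_le_iff_of_nonneg hR]
      intro i
      fin_cases i
      · exact key _ (by simp; linarith)
      · exact key _ (by simp; linarith)
  exact (measure_mono hsub).trans_lt measure_closedBall_lt_top

instance : IsFiniteMeasureOnCompacts mc := by
  constructor
  intro K hK
  obtain ⟨R, hR⟩ := hK.bddAbove_image continuous_NN.continuousOn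
  refine (measure_mono ?_).trans_lt (mc_le_lt_top R)
  intro g hg
  exact hR (Set.mem_image_of_mem _ hg)

/-! ### Complex coordinates -/

omit [MeasurableSpace SL2] [BorelSpace SL2]

/-- Complex coordinates. -/
noncomputable def cc : EE ≃ₗ[ℝ] ℂ × ℂ where
  toFun p := (⟨p.1 0 + p.2 1, p.1 1 - p.2 0⟩, ⟨p.1 0 - p.2 1, p.1 1 + p.2 0⟩)
  invFun q := (![(q.1.re + q.2.re) / 2, (q.1.im + q.2.im) / 2],
    ![(q.2.im - q.1.im) / 2, (q.1.re - q.2.re) / 2])
  left_inv p := by
    ext i <;> fin_cases i <;> simp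
  right_inv q := by
    apply Prod.ext <;> apply Complex.ext <;> simp <;> ring
  map_add' p q := by
    apply Prod.ext <;> apply Complex.ext <;> simp <;> ring
  map_smul' c p := by
    apply Prod.ext <;> apply Complex.ext <;> simp <;> ring

lemma cc_dt (p : EE) : 4 * dt p = ‖(cc p).1‖ ^ 2 - ‖(cc p).2‖ ^ 2 := by
  rw [← Complex.normSq_eq_norm_sq, ← Complex.normSq_eq_norm_sq, Complex.normSq_apply,
    Complex.normSq_apply]
  simp only [cc, dt, LinearEquiv.coe_mk, LinearMap.coe_mk, AddHom.coe_mk]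
  ring

lemma cc_sn (p : EE) : 2 * sn p = ‖(cc p).1‖ ^ 2 + ‖(cc p).2‖ ^ 2 := by
  rw [← Complex.normSq_eq_norm_sq, ← Complex.normSq_eq_norm_sq, Complex.normSq_apply,
    Complex.normSq_apply]
  simp only [cc, sn, LinearEquiv.coe_mk, LinearMap.coe_mk, AddHom.coe_mk]
  ring

/-- Area of an annulus. -/
lemma annulus_volume (α β : ℝ) (hα : 0 ≤ α) :
    volume {z : ℂ | α < ‖z‖ ^ 2 ∧ ‖z‖ ^ 2 ≤ β} = ENNReal.ofReal (Real.pi * (β - α)) := by
  have hball : ∀ γ : ℝ, 0 ≤ γ → {z : ℂ | ‖z‖ ^ 2 ≤ γ} = Metric.closedBall 0 (Real.sqrt γ) := by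
    intro γ hγ
    ext z
    rw [mem_closedBall_zero_iff, Set.mem_ofPred_eq]
    rw [Real.le_sqrt (norm_nonneg z) hγ]
  have hvol : ∀ γ : ℝ, 0 ≤ γ → volume {z : ℂ | ‖z‖ ^ 2 ≤ γ} = ENNReal.ofReal (Real.pi * γ) := by
    intro γ hγ
    rw [hball γ hγ, Complex.volume_closedBall]
    rw [← ENNReal.ofReal_pow (Real.sqrt_nonneg γ), Real.sq_sqrt hγ,
      ENNReal.ofReal_mul Real.pi_pos.le, mul_comm]
    congr 1
    rw [← NNReal.coe_real_pi, ENNReal.ofReal_coe_nnreal]
  rcases le_or_gt β α with h | h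
  · have : {z : ℂ | α < ‖z‖ ^ 2 ∧ ‖z‖ ^ 2 ≤ β} = ∅ := by
      ext z; simp; intro hz; linarith
    rw [this, measure_empty, ENNReal.ofReal_of_nonpos]
    exact mul_nonpos_of_nonneg_of_nonpos Real.pi_pos.le (by linarith)
  · have : {z : ℂ | α < ‖z‖ ^ 2 ∧ ‖z‖ ^ 2 ≤ β} = {z : ℂ | ‖z‖ ^ 2 ≤ β} \ {z : ℂ | ‖z‖ ^ 2 ≤ α} := by
      ext z; simp [and_comm]
    rw [this, measure_sdiff, hvol β (by linarith), hvol α hα, ← ENNReal.ofReal_sub]
    · congr 1; ring
    · exact mul_nonneg Real.pi_pos.le hα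
    · intro z hz; simp only [Set.mem_ofPred_eq] at hz ⊢; linarith
    · exact (measurableSet_le (by fun_prop) measurable_const).nullMeasurableSet
    · rw [hvol α hα]; exact ENNReal.ofReal_ne_top

/-- The region in complex coordinates. -/
def SR (R : ℝ) : Set (ℂ × ℂ) :=
  {q | (R + 2) * ‖q.2‖ ^ 2 < (R - 2) * ‖q.1‖ ^ 2 ∧ ‖q.1‖ ^ 2 ≤ ‖q.2‖ ^ 2 + 4}

lemma measurableSet_SR (R : ℝ) : MeasurableSet (SR R) := by
  have h1 : Measurable fun q : ℂ × ℂ => ‖q.1‖ ^ 2 := by fun_prop
  have h2 : Measurable fun q : ℂ × ℂ => ‖q.2‖ ^ 2 := by fun_prop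
  exact (measurableSet_lt (h2.const_mul _) (h1.const_mul _)).inter
    (measurableSet_le h1 (h2.add_const _))

/-- The profile. -/
noncomputable def prof (w : ℂ) : ENNReal := ENNReal.ofReal (Real.pi * (4 - 4 * ‖w‖ ^ 2))

lemma measurable_prof : Measurable prof := by
  unfold prof; fun_prop

lemma volume_SR (R : ℝ) (hR : 2 < R) :
    volume (SR R) = ENNReal.ofReal (R - 2) * ∫⁻ w, prof w := by
  rw [Measure.volume_eq_prod, Measure.prod_apply_symm (measurableSet_SR R)]
  have e : ∀ w : ℂ, volume ((fun z => (z, w)) ⁻¹' SR R) = prof ((Real.sqrt (R - 2))⁻¹ • w) := by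
    intro w
    have h1 : (fun z => (z, w)) ⁻¹' SR R =
        {z : ℂ | (R + 2) / (R - 2) * ‖w‖ ^ 2 < ‖z‖ ^ 2 ∧ ‖z‖ ^ 2 ≤ ‖w‖ ^ 2 + 4} := by
      ext z
      simp only [SR, Set.mem_preimage, Set.mem_ofPred_eq]
      rw [div_mul_eq_mul_div, div_lt_iff₀ (by linarith), mul_comm (‖z‖ ^ 2) (R - 2)]
    rw [h1, annulus_volume _ _ (mul_nonneg (div_nonneg (by linarith) (by linarith)) (sq_nonneg _))]
    unfold prof
    congr 1
    rw [norm_smul, norm_inv, Real.norm_eq_abs, abs_of_nonneg (Real.sqrt_nonneg _), mul_pow, inv_pow,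
      Real.sq_sqrt (by linarith)]
    have : R - 2 ≠ 0 := by linarith
    field_simp
    ring
  simp_rw [e]
  have hne : (Real.sqrt (R - 2))⁻¹ ≠ 0 := inv_ne_zero (Real.sqrt_pos.mpr (by linarith)).ne'
  have hmap := Measure.map_addHaar_smul (volume : Measure ℂ) hne
  have hm : Measurable (fun w : ℂ => (Real.sqrt (R - 2))⁻¹ • w) := measurable_const_smul _
  rw [← lintegral_map (f := prof) measurable_prof hm, hmap, lintegral_smul_measure,
    Complex.finrank_real_complex]
  congr 2
  rw [inv_pow, inv_inv, Real.sq_sqrt (by linarith), abs_of_pos (by linarith)]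

lemma prof_pos : 0 < ∫⁻ w, prof w := by
  rw [lintegral_pos_iff_support measurable_prof]
  refine lt_of_lt_of_le (Metric.measure_ball_pos volume (0 : ℂ) one_pos) (measure_mono ?_)
  intro w hw
  rw [mem_ball_zero_iff] at hw
  rw [Function.mem_support, prof, Ne, ENNReal.ofReal_eq_zero, not_le]
  apply mul_pos Real.pi_pos
  nlinarith [norm_nonneg w]

lemma prof_lt_top : ∫⁻ w, prof w < ⊤ := by
  have : ∀ w, prof w ≤ (Metric.closedBall (0 : ℂ) 1).indicator
      (fun _ => ENNReal.ofReal (Real.pi * 4)) w := by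
    intro w
    by_cases hw : w ∈ Metric.closedBall (0 : ℂ) 1
    · rw [Set.indicator_of_mem hw]
      apply ENNReal.ofReal_le_ofReal
      apply mul_le_mul_of_nonneg_left _ Real.pi_pos.le
      nlinarith [sq_nonneg ‖w‖]
    · rw [Set.indicator_of_notMem hw, prof, nonpos_iff_eq_zero, ENNReal.ofReal_eq_zero]
      apply mul_nonpos_of_nonneg_of_nonpos Real.pi_pos.le
      rw [mem_closedBall_zero_iff, not_le] at hw
      nlinarith
  refine (lintegral_mono this).trans_lt ?_
  rw [lintegral_indicator_const Metric.isClosed_closedBall.measurableSet]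
  exact ENNReal.mul_lt_top ENNReal.ofReal_lt_top measure_closedBall_lt_top

/-- The volume of Frobenius balls for the cone measure. -/
lemma exists_vol_EE : ∃ C : ENNReal, C ≠ 0 ∧ C ≠ ⊤ ∧ ∀ R, 2 < R →
    volume {p : EE | (0 < dt p ∧ dt p ≤ 1) ∧ sn p < R * dt p} = ENNReal.ofReal (R - 2) * C := by
  let L : EE ≃L[ℝ] ℂ × ℂ := cc.toContinuousLinearEquiv
  have i0 : (volume : Measure (Fin 2 → ℝ)).IsAddHaarMeasure := inferInstance
  have i1 : (volume : Measure EE).IsAddHaarMeasure := by
    rw [Measure.volume_eq_prod]; exact Measure.prod.instIsAddHaarMeasure _ _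
  have i2 : (volume : Measure (ℂ × ℂ)).IsAddHaarMeasure := by
    rw [Measure.volume_eq_prod]; infer_instance
  have h1 : (Measure.map L (volume : Measure EE)).IsAddHaarMeasure :=
    L.isAddHaarMeasure_map _
  have h2 : Measure.map L (volume : Measure EE) =
      Measure.addHaarScalarFactor (Measure.map L (volume : Measure EE)) (volume : Measure (ℂ × ℂ))
        • (volume : Measure (ℂ × ℂ)) := Measure.isAddLeftInvariant_eq_smul _ _
  have h3 : 0 < Measure.addHaarScalarFactor (Measure.map L (volume : Measure EE))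
    (volume : Measure (ℂ × ℂ)) := Measure.addHaarScalarFactor_pos_of_isAddHaarMeasure _ _
  set κ := Measure.addHaarScalarFactor (Measure.map L (volume : Measure EE))
    (volume : Measure (ℂ × ℂ)) with hκ
  refine ⟨κ * ∫⁻ w, prof w, ?_, ?_, ?_⟩
  · exact mul_ne_zero (by exact_mod_cast h3.ne') prof_pos.ne'
  · exact ENNReal.mul_ne_top ENNReal.coe_ne_top prof_lt_top.ne
  · intro R hR
    have h4 : {p : EE | (0 < dt p ∧ dt p ≤ 1) ∧ sn p < R * dt p} = L ⁻¹' (SR R) := by
      ext p
      have e1 := cc_dt p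
      have e2 := cc_sn p
      have e3 : 0 ≤ sn p := by unfold sn; positivity
      change ((0 < dt p ∧ dt p ≤ 1) ∧ sn p < R * dt p) ↔
        ((R + 2) * ‖(cc p).2‖ ^ 2 < (R - 2) * ‖(cc p).1‖ ^ 2 ∧ ‖(cc p).1‖ ^ 2 ≤ ‖(cc p).2‖ ^ 2 + 4)
      generalize ‖(cc p).1‖ ^ 2 = x at *
      generalize ‖(cc p).2‖ ^ 2 = y at *
      constructor
      · rintro ⟨⟨a1, a2⟩, a3⟩
        constructor
        · nlinarith
        · linarith
      · rintro ⟨a1, a2⟩
        have a3 : sn p < R * dt p := by nlinarith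
        refine ⟨⟨?_, by linarith⟩, a3⟩
        by_contra hneg
        push Not at hneg
        nlinarith
    rw [h4, ← Measure.map_apply L.continuous.measurable (measurableSet_SR R), h2,
      Measure.smul_apply, volume_SR R hR, ENNReal.smul_def, smul_eq_mul]
    ring

variable [MeasurableSpace SL2] [BorelSpace SL2]

/-- The exact volume of Frobenius balls. -/
theorem exists_volume (m : Measure SL2) [m.IsHaarMeasure] : ∃ c : ℝ, 0 < c ∧
    ∀ R, 2 ≤ R → m {g | NN g < R} = ENNReal.ofReal (c * (R - 2)) := by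
  obtain ⟨C, hC0, hC1, hC⟩ := exists_vol_EE
  have h2 : mc = Measure.haarScalarFactor mc m • m := Measure.isMulLeftInvariant_eq_smul _ _
  set κ := Measure.haarScalarFactor mc m with hκ
  have hv : ∀ R, 2 < R → mc {g | NN g < R} = ENNReal.ofReal (R - 2) * C := by
    intro R hR
    rw [mc_apply (measurableSet_lt continuous_NN.measurable measurable_const), ← hC R hR]
    congr 1
    ext p
    simp only [cone, Set.mem_inter_iff, Set.mem_preimage, Set.mem_ofPred_eq]
    constructor
    · rintro ⟨a1, a2⟩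
      rw [NN_nrm p a2.1, div_lt_iff₀ a2.1] at a1
      exact ⟨a2, a1⟩
    · rintro ⟨a1, a2⟩
      rw [NN_nrm p a1.1, div_lt_iff₀ a1.1]
      exact ⟨a2, a1⟩
  have hκ0 : κ ≠ 0 := by
    intro h0
    have h3 := hv 3 (by norm_num)
    rw [h2, h0] at h3
    simp only [zero_smul, Measure.coe_zero, Pi.zero_apply] at h3
    have h4 := h3.symm
    rw [mul_eq_zero] at h4
    rcases h4 with h4 | h4
    · rw [ENNReal.ofReal_eq_zero] at h4; linarith
    · exact hC0 h4
  have hκ0' : (κ : ENNReal) ≠ 0 := by exact_mod_cast hκ0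
  have hCr : C = ENNReal.ofReal C.toReal := (ENNReal.ofReal_toReal hC1).symm
  have hCpos : 0 < C.toReal := ENNReal.toReal_pos hC0 hC1
  have hκpos : 0 < (κ : ℝ) := lt_of_le_of_ne κ.2 (by exact_mod_cast hκ0.symm)
  refine ⟨C.toReal / κ, div_pos hCpos hκpos, ?_⟩
  intro R hR
  rcases hR.eq_or_lt with h | h
  · rw [← h]
    have : {g : SL2 | NN g < 2} = ∅ := by
      ext g; simp [NN_ge_two g]
    rw [this]; simp
  · have h3 := hv R h
    rw [h2, Measure.smul_apply, ENNReal.smul_def, smul_eq_mul] at h3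
    have h4 : m {g | NN g < R} = (κ : ENNReal)⁻¹ * (ENNReal.ofReal (R - 2) * C) := by
      rw [← h3, ← mul_assoc, ENNReal.inv_mul_cancel hκ0' ENNReal.coe_ne_top, one_mul]
    rw [h4, hCr, ← ENNReal.ofReal_mul (by linarith), ← ENNReal.ofReal_coe_nnreal,
      ← ENNReal.ofReal_inv_of_pos hκpos, ← ENNReal.ofReal_mul (by positivity)]
    congr 1
    rw [ENNReal.toReal_ofReal hCpos.le]
    field_simp

end Pool.Agent.Helper31.ErgSL2
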