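import Pool.Agent.Helper31.ErgSL2.Haar

/-!
# The push-forward of Haar measure under the Frobenius norm, and right `K`-invariance
-/

set_option autoImplicit false
open MeasureTheory Filter Topology

namespace Pool.Agent.Helper31.ErgSL2

variable [MeasurableSpace SL2] [BorelSpace SL2]

lemma measurable_NN : Measurable NN := continuous_NN.measurable

lemma exists_volume' (m : Measure SL2) [m.IsHaarMeasure] : ∃ c : ℝ, 0 < c ∧
    ∀ R, m {g | NN g < R} = ENNReal.ofReal (c * (R - 2)) := by
  obtain ⟨c, hc, h⟩ := exists_volume m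
  refine ⟨c, hc, fun R => ?_⟩
  rcases le_or_gt 2 R with hR | hR
  · exact h R hR
  · have : {g : SL2 | NN g < R} = ∅ := by
      ext g
      simp only [Set.mem_ofPred_eq, Set.mem_empty_iff_false, iff_false, not_lt]
      linarith [NN_ge_two g]
    rw [this, measure_empty, ENNReal.ofReal_of_nonpos]
    exact mul_nonpos_of_nonneg_of_nonpos hc.le (by linarith)

/-- The volume constant. -/
noncomputable def vc (m : Measure SL2) [m.IsHaarMeasure] : ℝ := (exists_volume' m).choose

lemma vc_pos (m : Measure SL2) [m.IsHaarMeasure] : 0 < vc m := (exists_volume' m).choose_spec.1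

lemma vol_NN (m : Measure SL2) [m.IsHaarMeasure] (R : ℝ) :
    m {g | NN g < R} = ENNReal.ofReal (vc m * (R - 2)) := (exists_volume' m).choose_spec.2 R

lemma map_NN (m : Measure SL2) [m.IsHaarMeasure] :
    Measure.map NN m = ENNReal.ofReal (vc m) • (volume.restrict (Set.Ioi (2 : ℝ))) := by
  have hc := vc_pos m
  have hIco : ∀ a b : ℝ, a < b → Measure.map NN m (Set.Ico a b) =
      ENNReal.ofReal (vc m * (b - 2)) - ENNReal.ofReal (vc m * (a - 2)) := by
    intro a b hab
    rw [Measure.map_apply measurable_NN measurableSet_Ico]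
    have e : NN ⁻¹' (Set.Ico a b) = {g | NN g < b} \ {g | NN g < a} := by
      ext g; simp [and_comm]
    rw [e, measure_sdiff, vol_NN, vol_NN]
    · intro g hg; simp only [Set.mem_ofPred_eq] at hg ⊢; linarith
    · exact (measurableSet_lt measurable_NN measurable_const).nullMeasurableSet
    · rw [vol_NN]; exact ENNReal.ofReal_ne_top
  apply Measure.ext_of_Ico'
  · intro a b hab
    rw [hIco a b hab]
    exact (tsub_le_self.trans_lt ENNReal.ofReal_lt_top).ne
  · intro a b hab
    rw [hIco a b hab, Measure.smul_apply, Measure.restrict_apply measurableSet_Ico, smul_eq_mul]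
    rcases le_or_gt b 2 with h | h
    · have : Set.Ico a b ∩ Set.Ioi 2 = ∅ := by
        ext x; simp only [Set.mem_inter_iff, Set.mem_Ico, Set.mem_Ioi, Set.mem_empty_iff_false,
          iff_false]
        intro hx; linarith
      rw [this, measure_empty, mul_zero, ENNReal.ofReal_of_nonpos, zero_tsub]
      exact mul_nonpos_of_nonneg_of_nonpos hc.le (by linarith)
    · rcases le_or_gt a 2 with h' | h'
      · have : Set.Ico a b ∩ Set.Ioi 2 = Set.Ioo 2 b := by
          ext x; simp only [Set.mem_inter_iff, Set.mem_Ico, Set.mem_Ioi, Set.mem_Ioo]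
          constructor
          · rintro ⟨⟨_, h2⟩, h3⟩; exact ⟨h3, h2⟩
          · rintro ⟨h3, h2⟩; exact ⟨⟨by linarith, h2⟩, h3⟩
        rw [this, Real.volume_Ioo, ENNReal.ofReal_of_nonpos (p := vc m * (a - 2)), tsub_zero,
          ENNReal.ofReal_mul hc.le]
        exact mul_nonpos_of_nonneg_of_nonpos hc.le (by linarith)
      · have : Set.Ico a b ∩ Set.Ioi 2 = Set.Ico a b := by
          apply Set.inter_eq_left.mpr
          intro x hx; simp only [Set.mem_Ioi]; linarith [hx.1]
        rw [this, Real.volume_Ico, ← ENNReal.ofReal_sub _ (mul_nonneg hc.le (by linarith)),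
          ← ENNReal.ofReal_mul hc.le]
        congr 1; ring

/-- Right invariance under rotations. -/
lemma map_mul_rot (m : Measure SL2) [m.IsHaarMeasure] (θ : ℝ) :
    Measure.map (fun g => g * rot θ) m = m := by
  have h0 : Measurable (fun g : SL2 => g * rot θ) :=
    (continuous_id.mul continuous_const).measurable
  have : IsFiniteMeasureOnCompacts (Measure.map (fun g => g * rot θ) m) := by
    constructor
    intro K hK
    rw [Measure.map_apply h0 hK.measurableSet]
    exact (((Homeomorph.mulRight (rot θ)).isCompact_preimage).mpr hK).measure_lt_top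
  have h2 : Measure.map (fun g => g * rot θ) m =
      Measure.haarScalarFactor (Measure.map (fun g => g * rot θ) m) m • m :=
    Measure.isMulLeftInvariant_eq_smul _ _
  set κ := Measure.haarScalarFactor (Measure.map (fun g => g * rot θ) m) m
  have h3 : Measure.map (fun g => g * rot θ) m {g | NN g < 3} = m {g | NN g < 3} := by
    rw [Measure.map_apply h0 (measurableSet_lt measurable_NN measurable_const)]
    congr 1
    ext g
    simp only [Set.mem_preimage, Set.mem_ofPred_eq, NN_mul_rot]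
  rw [h2, Measure.smul_apply, ENNReal.smul_def, smul_eq_mul, vol_NN] at h3
  have hpos : 0 < vc m * (3 - 2) := by have := vc_pos m; linarith
  have h4 : (κ : ENNReal) = 1 := by
    have h5 : (κ : ENNReal) * ENNReal.ofReal (vc m * (3 - 2))
      = 1 * ENNReal.ofReal (vc m * (3 - 2)) := by rw [h3, one_mul]
    exact (ENNReal.mul_left_inj (by rw [Ne, ENNReal.ofReal_eq_zero, not_le]; exact hpos)
      ENNReal.ofReal_ne_top).mp h5
  have h6 : κ = 1 := by exact_mod_cast h4
  rw [h2, h6, one_smul]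

lemma mp_mul_rot (m : Measure SL2) [m.IsHaarMeasure] (θ : ℝ) :
    MeasurePreserving (fun g => g * rot θ) m m :=
  ⟨(continuous_id.mul continuous_const).measurable, map_mul_rot m θ⟩

/-! ### Integrals of powers -/

/-- The kernel. -/
noncomputable def kp (p : ℕ) (g : SL2) : ℝ := ((NN g)⁻¹) ^ p

omit [MeasurableSpace SL2] [BorelSpace SL2] in
lemma kp_pos (p : ℕ) (g : SL2) : 0 < kp p g := pow_pos (inv_pos.mpr (NN_pos g)) p

omit [MeasurableSpace SL2] [BorelSpace SL2] in
lemma kp_le (p : ℕ) (g : SL2) (hp : 2 ≤ p) : kp p g ≤ kp 2 g := by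
  unfold kp
  apply pow_le_pow_of_le_one (inv_nonneg.mpr (NN_pos g).le) _ hp
  rw [inv_le_one₀ (NN_pos g)]
  linarith [NN_ge_two g]

lemma measurable_kp (p : ℕ) : Measurable (kp p) := (measurable_NN.inv).pow_const p

omit [MeasurableSpace SL2] [BorelSpace SL2] in
lemma rint (p : ℕ) (hp : 2 ≤ p) :
    IntegrableOn (fun r : ℝ => (r⁻¹) ^ p) (Set.Ioi 2) := by
  have h := integrableOn_Ioi_rpow_of_lt (a := -(p : ℝ)) (c := 2)
    (by have : (2 : ℝ) ≤ p := by exact_mod_cast hp
        linarith) (by norm_num)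
  refine h.congr_fun ?_ measurableSet_Ioi
  intro r hr
  have hr' : (0 : ℝ) < r := by
    have : (2 : ℝ) < r := hr
    linarith
  simp only
  rw [Real.rpow_neg hr'.le, Real.rpow_natCast, inv_pow]

omit [MeasurableSpace SL2] [BorelSpace SL2] in
lemma rint_val (p : ℕ) (hp : 2 ≤ p) :
    ∫ r in Set.Ioi (2 : ℝ), (r⁻¹) ^ p = 1 / (2 ^ (p - 1) * ((p : ℝ) - 1)) := by
  have hp' : (2 : ℝ) ≤ p := by exact_mod_cast hp
  have h := integral_Ioi_rpow_of_lt (a := -(p : ℝ)) (by linarith) (c := 2) (by norm_num)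
  have h2 : ∫ r in Set.Ioi (2 : ℝ), (r⁻¹) ^ p = ∫ r in Set.Ioi (2 : ℝ), r ^ (-(p : ℝ)) := by
    apply setIntegral_congr_fun measurableSet_Ioi
    intro r hr
    have hr' : (0 : ℝ) < r := by
      have : (2 : ℝ) < r := hr
      linarith
    simp only
    rw [Real.rpow_neg hr'.le, Real.rpow_natCast, inv_pow]
  rw [h2, h]
  have h3 : (2 : ℝ) ^ (-(p : ℝ) + 1) = 1 / 2 ^ (p - 1) := by
    have : (-(p : ℝ) + 1) = -((p - 1 : ℕ) : ℝ) := by
      rw [Nat.cast_sub (by omega)]; push_cast; ring
    rw [this, Real.rpow_neg (by norm_num), Real.rpow_natCast, one_div]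
  rw [h3]
  have h4 : (p : ℝ) - 1 ≠ 0 := by linarith
  have h5 : -(p : ℝ) + 1 ≠ 0 := by linarith
  field_simp
  ring

variable (m : Measure SL2) [m.IsHaarMeasure]

lemma integrable_NN_comp (φ : ℝ → ℝ)
    (h : IntegrableOn φ (Set.Ioi 2)) : Integrable (fun g => φ (NN g)) m := by
  have h1 : Integrable φ (Measure.map NN m) := by
    rw [map_NN]
    exact h.smul_measure ENNReal.ofReal_ne_top
  exact h1.comp_measurable measurable_NN

lemma integral_NN_comp (φ : ℝ → ℝ) (hm : Measurable φ) :
    ∫ g, φ (NN g) ∂m = vc m * ∫ r in Set.Ioi (2 : ℝ), φ r := by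
  rw [← integral_map measurable_NN.aemeasurable hm.aestronglyMeasurable, map_NN,
    integral_smul_measure, ENNReal.toReal_ofReal (vc_pos m).le, smul_eq_mul]

lemma integrable_kp (p : ℕ) (hp : 2 ≤ p) : Integrable (kp p) m :=
  integrable_NN_comp m (fun r => (r⁻¹) ^ p) (rint p hp)

/-- Total mass of the kernel. -/
noncomputable def Zp (p : ℕ) : ℝ := ∫ g, kp p g ∂m

lemma Zp_eq (p : ℕ) (hp : 2 ≤ p) : Zp m p = vc m * (1 / (2 ^ (p - 1) * ((p : ℝ) - 1))) := by
  unfold Zp kp
  rw [integral_NN_comp m (fun r => (r⁻¹) ^ p) (by fun_prop), rint_val p hp]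

lemma Zp_pos (p : ℕ) (hp : 2 ≤ p) : 0 < Zp m p := by
  rw [Zp_eq m p hp]
  have hp' : (2 : ℝ) ≤ p := by exact_mod_cast hp
  have := vc_pos m
  have : 0 < (p : ℝ) - 1 := by linarith
  positivity

lemma kp_eta_le (p : ℕ) (hp : 4 ≤ p) (δ : ℝ) (hδ : 0 < δ) :
    ∫ g, kp p g * Real.sqrt (NN g * (NN g - 2)) ∂m
      ≤ Zp m p * (δ + 4 * (p - 1) / (δ * ((p - 3) * (p - 2)))) := by
  have hp' : (4 : ℝ) ≤ p := by exact_mod_cast hp
  have key : ∀ g : SL2, kp p g * Real.sqrt (NN g * (NN g - 2)) ≤
      δ * kp p g + (1 / δ) * (kp (p - 2) g - 2 * kp (p - 1) g) := by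
    intro g
    have hN := NN_ge_two g
    have hx : 0 ≤ NN g * (NN g - 2) := mul_nonneg (by linarith) (by linarith)
    have h1 : Real.sqrt (NN g * (NN g - 2)) ≤ δ + (1 / δ) * (NN g * (NN g - 2)) := by
      set y := Real.sqrt (NN g * (NN g - 2)) with hy
      have hy2 : y ^ 2 = NN g * (NN g - 2) := Real.sq_sqrt hx
      rw [← hy2]
      have hy0 : 0 ≤ y := Real.sqrt_nonneg _
      have : 0 ≤ (1 / δ) * (y - δ) ^ 2 := by positivity
      have e : (1 / δ) * (y - δ) ^ 2 = (1 / δ) * y ^ 2 - 2 * y + δ := by field_simp; ring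
      nlinarith
    have h2 : kp p g * (NN g * (NN g - 2)) = kp (p - 2) g - 2 * kp (p - 1) g := by
      unfold kp
      have hne : NN g ≠ 0 := (NN_pos g).ne'
      obtain ⟨q, rfl⟩ : ∃ q, p = q + 2 := ⟨p - 2, by omega⟩
      have e1 : q + 2 - 2 = q := by omega
      have e2 : q + 2 - 1 = q + 1 := by omega
      rw [e1, e2]
      have hy : (NN g)⁻¹ * NN g = 1 := inv_mul_cancel₀ hne
      generalize (NN g)⁻¹ = y at *
      rw [pow_add, pow_succ]
      linear_combination y ^ q * (y * NN g + 1 - 2 * y) * hy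
    calc kp p g * Real.sqrt (NN g * (NN g - 2))
        ≤ kp p g * (δ + (1 / δ) * (NN g * (NN g - 2))) :=
          mul_le_mul_of_nonneg_left h1 (kp_pos p g).le
      _ = δ * kp p g + (1 / δ) * (kp p g * (NN g * (NN g - 2))) := by ring
      _ = _ := by rw [h2]
  have i1 := integrable_kp m p (by omega)
  have i2 := integrable_kp m (p - 2) (by omega)
  have i3 := integrable_kp m (p - 1) (by omega)
  have i4 : Integrable (fun g => 2 * kp (p - 1) g) m := i3.const_mul 2
  have i5 : Integrable (fun g => kp (p - 2) g - 2 * kp (p - 1) g) m := i2.sub i4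
  have i6 : Integrable (fun g => (1 / δ) * (kp (p - 2) g - 2 * kp (p - 1) g)) m :=
    i5.const_mul (1 / δ)
  have i7 : Integrable (fun g => δ * kp p g) m := i1.const_mul δ
  have irhs : Integrable (fun g => δ * kp p g + (1 / δ) * (kp (p - 2) g - 2 * kp (p - 1) g)) m :=
    i7.add i6
  have hle : ∫ g, kp p g * Real.sqrt (NN g * (NN g - 2)) ∂m ≤
      ∫ g, (δ * kp p g + (1 / δ) * (kp (p - 2) g - 2 * kp (p - 1) g)) ∂m := by
    apply integral_mono_of_nonneg
    · exact Eventually.of_forall fun g => mul_nonneg (kp_pos p g).le (Real.sqrt_nonneg _)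
    · exact irhs
    · exact Eventually.of_forall key
  refine hle.trans (le_of_eq ?_)
  rw [integral_add i7 i6, integral_const_mul, integral_const_mul, integral_sub i2 i4,
    integral_const_mul]
  change δ * Zp m p + 1 / δ * (Zp m (p - 2) - 2 * Zp m (p - 1)) = _
  rw [Zp_eq m p (by omega), Zp_eq m (p - 2) (by omega), Zp_eq m (p - 1) (by omega)]
  obtain ⟨q, rfl⟩ : ∃ q, p = q + 4 := ⟨p - 4, by omega⟩
  have e1 : q + 4 - 1 = q + 3 := by omega
  have e2 : q + 4 - 2 - 1 = q + 1 := by omega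
  have e3 : q + 4 - 1 - 1 = q + 2 := by omega
  have e4 : q + 4 - 2 = q + 2 := by omega
  rw [e2, e3, e1, e4]
  push_cast
  have h3 : (q : ℝ) + 3 ≠ 0 := by positivity
  have h4 : (q : ℝ) + 2 ≠ 0 := by positivity
  have h5 : (q : ℝ) + 1 ≠ 0 := by positivity
  have a1 : (q : ℝ) + 4 - 1 = q + 3 := by ring
  have a2 : (q : ℝ) + 2 - 1 = q + 1 := by ring
  have a3 : (q : ℝ) + 3 - 1 = q + 2 := by ring
  have a4 : (q : ℝ) + 4 - 3 = q + 1 := by ring
  have a5 : (q : ℝ) + 4 - 2 = q + 2 := by ring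
  rw [a1, a2, a3, a4, a5]
  field_simp
  ring

end Pool.Agent.Helper31.ErgSL2
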