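import Pool.Agent.Helper31.ErgSL2.Decay

/-!
# Harnack inequalities and the path decomposition
-/

set_option autoImplicit false
open MeasureTheory Filter Topology

namespace Pool.Agent.Helper31.ErgSL2

lemma kp_mul_le (p : ℕ) (h g : SL2) : kp p (h * g) ≤ NN h ^ p * kp p g := by
  have h1 := NN_mul_le h⁻¹ (h * g)
  rw [inv_mul_cancel_left, NN_inv] at h1
  have h3 : (NN (h * g))⁻¹ ≤ NN h * (NN g)⁻¹ := by
    rw [← div_eq_mul_inv, inv_eq_one_div, div_le_div_iff₀ (NN_pos _) (NN_pos _)]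
    linarith
  unfold kp
  rw [← mul_pow]
  exact pow_le_pow_left₀ (inv_nonneg.mpr (NN_pos _).le) h3 p

lemma kp_mul_inv_le (p : ℕ) (M h : SL2) : kp p (M * h⁻¹) ≤ NN h ^ p * kp p M := by
  have h1 := NN_mul_le (M * h⁻¹) h
  rw [inv_mul_cancel_right] at h1
  have h3 : (NN (M * h⁻¹))⁻¹ ≤ NN h * (NN M)⁻¹ := by
    have h4 : 1 / NN (M * h⁻¹) ≤ NN h / NN M := by
      rw [div_le_div_iff₀ (NN_pos _) (NN_pos _)]
      linarith
    rwa [one_div, div_eq_mul_inv] at h4
  unfold kp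
  rw [← mul_pow]
  exact pow_le_pow_left₀ (inv_nonneg.mpr (NN_pos _).le) h3 p

/-- The kernel of `S_t T_p` as a function on the group. -/
noncomputable def kap (p : ℕ) (t : ℝ) (g : SL2) : ℝ := ∫ θ, kp p (dia (-t) * rot θ * g) ∂nu

lemma kap_rot_mul (p : ℕ) (t : ℝ) (α : ℝ) (g : SL2) : kap p t (rot α * g) = kap p t g := by
  unfold kap
  have per : Function.Periodic (fun θ => kp p (dia (-t) * rot θ * g)) (2 * Real.pi) := by
    intro θ; simp only [rot_two_pi]
  rw [← nu_shift _ per α]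
  congr 1; funext θ
  rw [rot_add]
  congr 1
  group

lemma kap_mul_rot (p : ℕ) (t : ℝ) (α : ℝ) (g : SL2) : kap p t (g * rot α) = kap p t g := by
  unfold kap kp
  congr 1; funext θ
  rw [← mul_assoc, NN_mul_rot]

lemma kap_eq_of_NN (p : ℕ) (t : ℝ) {g g' : SL2} (h : NN g = NN g') : kap p t g = kap p t g' :=
  biK_eq (kap p t) (fun θ M => kap_rot_mul p t θ M) (fun θ M => kap_mul_rot p t θ M) h

lemma kap_inv (p : ℕ) (t : ℝ) (g : SL2) : kap p t g⁻¹ = kap p t g :=
  kap_eq_of_NN p t (NN_inv g)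

lemma continuous_kp (p : ℕ) : Continuous (kp p) := by
  unfold kp
  exact (continuous_NN.inv₀ fun g => (NN_pos g).ne').pow p

lemma kp_le_one (p : ℕ) (g : SL2) : kp p g ≤ 1 := by
  unfold kp
  apply pow_le_one₀ (inv_nonneg.mpr (NN_pos g).le)
  rw [inv_le_one₀ (NN_pos g)]
  linarith [NN_ge_two g]

lemma int_kp_rot (p : ℕ) (a g : SL2) : Integrable (fun θ => kp p (a * rot θ * g)) nu := by
  refine Integrable.of_bound (C := 1) ?_ (Eventually.of_forall fun θ => ?_)
  · apply Continuous.aestronglyMeasurable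
    exact (continuous_kp p).comp ((continuous_const.mul continuous_rot).mul continuous_const)
  · rw [Real.norm_of_nonneg (kp_pos p _).le]
    exact kp_le_one p _

lemma kap_mul_le (p : ℕ) (t : ℝ) (h g : SL2) : kap p t (h * g) ≤ NN h ^ p * kap p t g := by
  rw [← kap_inv, mul_inv_rev, ← kap_inv p t g]
  unfold kap
  rw [← integral_const_mul]
  have h1 := int_kp_rot p (dia (-t)) (g⁻¹ * h⁻¹)
  have h2 := int_kp_rot p (dia (-t)) g⁻¹
  apply integral_mono h1 (h2.const_mul _)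
  intro θ
  simp only
  rw [← mul_assoc]
  exact kp_mul_inv_le p _ h

lemma kap_nonneg (p : ℕ) (t : ℝ) (g : SL2) : 0 ≤ kap p t g :=
  integral_nonneg fun θ => (kp_pos p _).le

variable [MeasurableSpace SL2] [BorelSpace SL2]
variable {X : Type*} [MeasurableSpace X] [MulAction SL2 X] [MeasurableSMul₂ SL2 X]
variable (m : Measure SL2) [m.IsHaarMeasure]

lemma int_kap (p : ℕ) (hp : 2 ≤ p) (t : ℝ) : Integrable (kap p t) m :=
  (integrable_k0 m p hp t).integral_prod_right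

lemma S_T_eq (p : ℕ) (hp : 2 ≤ p) {f : X → ℝ} (hf : BM f) (t : ℝ) (x : X) :
    S t (T m p f) x = ∫ g, kap p t g * f (g⁻¹ • x) ∂m := by
  rw [← J_k0_eq m p hp hf]
  unfold J
  rw [integral_prod_symm _ (int_J m hf (integrable_k0 m p hp t) x)]
  congr 1; funext g
  simp only
  rw [integral_mul_const]
  rfl

lemma S_T_harnack (p : ℕ) (hp : 2 ≤ p) {f : X → ℝ} (hf : BM f) (hf0 : ∀ x, 0 ≤ f x) (t : ℝ)
    (h : SL2) (x : X) : S t (T m p f) (h • x) ≤ NN h ^ p * S t (T m p f) x := by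
  rw [S_T_eq m p hp hf, S_T_eq m p hp hf, ← integral_const_mul,
    ← integral_mul_left_eq_self (fun g => kap p t g * f (g⁻¹ • h • x)) h]
  have e : ∀ g : SL2, (h * g)⁻¹ • h • x = g⁻¹ • x := by
    intro g; rw [smul_smul, mul_inv_rev, mul_assoc, inv_mul_cancel, mul_one]
  simp_rw [e]
  have i1 : Integrable (fun g => kap p t (h * g) * f (g⁻¹ • x)) m :=
    int_T m hf ((int_kap m p hp t).comp_mul_left h) x
  have i2 : Integrable (fun g => NN h ^ p * (kap p t g * f (g⁻¹ • x))) m :=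
    (int_T m hf (int_kap m p hp t) x).const_mul _
  apply integral_mono i1 i2
  intro g
  simp only
  rw [← mul_assoc]
  exact mul_le_mul_of_nonneg_right (kap_mul_le p t h g) (hf0 _)

lemma T_harnack (p : ℕ) (hp : 2 ≤ p) {f : X → ℝ} (hf : BM f) (hf0 : ∀ x, 0 ≤ f x)
    (h : SL2) (x : X) : T m p f (h • x) ≤ NN h ^ p * T m p f x := by
  rw [T_smul]
  unfold T
  rw [← integral_const_mul]
  have i1 : Integrable (fun g => kp p (h * g) * f (g⁻¹ • x)) m :=
    int_T m hf ((integrable_kp m p hp).comp_mul_left h) x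
  have i2 : Integrable (fun g => NN h ^ p * (kp p g * f (g⁻¹ • x))) m :=
    (int_T m hf (integrable_kp m p hp) x).const_mul _
  apply integral_mono i1 i2
  intro g
  simp only
  rw [← mul_assoc]
  exact mul_le_mul_of_nonneg_right (kp_mul_le p h g) (hf0 _)

/-! ### The recursion -/

section
variable (F : X → ℝ)

/-- Killing rate. -/
noncomputable def om (i : ℕ) (z : X) : ℝ := 1 / (1 + S i F z)

/-- Survivors. -/
noncomputable def hc (c : ℝ) : ℕ → X → ℝ
  | 0 => F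
  | (i + 1) => fun z => (1 - c * om F (i + 1) z) * hc c i (dia (-1) • z)

/-- Killed mass. -/
noncomputable def qc (c : ℝ) (i : ℕ) (z : X) : ℝ := c * om F (i + 1) z * hc F c i (dia (-1) • z)

variable {F}

omit [MeasurableSpace X] [MeasurableSMul₂ SL2 X] [MeasurableSpace SL2] [BorelSpace SL2]

lemma om_pos (hF0 : ∀ x, 0 ≤ F x) (i : ℕ) (z : X) : 0 < om F i z := by
  have := S_nonneg hF0 i z
  unfold om; positivity

lemma om_le_one (hF0 : ∀ x, 0 ≤ F x) (i : ℕ) (z : X) : om F i z ≤ 1 := by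
  have := S_nonneg hF0 i z
  unfold om
  rw [div_le_one (by positivity)]; linarith

lemma hc_nonneg (hF0 : ∀ x, 0 ≤ F x) {c : ℝ} (hc0 : 0 ≤ c) (hc1 : c ≤ 1) (i : ℕ) :
    ∀ z, 0 ≤ hc F c i z := by
  induction i with
  | zero => exact hF0
  | succ i ih =>
    intro z
    simp only [hc]
    apply mul_nonneg _ (ih _)
    have h1 := om_pos hF0 (i + 1) z
    have h2 := om_le_one hF0 (i + 1) z
    nlinarith

lemma qc_nonneg (hF0 : ∀ x, 0 ≤ F x) {c : ℝ} (hc0 : 0 ≤ c) (hc1 : c ≤ 1) (i : ℕ) (z : X) :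
    0 ≤ qc F c i z :=
  mul_nonneg (mul_nonneg hc0 (om_pos hF0 _ _).le) (hc_nonneg hF0 hc0 hc1 _ _)

lemma hc_split (c : ℝ) (i : ℕ) (z : X) :
    hc F c i (dia (-1) • z) = hc F c (i + 1) z + qc F c i z := by
  simp only [hc, qc]; ring

lemma path_decomp (c : ℝ) (t : ℕ) : ∀ z, F (dia (-(t : ℝ)) • z) = hc F c t z +
    ∑ i ∈ Finset.range t, qc F c i (dia (-((t : ℝ) - 1 - i)) • z) := by
  induction t with
  | zero => intro z; simp [hc, dia_zero]
  | succ t ih =>
    intro z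
    have e1 : dia (-((t + 1 : ℕ) : ℝ)) • z = dia (-(t : ℝ)) • dia (-1) • z := by
      rw [smul_smul, ← dia_add]; congr 2; push_cast; ring
    rw [e1, ih, Finset.sum_range_succ, hc_split]
    have e2 : dia (-(((t + 1 : ℕ) : ℝ) - 1 - t)) • z = z := by
      have : -(((t + 1 : ℕ) : ℝ) - 1 - t) = 0 := by push_cast; ring
      rw [this, dia_zero, one_smul]
    rw [e2]
    have e3 : ∀ i ∈ Finset.range t, qc F c i (dia (-((t : ℝ) - 1 - i)) • dia (-1) • z)
        = qc F c i (dia (-(((t + 1 : ℕ) : ℝ) - 1 - i)) • z) := by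
      intro i _
      rw [smul_smul, ← dia_add]
      congr 3
      push_cast; ring
    rw [Finset.sum_congr rfl e3]
    ring

lemma hc_le (hF0 : ∀ x, 0 ≤ F x) {c : ℝ} (hc0 : 0 ≤ c) (hc1 : c ≤ 1) (i : ℕ) (z : X) :
    hc F c i z ≤ F (dia (-(i : ℝ)) • z) := by
  rw [path_decomp (F := F) c i z]
  have : 0 ≤ ∑ j ∈ Finset.range i, qc F c j (dia (-((i : ℝ) - 1 - j)) • z) :=
    Finset.sum_nonneg fun j _ => qc_nonneg hF0 hc0 hc1 _ _
  linarith

end

section
variable {F : X → ℝ}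

lemma om_BM (hF : BM F) (hF0 : ∀ x, 0 ≤ F x) (i : ℕ) : BM (om F i) := by
  refine ⟨?_, 1, fun x => ?_⟩
  · unfold om
    exact measurable_const.div (measurable_const.add (S_BM hF i).meas)
  · rw [abs_of_pos (om_pos hF0 i x)]; exact om_le_one hF0 i x

lemma hc_BM (hF : BM F) (hF0 : ∀ x, 0 ≤ F x) (c : ℝ) (i : ℕ) : BM (hc F c i) := by
  induction i with
  | zero => exact hF
  | succ i ih =>
    simp only [hc]
    exact (((BM.const 1).sub ((om_BM hF hF0 (i + 1)).const_mul c))).mul (ih.smul _)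

lemma qc_BM (hF : BM F) (hF0 : ∀ x, 0 ≤ F x) (c : ℝ) (i : ℕ) : BM (qc F c i) :=
  ((om_BM hF hF0 (i + 1)).const_mul c).mul ((hc_BM hF hF0 c i).smul _)

omit [MeasurableSpace X] [MeasurableSMul₂ SL2 X] [MeasurableSpace SL2] [BorelSpace SL2] in
lemma om_Kinv (i : ℕ) : Kinv (om F i) := by
  intro θ x; unfold om; rw [S_Kinv]

omit [MeasurableSpace X] [MeasurableSMul₂ SL2 X] [MeasurableSpace SL2] [BorelSpace SL2] in
lemma S_zero_apply (φ : X → ℝ) (x : X) : S 0 φ x = ∫ θ, φ (rot θ • x) ∂nu := by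
  unfold S; simp only [neg_zero, dia_zero, one_mul]

lemma G_decomp (hF : BM F) (hF0 : ∀ x, 0 ≤ F x) (c : ℝ) (t : ℕ) (x : X) :
    S t F x = S 0 (hc F c t) x + ∑ i ∈ Finset.range t, S ((t : ℝ) - 1 - i) (qc F c i) x := by
  have e : S t F x = ∫ θ, (hc F c t (rot θ • x) +
      ∑ i ∈ Finset.range t, qc F c i ((dia (-((t : ℝ) - 1 - i)) * rot θ) • x)) ∂nu := by
    unfold S
    congr 1; funext θ
    rw [← smul_smul, path_decomp (F := F) c t]
    simp only [smul_smul]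
  have i1 : Integrable (fun θ => hc F c t (rot θ • x)) nu := by
    have := int_rot (hc_BM hF hF0 c t) 1 x
    simpa using this
  have i2 : ∀ i ∈ Finset.range t,
      Integrable (fun θ => qc F c i ((dia (-((t : ℝ) - 1 - i)) * rot θ) • x)) nu :=
    fun i _ => int_rot (qc_BM hF hF0 c i) _ x
  rw [e, integral_add i1 (integrable_finsetSum _ i2), integral_finsetSum _ i2, S_zero_apply]
  rfl

/-- The case `c = 1`: survivors and killed mass are proportional. -/
lemma S_hc_one (hF0 : ∀ x, 0 ≤ F x) (j : ℕ) (x : X) :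
    S 0 (hc F 1 (j + 1)) x = S ((j : ℝ) + 1) F x * S 0 (qc F 1 j) x := by
  rw [S_zero_apply, S_zero_apply, ← integral_const_mul]
  congr 1; funext θ
  have h1 : S ((j : ℝ) + 1) F (rot θ • x) = S ((j : ℝ) + 1) F x := S_Kinv _ _ θ x
  have h2 := S_nonneg hF0 ((j : ℝ) + 1) (rot θ • x)
  simp only [hc, qc, om]
  push_cast
  rw [← h1]
  have h3 : 1 + S ((j : ℝ) + 1) F (rot θ • x) ≠ 0 := by positivity
  field_simp
  ring

lemma G_ident (hF : BM F) (hF0 : ∀ x, 0 ≤ F x) (j : ℕ) (x : X) :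
    S ((j : ℝ) + 1) F x = S ((j : ℝ) + 1) F x * S 0 (qc F 1 j) x +
      ∑ i ∈ Finset.range (j + 1), S ((j : ℝ) - i) (qc F 1 i) x := by
  have h := G_decomp hF hF0 1 (j + 1) x
  rw [S_hc_one hF0] at h
  push_cast at h
  rw [h]
  congr 1
  · rw [← h]
  · apply Finset.sum_congr rfl
    intro i _
    congr 2; ring

variable (μ : Measure X) [IsProbabilityMeasure μ] [SMulInvariantMeasure SL2 X μ]

lemma mass_sum (hF : BM F) (hF0 : ∀ x, 0 ≤ F x) (c : ℝ) (n : ℕ) :
    ∑ i ∈ Finset.range n, ∫ x, qc F c i x ∂μ + ∫ x, hc F c n x ∂μ = ∫ x, F x ∂μ := by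
  induction n with
  | zero => simp [hc]
  | succ n ih =>
    rw [Finset.sum_range_succ, ← ih]
    have h1 : ∫ x, hc F c n x ∂μ = ∫ x, hc F c (n + 1) x ∂μ + ∫ x, qc F c n x ∂μ := by
      rw [← int_smul μ (hc F c n) (hc_BM hF hF0 c n).meas (dia (-1)),
        ← integral_add ((hc_BM hF hF0 c (n + 1)).integrable μ) ((qc_BM hF hF0 c n).integrable μ)]
      congr 1; funext x; exact hc_split c n x
    rw [h1]; ring

lemma mass_le (hF : BM F) (hF0 : ∀ x, 0 ≤ F x) {c : ℝ} (hc0 : 0 ≤ c) (hc1 : c ≤ 1) (n : ℕ) :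
    ∑ i ∈ Finset.range n, ∫ x, qc F c i x ∂μ ≤ ∫ x, F x ∂μ := by
  rw [← mass_sum μ hF hF0 c n]
  have : 0 ≤ ∫ x, hc F c n x ∂μ := integral_nonneg (hc_nonneg hF0 hc0 hc1 n)
  linarith

omit μ in
/-- The killed mass is at most `c`. -/
lemma S_qc_le (hF : BM F) (hF0 : ∀ x, 0 ≤ F x) {c : ℝ} (hc0 : 0 ≤ c) (hc1 : c ≤ 1) (i : ℕ)
    (x : X) : S 0 (qc F c i) x ≤ c := by
  have h1 : S 0 (qc F c i) x ≤ c * om F (i + 1) x * S ((i : ℝ) + 1) F x := by
    rw [S_zero_apply]
    unfold S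
    rw [← integral_const_mul]
    apply integral_mono
    · have := int_rot (qc_BM hF hF0 c i) 1 x
      simpa using this
    · exact (int_rot hF _ x).const_mul _
    · intro θ
      simp only [qc]
      rw [om_Kinv]
      apply mul_le_mul_of_nonneg_left _ (mul_nonneg hc0 (om_pos hF0 _ _).le)
      refine (hc_le hF0 hc0 hc1 i _).trans (le_of_eq ?_)
      rw [smul_smul, smul_smul, ← dia_add]
      congr 4
      ring
  refine h1.trans ?_
  have h2 := S_nonneg hF0 ((i : ℝ) + 1) x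
  have h3 : om F (i + 1) x * S ((i : ℝ) + 1) F x ≤ 1 := by
    unfold om
    push_cast
    rw [div_mul_eq_mul_div, one_mul, div_le_one (by positivity)]
    linarith
  calc c * om F (i + 1) x * S ((i : ℝ) + 1) F x = c * (om F (i + 1) x * S ((i : ℝ) + 1) F x) := by
        ring
    _ ≤ c * 1 := mul_le_mul_of_nonneg_left h3 hc0
    _ = c := mul_one c

end

end Pool.Agent.Helper31.ErgSL2
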