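import Pool.Agent.Helper31.ErgSL2.Ops

/-!
# Kernel operators
-/

set_option autoImplicit false
open MeasureTheory Filter Topology

namespace Pool.Agent.Helper31.ErgSL2

variable [MeasurableSpace SL2] [BorelSpace SL2]
variable {X : Type*} [MeasurableSpace X] [MulAction SL2 X] [MeasurableSMul₂ SL2 X]
variable (m : Measure SL2) [m.IsHaarMeasure]

instance : SigmaCompactSpace SL2 := inferInstance
instance : SigmaFinite m := inferInstance

/-- Kernel operator. -/
noncomputable def J (k : ℝ × SL2 → ℝ) (w : X → ℝ) (x : X) : ℝ :=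
  ∫ q, k q * w (q.2⁻¹ • x) ∂(nu.prod m)

/-- The smoothing operator. -/
noncomputable def T (p : ℕ) (w : X → ℝ) (x : X) : ℝ := ∫ g, kp p g * w (g⁻¹ • x) ∂m

lemma meas_inv_smul {w : X → ℝ} (hw : Measurable w) :
    Measurable (fun q : X × SL2 => w (q.2⁻¹ • q.1)) :=
  hw.comp (measurable_snd.inv.smul measurable_fst)

lemma meas_inv_smul' {w : X → ℝ} (hw : Measurable w) (x : X) :
    Measurable (fun g : SL2 => w (g⁻¹ • x)) :=
  hw.comp (measurable_inv.smul measurable_const)

lemma meas_inv_smul2 {w : X → ℝ} (hw : Measurable w) :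
    Measurable (fun z : X × (ℝ × SL2) => w (z.2.2⁻¹ • z.1)) :=
  hw.comp (measurable_snd.snd.inv.smul measurable_fst)

variable {k : ℝ × SL2 → ℝ}

lemma int_J {w : X → ℝ} (hw : BM w) (hk : Integrable k (nu.prod m)) (x : X) :
    Integrable (fun q => k q * w (q.2⁻¹ • x)) (nu.prod m) := by
  obtain ⟨C, hC⟩ := hw.bdd
  have h1 : AEStronglyMeasurable (fun q : ℝ × SL2 => w (q.2⁻¹ • x)) (nu.prod m) :=
    ((meas_inv_smul' hw.meas x).comp measurable_snd).aestronglyMeasurable
  have := hk.bdd_mul (c := C) h1 (Eventually.of_forall fun q => hC _)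
  exact this.congr (Eventually.of_forall fun q => mul_comm _ _)

lemma int_T {w : X → ℝ} (hw : BM w) {φ : SL2 → ℝ} (hφ : Integrable φ m) (x : X) :
    Integrable (fun g => φ g * w (g⁻¹ • x)) m := by
  obtain ⟨C, hC⟩ := hw.bdd
  have := hφ.bdd_mul (c := C) (meas_inv_smul' hw.meas x).aestronglyMeasurable
    (Eventually.of_forall fun q => hC _)
  exact this.congr (Eventually.of_forall fun q => mul_comm _ _)

lemma J_abs_le {w : X → ℝ} (hk : Integrable k (nu.prod m)) {C : ℝ}
    (hC : ∀ x, |w x| ≤ C) (x : X) : |J m k w x| ≤ C * ∫ q, |k q| ∂(nu.prod m) := by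
  unfold J
  have h := norm_integral_le_of_norm_le (μ := nu.prod m) (f := fun q => k q * w (q.2⁻¹ • x))
    (g := fun q => C * |k q|) (hk.abs.const_mul C) (Eventually.of_forall fun q => by
      rw [Real.norm_eq_abs, abs_mul, mul_comm]
      exact mul_le_mul_of_nonneg_right (hC _) (abs_nonneg _))
  rwa [integral_const_mul, Real.norm_eq_abs] at h

lemma J_meas {w : X → ℝ} (hw : Measurable w) (hk : Measurable k) : Measurable (J m k w) := by
  have : Measurable (fun z : X × (ℝ × SL2) => k z.2 * w (z.2.2⁻¹ • z.1)) := by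
    exact (hk.comp measurable_snd).mul (meas_inv_smul2 hw)
  exact (this.stronglyMeasurable.integral_prod_right' (ν := nu.prod m)).measurable

lemma J_BM {w : X → ℝ} (hw : BM w) (hk : Measurable k) (hki : Integrable k (nu.prod m)) :
    BM (J m k w) := by
  obtain ⟨C, hC⟩ := hw.bdd
  exact ⟨J_meas m hw.meas hk, _, J_abs_le m hki hC⟩

lemma J_add {w : X → ℝ} (hw : BM w) {k' : ℝ × SL2 → ℝ} (hk : Integrable k (nu.prod m))
    (hk' : Integrable k' (nu.prod m)) (x : X) :
    J m (fun q => k q + k' q) w x = J m k w x + J m k' w x := by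
  unfold J
  rw [← integral_add (int_J m hw hk x) (int_J m hw hk' x)]
  congr 1; funext q; ring

lemma J_smul (c : ℝ) (k : ℝ × SL2 → ℝ) (w : X → ℝ) (x : X) :
    J m (fun q => c * k q) w x = c * J m k w x := by
  unfold J
  rw [← integral_const_mul]
  congr 1; funext q; ring

/-! #### with an invariant measure -/

variable (μ : Measure X) [IsProbabilityMeasure μ] [SMulInvariantMeasure SL2 X μ]

lemma integral_J {w : X → ℝ} (hw : BM w) (hk : Integrable k (nu.prod m)) :
    ∫ x, J m k w x ∂μ = (∫ q, k q ∂(nu.prod m)) * ∫ x, w x ∂μ := by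
  obtain ⟨C, hC⟩ := hw.bdd
  unfold J
  rw [integral_integral_swap]
  · have : ∀ q : ℝ × SL2, ∫ x, k q * w (q.2⁻¹ • x) ∂μ = k q * ∫ x, w x ∂μ := by
      intro q; rw [integral_const_mul, int_smul μ w hw.meas]
    simp_rw [this]
    rw [integral_mul_const]
  · have h1 : Integrable (fun z : X × (ℝ × SL2) => k z.2) (μ.prod (nu.prod m)) :=
      hk.comp_snd μ
    have h2 : AEStronglyMeasurable (fun z : X × (ℝ × SL2) => w (z.2.2⁻¹ • z.1))
        (μ.prod (nu.prod m)) :=
      (meas_inv_smul2 hw.meas).aestronglyMeasurable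
    have := h1.bdd_mul (c := C) h2 (Eventually.of_forall fun q => hC _)
    exact this.congr (Eventually.of_forall fun q => mul_comm _ _)

/-- Cauchy-Schwarz by the discriminant trick. -/
lemma cs_integral {Ω : Type*} [MeasurableSpace Ω] {η : Measure Ω} {φ f : Ω → ℝ}
    (hφ : ∀ ω, 0 ≤ φ ω) (i0 : Integrable φ η) (i1 : Integrable (fun ω => φ ω * f ω) η)
    (i2 : Integrable (fun ω => φ ω * f ω ^ 2) η) :
    (∫ ω, φ ω * f ω ∂η) ^ 2 ≤ (∫ ω, φ ω ∂η) * ∫ ω, φ ω * f ω ^ 2 ∂η := by
  set A := ∫ ω, φ ω ∂η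
  set B := ∫ ω, φ ω * f ω ∂η
  set D := ∫ ω, φ ω * f ω ^ 2 ∂η
  have hA : 0 ≤ A := integral_nonneg hφ
  have hD : 0 ≤ D := integral_nonneg fun ω => mul_nonneg (hφ ω) (sq_nonneg _)
  have key : ∀ t : ℝ, 0 ≤ D - 2 * t * B + t ^ 2 * A := by
    intro t
    have h1 : 0 ≤ ∫ ω, φ ω * (f ω - t) ^ 2 ∂η :=
      integral_nonneg fun ω => mul_nonneg (hφ ω) (sq_nonneg _)
    have h2 : ∫ ω, φ ω * (f ω - t) ^ 2 ∂η = D - 2 * t * B + t ^ 2 * A := by
      have e : (fun ω => φ ω * (f ω - t) ^ 2)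
          = fun ω => (φ ω * f ω ^ 2 - 2 * t * (φ ω * f ω)) + t ^ 2 * φ ω := by
        funext ω; ring
      have j1 : Integrable (fun ω => 2 * t * (φ ω * f ω)) η := i1.const_mul _
      have j2 : Integrable (fun ω => t ^ 2 * φ ω) η := i0.const_mul _
      have j3 : Integrable (fun ω => φ ω * f ω ^ 2 - 2 * t * (φ ω * f ω)) η := i2.sub j1
      rw [e, integral_add j3 j2, integral_sub i2 j1, integral_const_mul, integral_const_mul]
    rwa [h2] at h1
  rcases hA.eq_or_lt with h0 | h0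
  · -- A = 0 forces B = 0
    have hB : B = 0 := by
      by_contra hne
      have h1 := key ((D + 1) / (2 * B))
      rw [← h0] at h1
      have : 2 * ((D + 1) / (2 * B)) * B = D + 1 := by field_simp
      rw [this] at h1
      linarith
    rw [hB, ← h0]; simp
  · have h1 := key (B / A)
    have h2 : D - 2 * (B / A) * B + (B / A) ^ 2 * A = D - B ^ 2 / A := by field_simp; ring
    rw [h2, sub_nonneg, div_le_iff₀ h0] at h1
    linarith

lemma J_L2 {w : X → ℝ} (hw : BM w) (hkm : Measurable k) (hk : Integrable k (nu.prod m)) :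
    ∫ x, (J m k w x) ^ 2 ∂μ ≤ (∫ q, |k q| ∂(nu.prod m)) ^ 2 * ∫ x, w x ^ 2 ∂μ := by
  have hw2 : BM (fun x => w x ^ 2) := hw.sq
  have hwa : BM (fun x => |w x|) := ⟨hw.meas.abs, by
    obtain ⟨C, hC⟩ := hw.bdd; exact ⟨C, fun x => by rw [abs_abs]; exact hC x⟩⟩
  have h1 : ∀ x, (J m k w x) ^ 2 ≤ (∫ q, |k q| ∂(nu.prod m)) *
      J m (fun q => |k q|) (fun x => w x ^ 2) x := by
    intro x
    have h2 : |J m k w x| ≤ ∫ q, |k q| * |w (q.2⁻¹ • x)| ∂(nu.prod m) := by
      unfold J
      refine (abs_integral_le_integral_abs).trans (le_of_eq ?_)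
      congr 1; funext q; rw [abs_mul]
    have h3 := cs_integral (η := nu.prod m) (φ := fun q => |k q|)
      (f := fun q => |w (q.2⁻¹ • x)|) (fun q => abs_nonneg _) hk.abs
      (int_J m hwa hk.abs x) (by
        have := int_J m hw2 hk.abs x
        refine this.congr (Eventually.of_forall fun q => ?_)
        simp only [sq_abs])
    calc (J m k w x) ^ 2 = |J m k w x| ^ 2 := (sq_abs _).symm
      _ ≤ (∫ q, |k q| * |w (q.2⁻¹ • x)| ∂(nu.prod m)) ^ 2 :=
        pow_le_pow_left₀ (abs_nonneg _) h2 2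
      _ ≤ _ := h3
      _ = _ := by simp only [sq_abs, J]
  have hB : BM (fun x => J m (fun q => |k q|) (fun x => w x ^ 2) x) := J_BM m hw2 hkm.abs hk.abs
  calc ∫ x, (J m k w x) ^ 2 ∂μ ≤ ∫ x, (∫ q, |k q| ∂(nu.prod m)) *
      J m (fun q => |k q|) (fun x => w x ^ 2) x ∂μ :=
        integral_mono ((J_BM m hw hkm hk).sq.integrable μ) ((hB.const_mul _).integrable μ) h1
    _ = _ := by rw [integral_const_mul, integral_J m μ hw2 hk.abs]; ring

end Pool.Agent.Helper31.ErgSL2
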