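import Pool.Agent.Helper31.ErgSL2.Haar2

/-!
# Averaging operators
-/

set_option autoImplicit false
open MeasureTheory Filter Topology

namespace Pool.Agent.Helper31.ErgSL2

/-! ### The normalised measure on the circle -/

/-- Normalised Lebesgue measure on `(0, 2π]`. -/
noncomputable def nu : Measure ℝ :=
  ENNReal.ofReal (2 * Real.pi)⁻¹ • (volume.restrict (Set.Ioc 0 (2 * Real.pi)))

instance : IsProbabilityMeasure nu := by
  constructor
  rw [nu, Measure.smul_apply, Measure.restrict_apply MeasurableSet.univ, Set.univ_inter,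
    Real.volume_Ioc, smul_eq_mul, ← ENNReal.ofReal_mul (by positivity)]
  rw [sub_zero, inv_mul_cancel₀ (by positivity), ENNReal.ofReal_one]

lemma nu_integral (f : ℝ → ℝ) :
    ∫ θ, f θ ∂nu = (2 * Real.pi)⁻¹ * ∫ θ in (0 : ℝ)..(2 * Real.pi), f θ := by
  rw [nu, integral_smul_measure, ENNReal.toReal_ofReal (by positivity),
    intervalIntegral.integral_of_le (by positivity), smul_eq_mul]

lemma nu_shift (f : ℝ → ℝ) (hf : Function.Periodic f (2 * Real.pi)) (α : ℝ) :
    ∫ θ, f (θ + α) ∂nu = ∫ θ, f θ ∂nu := by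
  rw [nu_integral, nu_integral, intervalIntegral.integral_comp_add_right]
  congr 1
  have := hf.intervalIntegral_add_eq α 0
  rw [zero_add] at this
  rw [zero_add, add_comm (2 * Real.pi) α, this]

lemma nu_neg (f : ℝ → ℝ) (hf : Function.Periodic f (2 * Real.pi)) :
    ∫ θ, f (-θ) ∂nu = ∫ θ, f θ ∂nu := by
  rw [nu_integral, nu_integral, intervalIntegral.integral_comp_neg]
  congr 1
  have := hf.intervalIntegral_add_eq (-(2 * Real.pi)) 0
  rw [zero_add] at this
  rw [neg_zero, ← this]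
  congr 1
  ring

lemma nu_deriv (f f' : ℝ → ℝ) (hf : Function.Periodic f (2 * Real.pi))
    (hd : ∀ θ, HasDerivAt f (f' θ) θ) (hc : Continuous f') : ∫ θ, f' θ ∂nu = 0 := by
  rw [nu_integral, intervalIntegral.integral_eq_sub_of_hasDerivAt (fun θ _ => hd θ)
    (hc.intervalIntegrable _ _)]
  have := hf 0
  rw [zero_add] at this
  rw [this]; simp

/-! ### Bounded measurable functions -/

section
variable {X : Type*} [MeasurableSpace X]

/-- Bounded measurable. -/
structure BM (φ : X → ℝ) : Prop where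
  meas : Measurable φ
  bdd : ∃ C, ∀ x, |φ x| ≤ C

lemma BM.bdd' {φ : X → ℝ} (h : BM φ) : ∃ C, 0 ≤ C ∧ ∀ x, |φ x| ≤ C := by
  obtain ⟨C, hC⟩ := h.bdd
  exact ⟨max C 0, le_max_right _ _, fun x => (hC x).trans (le_max_left _ _)⟩

lemma BM.integrable {φ : X → ℝ} (h : BM φ) (μ : Measure X) [IsFiniteMeasure μ] :
    Integrable φ μ := by
  obtain ⟨C, hC⟩ := h.bdd
  exact Integrable.of_bound h.meas.aestronglyMeasurable C (Eventually.of_forall hC)

lemma BM.const (c : ℝ) : BM (fun _ : X => c) := ⟨measurable_const, |c|, fun _ => le_rfl⟩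

lemma BM.add {φ ψ : X → ℝ} (h : BM φ) (h' : BM ψ) : BM (fun x => φ x + ψ x) := by
  obtain ⟨C, hC⟩ := h.bdd
  obtain ⟨D, hD⟩ := h'.bdd
  exact ⟨h.meas.add h'.meas, C + D, fun x => (abs_add_le _ _).trans (add_le_add (hC x) (hD x))⟩

lemma BM.neg {φ : X → ℝ} (h : BM φ) : BM (fun x => - φ x) := by
  obtain ⟨C, hC⟩ := h.bdd
  exact ⟨h.meas.neg, C, fun x => by rw [abs_neg]; exact hC x⟩

lemma BM.sub {φ ψ : X → ℝ} (h : BM φ) (h' : BM ψ) : BM (fun x => φ x - ψ x) := by
  simpa [sub_eq_add_neg] using h.add h'.neg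

lemma BM.mul {φ ψ : X → ℝ} (h : BM φ) (h' : BM ψ) : BM (fun x => φ x * ψ x) := by
  obtain ⟨C, hC0, hC⟩ := h.bdd'
  obtain ⟨D, hD⟩ := h'.bdd
  exact ⟨h.meas.mul h'.meas, C * D, fun x => by
    rw [abs_mul]; exact mul_le_mul (hC x) (hD x) (abs_nonneg _) hC0⟩

lemma BM.const_mul {φ : X → ℝ} (h : BM φ) (c : ℝ) : BM (fun x => c * φ x) :=
  (BM.const c).mul h

lemma BM.sq {φ : X → ℝ} (h : BM φ) : BM (fun x => φ x ^ 2) := by
  simpa [pow_two] using h.mul h

lemma BM.sum {ι : Type*} (s : Finset ι) {φ : ι → X → ℝ} (h : ∀ i, BM (φ i)) :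
    BM (fun x => ∑ i ∈ s, φ i x) := by
  classical
  induction s using Finset.induction_on with
  | empty => simpa using BM.const (X := X) 0
  | insert a s ha ih =>
    simp_rw [Finset.sum_insert ha]
    exact (h a).add ih

lemma BM.comp {Y : Type*} [MeasurableSpace Y] {φ : X → ℝ} (h : BM φ) {f : Y → X}
    (hf : Measurable f) : BM (fun y => φ (f y)) := by
  obtain ⟨C, hC⟩ := h.bdd
  exact ⟨h.meas.comp hf, C, fun y => hC _⟩

end

variable [MeasurableSpace SL2] [BorelSpace SL2]
variable {X : Type*} [MeasurableSpace X] [MulAction SL2 X] [MeasurableSMul₂ SL2 X]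

lemma measurable_rot : Measurable rot := continuous_rot.measurable

instance : MeasurableMul₂ SL2 := inferInstance
instance : MeasurableInv SL2 := inferInstance

lemma BM.smul {φ : X → ℝ} (h : BM φ) (g : SL2) : BM (fun x => φ (g • x)) :=
  h.comp (measurable_const_smul g)

/-- `φ (k x) = φ x` for all rotations. -/
def Kinv (φ : X → ℝ) : Prop := ∀ θ x, φ (rot θ • x) = φ x

/-- The operators `S_s`. -/
noncomputable def S (s : ℝ) (φ : X → ℝ) (x : X) : ℝ :=
  ∫ θ, φ ((dia (-s) * rot θ) • x) ∂nu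

omit [MeasurableSpace X] [MeasurableSMul₂ SL2 X] [MeasurableSpace SL2] [BorelSpace SL2] in
lemma per_rot (φ : X → ℝ) (a : SL2) (x : X) :
    Function.Periodic (fun θ => φ ((a * rot θ) • x)) (2 * Real.pi) := by
  intro θ; simp only [rot_two_pi]

omit [MeasurableSpace X] [MeasurableSMul₂ SL2 X] [MeasurableSpace SL2] [BorelSpace SL2] in
lemma avg_shift (φ : X → ℝ) (a : SL2) (α : ℝ) (x : X) :
    ∫ θ, φ ((a * rot θ) • rot α • x) ∂nu = ∫ θ, φ ((a * rot θ) • x) ∂nu := by
  rw [← nu_shift _ (per_rot φ a x) α]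
  congr 1; funext θ
  rw [smul_smul, mul_assoc, ← rot_add]

omit [MeasurableSpace X] [MeasurableSMul₂ SL2 X] [MeasurableSpace SL2] [BorelSpace SL2] in
lemma S_Kinv (s : ℝ) (φ : X → ℝ) : Kinv (S s φ) := fun α x => avg_shift φ _ α x

lemma meas_joint {φ : X → ℝ} (h : Measurable φ) (a : SL2) :
    Measurable (fun q : X × ℝ => φ ((a * rot q.2) • q.1)) := by
  apply h.comp
  apply Measurable.smul
  · exact (measurable_const.mul (measurable_rot.comp measurable_snd))
  · exact measurable_fst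

lemma avg_BM {φ : X → ℝ} (h : BM φ) (a : SL2) : BM (fun x => ∫ θ, φ ((a * rot θ) • x) ∂nu) := by
  obtain ⟨C, hC⟩ := h.bdd
  refine ⟨?_, C, fun x => ?_⟩
  · exact ((meas_joint h.meas a).stronglyMeasurable.integral_prod_right' (ν := nu)).measurable
  · have := norm_integral_le_of_norm_le_const (μ := nu) (f := fun θ => φ ((a * rot θ) • x))
      (C := C) (Eventually.of_forall fun θ => hC _)
    simpa using this

lemma S_BM {φ : X → ℝ} (h : BM φ) (s : ℝ) : BM (S s φ) := avg_BM h _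

lemma S_bound {φ : X → ℝ} {C : ℝ} (h : ∀ x, |φ x| ≤ C) (s : ℝ) (x : X) : |S s φ x| ≤ C := by
  have := norm_integral_le_of_norm_le_const (μ := nu)
    (f := fun θ => φ ((dia (-s) * rot θ) • x)) (C := C) (Eventually.of_forall fun θ => h _)
  simpa [S] using this

lemma int_rot {φ : X → ℝ} (h : BM φ) (a : SL2) (x : X) :
    Integrable (fun θ => φ ((a * rot θ) • x)) nu := by
  obtain ⟨C, hC⟩ := h.bdd
  refine Integrable.of_bound ?_ C (Eventually.of_forall fun θ => hC _)
  exact ((meas_joint h.meas a).comp (measurable_const.prodMk measurable_id :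
    Measurable fun θ : ℝ => (x, θ))).aestronglyMeasurable

lemma S_add {φ ψ : X → ℝ} (h : BM φ) (h' : BM ψ) (s : ℝ) (x : X) :
    S s (fun y => φ y + ψ y) x = S s φ x + S s ψ x :=
  integral_add (int_rot h _ x) (int_rot h' _ x)

lemma S_sub {φ ψ : X → ℝ} (h : BM φ) (h' : BM ψ) (s : ℝ) (x : X) :
    S s (fun y => φ y - ψ y) x = S s φ x - S s ψ x :=
  integral_sub (int_rot h _ x) (int_rot h' _ x)

omit [MeasurableSpace X] [MeasurableSMul₂ SL2 X] [MeasurableSpace SL2] [BorelSpace SL2] in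
lemma S_const_mul (φ : X → ℝ) (c : ℝ) (s : ℝ) (x : X) :
    S s (fun y => c * φ y) x = c * S s φ x := integral_const_mul _ _

omit [MeasurableSpace X] [MeasurableSMul₂ SL2 X] [MeasurableSpace SL2] [BorelSpace SL2] in
lemma S_const (c : ℝ) (s : ℝ) (x : X) : S s (fun _ => c) x = c := by
  simp [S]

lemma S_mono {φ ψ : X → ℝ} (h : BM φ) (h' : BM ψ) (hle : ∀ x, φ x ≤ ψ x) (s : ℝ) (x : X) :
    S s φ x ≤ S s ψ x :=
  integral_mono (int_rot h _ x) (int_rot h' _ x) (fun θ => hle _)

omit [MeasurableSpace SL2] [BorelSpace SL2] [MeasurableSpace X] [MeasurableSMul₂ SL2 X] in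
lemma S_nonneg {φ : X → ℝ} (h : ∀ x, 0 ≤ φ x) (s : ℝ) (x : X) : 0 ≤ S s φ x :=
  integral_nonneg (fun θ => h _)

omit [MeasurableSpace SL2] [BorelSpace SL2] in
lemma NN_transpose (a b θ : ℝ) :
    NN (dia a * rot θ * dia b) = NN (dia b * rot (-θ) * dia a) := by
  unfold NN
  simp only [mul_00, mul_01, mul_10, mul_11]
  simp only [dia, rot, mkSL_00, mkSL_01, mkSL_10, mkSL_11, Real.cos_neg, Real.sin_neg]
  ring

/-- Commutation of the averaging operators on `K`-invariant functions. -/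
lemma S_comm {F : X → ℝ} (hF : BM F) (hK : Kinv F) (s t : ℝ) (x : X) :
    S t (S s F) x = S s (S t F) x := by
  obtain ⟨C, hC⟩ := hF.bdd
  set Γ : SL2 → ℝ := fun M => ∫ φ, F ((M * rot φ) • x) ∂nu with hΓ
  have g1 : ∀ θ M, Γ (rot θ * M) = Γ M := by
    intro θ M
    simp only [hΓ]
    congr 1; funext φ
    rw [mul_assoc, ← smul_smul, hK]
  have g2 : ∀ θ M, Γ (M * rot θ) = Γ M := by
    intro θ M
    simp only [hΓ]
    rw [← nu_shift _ (per_rot F M x) θ]
    congr 1; funext φ
    rw [mul_assoc, ← rot_add, add_comm]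
  have key : ∀ s t : ℝ, S t (S s F) x = ∫ θ, Γ (dia (-s) * rot θ * dia (-t)) ∂nu := by
    intro s t
    simp only [hΓ, S]
    rw [integral_integral_swap]
    · congr 1; funext θ
      congr 1; funext φ
      rw [smul_smul, mul_assoc, mul_assoc, mul_assoc]
    · refine Integrable.of_bound ?_ C (Eventually.of_forall fun q => hC _)
      apply Measurable.aestronglyMeasurable
      apply hF.meas.comp
      apply Measurable.smul
      · exact measurable_const.mul (measurable_rot.comp measurable_snd)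
      · apply Measurable.smul
        · exact measurable_const.mul (measurable_rot.comp measurable_fst)
        · exact measurable_const
  rw [key s t, key t s]
  have per : Function.Periodic (fun θ => Γ (dia (-t) * rot θ * dia (-s))) (2 * Real.pi) := by
    intro θ; simp only [rot_two_pi]
  rw [← nu_neg _ per]
  congr 1; funext θ
  exact biK_eq Γ g1 g2 (NN_transpose _ _ _)

variable (μ : Measure X) [IsProbabilityMeasure μ] [SMulInvariantMeasure SL2 X μ]

omit [IsProbabilityMeasure μ] [MeasurableSMul₂ SL2 X] [BorelSpace SL2] in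
lemma int_smul [MeasurableSMul₂ SL2 X] (φ : X → ℝ) (hφ : Measurable φ) (g : SL2) :
    ∫ x, φ (g • x) ∂μ = ∫ x, φ x ∂μ := by
  have h := measurePreserving_smul g μ
  rw [← h.map_eq, integral_map h.measurable.aemeasurable hφ.aestronglyMeasurable, h.map_eq]

/-- Fubini for the circle average. -/
lemma integral_avg_mul {F H : X → ℝ} (hF : BM F) (hH : BM H) (a : SL2) :
    ∫ x, (∫ θ, F ((a * rot θ) • x) ∂nu) * H x ∂μ
      = ∫ θ, ∫ x, F ((a * rot θ) • x) * H x ∂μ ∂nu := by
  obtain ⟨C, hC0, hC⟩ := hF.bdd'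
  obtain ⟨D, hD⟩ := hH.bdd
  rw [← integral_integral_swap]
  · congr 1; funext x
    rw [integral_mul_const]
  · refine Integrable.of_bound ?_ (C * D) (Eventually.of_forall fun q => ?_)
    · exact ((meas_joint hF.meas a).mul (hH.meas.comp measurable_fst)).aestronglyMeasurable
    · simp only [Function.uncurry]
      rw [Real.norm_eq_abs, abs_mul]
      exact mul_le_mul (hC _) (hD _) (abs_nonneg _) hC0

lemma integral_S {F : X → ℝ} (hF : BM F) (s : ℝ) : ∫ x, S s F x ∂μ = ∫ x, F x ∂μ := by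
  have h := integral_avg_mul μ hF (BM.const 1) (dia (-s))
  simp only [mul_one] at h
  unfold S
  rw [h]
  simp_rw [int_smul μ F hF.meas]
  simp

lemma integral_S_mul {F H : X → ℝ} (hF : BM F) (hH : BM H) (hHK : Kinv H) (t : ℝ) :
    ∫ x, S t F x * H x ∂μ = ∫ x, F (dia (-t) • x) * H x ∂μ := by
  unfold S
  rw [integral_avg_mul μ hF hH]
  have : ∀ θ, ∫ x, F ((dia (-t) * rot θ) • x) * H x ∂μ = ∫ x, F (dia (-t) • x) * H x ∂μ := by
    intro θ
    rw [← int_smul μ (fun x => F (dia (-t) • x) * H x) ((hF.smul _).mul hH).meas (rot θ)]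
    congr 1; funext x
    rw [hHK, smul_smul]
  simp_rw [this]
  simp

/-- Self-adjointness. -/
lemma S_selfadj {F H : X → ℝ} (hF : BM F) (hFK : Kinv F) (hH : BM H) (hHK : Kinv H) (t : ℝ) :
    ∫ x, S t F x * H x ∂μ = ∫ x, F x * S t H x ∂μ := by
  rw [integral_S_mul μ hF hH hHK]
  have h2 : ∫ x, F x * S t H x ∂μ = ∫ x, S t H x * F x ∂μ := by
    congr 1; funext x; ring
  rw [h2, integral_S_mul μ hH hF hFK]
  -- F(a_{-t} x) H(x) ~ F(x) H(a_t x)
  have e1 : ∫ x, F (dia (-t) • x) * H x ∂μ = ∫ x, F x * H (dia t • x) ∂μ := by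
    rw [← int_smul μ (fun x => F (dia (-t) • x) * H x) ((hF.smul _).mul hH).meas (dia t)]
    congr 1; funext x
    rw [smul_smul, ← dia_add, neg_add_cancel, dia_zero, one_smul]
  rw [e1]
  have hw : dia t = rot (Real.pi / 2) * dia (-t) * rot (-(Real.pi / 2)) := by
    apply ext2 <;> simp only [mul_00, mul_01, mul_10, mul_11] <;>
      simp only [dia, rot, mkSL_00, mkSL_01, mkSL_10, mkSL_11, Real.cos_neg, Real.sin_neg,
        Real.cos_pi_div_two, Real.sin_pi_div_two] <;> ring_nf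
  rw [← int_smul μ (fun x => F x * H (dia t • x)) (hF.mul (hH.smul _)).meas (rot (Real.pi / 2))]
  congr 1; funext x
  rw [hFK, smul_smul, hw, mul_assoc, ← rot_add, neg_add_cancel, rot_zero, mul_one, ← smul_smul,
    hHK]
  ring

end Pool.Agent.Helper31.ErgSL2
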