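import Pool.Agent.Helper31.ErgSL2.Compare

/-!
# The weak type `(1,1)` inequality
-/

set_option autoImplicit false
open MeasureTheory Filter Topology

namespace Pool.Agent.Helper31.ErgSL2

lemma geom_bound {r : ℝ} (h0 : 0 ≤ r) (h1 : r < 1) (n : ℕ) :
    ∑ k ∈ Finset.range n, r ^ k ≤ 1 / (1 - r) := by
  have h2 := (summable_geometric_of_lt_one h0 h1).sum_le_tsum (Finset.range n)
    (fun i _ => pow_nonneg h0 i)
  rwa [tsum_geometric_of_lt_one h0 h1, inv_eq_one_div] at h2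

lemma geom_bound' {r : ℝ} (h0 : 0 ≤ r) (h1 : r < 1) (j : ℕ) :
    ∑ i ∈ Finset.range (j + 1), r ^ (j - i) ≤ 1 / (1 - r) := by
  have : ∑ i ∈ Finset.range (j + 1), r ^ (j - i) = ∑ i ∈ Finset.range (j + 1), r ^ i := by
    have := Finset.sum_range_reflect (fun i => r ^ i) (j + 1)
    rw [← this]
    apply Finset.sum_congr rfl
    intro i hi
    congr 1
  rw [this]; exact geom_bound h0 h1 _

lemma double_sum {r : ℝ} (h0 : 0 ≤ r) (h1 : r < 1) (a : ℕ → ℝ) (ha : ∀ i, 0 ≤ a i) (n : ℕ) :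
    ∑ j ∈ Finset.range n, ∑ i ∈ Finset.range (j + 1), r ^ (j - i) * a i
      ≤ 1 / (1 - r) * ∑ i ∈ Finset.range n, a i := by
  have e : ∑ j ∈ Finset.range n, ∑ i ∈ Finset.range (j + 1), r ^ (j - i) * a i
      = ∑ i ∈ Finset.range n, ∑ j ∈ Finset.Ico i n, r ^ (j - i) * a i := by
    apply Finset.sum_comm'
    intro x y
    simp only [Finset.mem_range, Finset.mem_Ico]
    omega
  rw [e, Finset.mul_sum]
  apply Finset.sum_le_sum
  intro i _
  rw [← Finset.sum_mul, Finset.sum_Ico_eq_sum_range]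
  apply mul_le_mul_of_nonneg_right _ (ha i)
  have : ∀ k ∈ Finset.range (n - i), r ^ (i + k - i) = r ^ k := by
    intro k _; rw [Nat.add_sub_cancel_left]
  rw [Finset.sum_congr rfl this]
  exact geom_bound h0 h1 _

variable [MeasurableSpace SL2] [BorelSpace SL2]
variable {X : Type*} [MeasurableSpace X] [MulAction SL2 X] [MeasurableSMul₂ SL2 X]
variable (m : Measure SL2) [m.IsHaarMeasure]
variable (μ : Measure X) [IsProbabilityMeasure μ] [SMulInvariantMeasure SL2 X μ]

omit [SMulInvariantMeasure SL2 X μ] in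
lemma T_add_const (p : ℕ) (hp : 2 ≤ p) {w : X → ℝ} (hw : BM w) (c : ℝ) (x : X) :
    T m p (fun y => w y + c) x = T m p w x + c * Zp m p := by
  unfold T Zp
  rw [← integral_const_mul, ← integral_add (int_T m hw (integrable_kp m p hp) x)
    ((integrable_kp m p hp).const_mul c)]
  congr 1; funext g; ring

lemma integral_T (p : ℕ) (hp : 2 ≤ p) {w : X → ℝ} (hw : BM w) :
    ∫ x, T m p w x ∂μ = Zp m p * ∫ x, w x ∂μ := by
  have h := integral_J m μ hw (integrable_k0 m p hp 0)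
  rw [integral_k0 m p hp] at h
  rw [← h]
  congr 1; funext x
  rw [J_k0_eq m p hp hw, S_zero_apply]
  simp_rw [T_Kinv m p w _ x]
  simp

/-- Bound for one term. -/
lemma term_L2 {C β : ℝ} (hC : 0 < C)
    (hdec : ∀ w : X → ℝ, BM w → ∫ x, w x ∂μ = 0 → ∀ s, 0 ≤ s →
      ∫ x, S s (T m 2 w) x ^ 2 ∂μ ≤ C * Real.exp (-β * s) * ∫ x, w x ^ 2 ∂μ)
    {ρ : X → ℝ} (hρ : BM ρ) (h0 : ∀ x, 0 ≤ ρ x) (h1 : ∀ x, ρ x ≤ 1) (s : ℝ) (hs : 0 ≤ s) :
    ∫ x, S s (T m 2 (fun y => ρ y - ∫ z, ρ z ∂μ)) x ^ 2 ∂μ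
      ≤ C * Real.exp (-β * s) * ∫ x, ρ x ∂μ := by
  set c := ∫ z, ρ z ∂μ with hc
  have hw : BM (fun y => ρ y - c) := hρ.sub (BM.const c)
  have hw0 : ∫ x, (ρ x - c) ∂μ = 0 := by
    rw [integral_sub (hρ.integrable μ) (integrable_const _), integral_const]
    simp [hc]
  refine (hdec _ hw hw0 s hs).trans ?_
  apply mul_le_mul_of_nonneg_left _ (by positivity)
  have e : ∫ x, (ρ x - c) ^ 2 ∂μ = ∫ x, ρ x ^ 2 ∂μ - c ^ 2 := by
    have e1 : (fun x => (ρ x - c) ^ 2) = fun x => (ρ x ^ 2 - 2 * c * ρ x) + c ^ 2 := by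
      funext x; ring
    rw [e1, integral_add ((hρ.sq.sub (hρ.const_mul _)).integrable μ) (integrable_const _),
      integral_sub (hρ.sq.integrable μ) ((hρ.const_mul _).integrable μ), integral_const_mul,
      integral_const, ← hc]
    simp; ring
  rw [e]
  have h2 : ∫ x, ρ x ^ 2 ∂μ ≤ c := by
    rw [hc]
    apply integral_mono (hρ.sq.integrable μ) (hρ.integrable μ)
    intro x
    simp only
    nlinarith [h0 x, h1 x]
  nlinarith [sq_nonneg c]

/-- The weak type inequality for the smoothed averages. -/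
theorem weak_type {R ε : ℝ} (hgap : Gap μ R ε) (hε : 0 < ε) : ∃ C4 : ℝ, 0 < C4 ∧
    ∀ f : X → ℝ, BM f → (∀ x, 0 ≤ f x) →
      μ {x | ∃ j : ℕ, 1 ≤ S ((j : ℝ) + 1) (T m 2 f) x} ≤ ENNReal.ofReal (C4 * ∫ x, f x ∂μ) := by
  obtain ⟨C, β, hC, hβ, hdec⟩ := decay m μ 2 le_rfl hgap hε
  have hZ := Zp_pos m 2 le_rfl
  have hkz := kz_pos m
  set C2 : ℝ := 576 ^ 3 / kz m with hC2
  have hC2p : 0 < C2 := by positivity
  set r : ℝ := Real.exp (-β / 2) with hr
  have hr0 : 0 < r := Real.exp_pos _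
  have hr1 : r < 1 := by rw [hr, Real.exp_lt_one_iff]; linarith
  have h1r : 0 < 1 - r := by linarith
  set C3 : ℝ := 2 + (4 * C2) ^ 2 * (C * (1 / (1 - r)) * (1 / (1 - r))) with hC3
  have hC3p : 0 < C3 := by positivity
  set M0 : ℝ := 1 / (4 * C2 * Zp m 2) with hM0
  have hM0p : 0 < M0 := by positivity
  refine ⟨(C3 + 1 / M0) * Zp m 2, by positivity, ?_⟩
  intro f hf hf0
  set F := T m 2 f with hF
  have hFB : BM F := T_BM m 2 le_rfl hf
  have hF0 : ∀ x, 0 ≤ F x := fun x => integral_nonneg fun g => mul_nonneg (kp_pos 2 g).le (hf0 _)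
  have hFH : Har F := by
    intro h x hh
    refine (T_harnack m 2 le_rfl hf hf0 h x).trans ?_
    apply mul_le_mul_of_nonneg_right _ (hF0 x)
    nlinarith [NN_ge_two h]
  have hG : ∀ i : ℕ, Har (S i F) := by
    intro i h x hh
    refine (S_T_harnack m 2 le_rfl hf hf0 i h x).trans ?_
    apply mul_le_mul_of_nonneg_right _ (S_nonneg hF0 _ x)
    nlinarith [NN_ge_two h]
  set M := ∫ x, F x ∂μ with hM
  have hMeq : M = Zp m 2 * ∫ x, f x ∂μ := integral_T m μ 2 le_rfl hf
  have hMn : 0 ≤ M := integral_nonneg hF0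
  have hf1 : 0 ≤ ∫ x, f x ∂μ := integral_nonneg hf0
  have hgoal : (C3 + 1 / M0) * Zp m 2 * ∫ x, f x ∂μ = C3 * M + M / M0 := by rw [hMeq]; ring
  rw [hgoal]
  rcases le_or_gt M0 M with hcase | hcase
  · -- trivial case
    refine prob_le_one.trans ?_
    rw [← ENNReal.ofReal_one]
    apply ENNReal.ofReal_le_ofReal
    have : 1 ≤ M / M0 := by rw [one_le_div hM0p]; exact hcase
    nlinarith
  -- main case
  set c : ℝ := 1 / 576 with hc
  have hc0 : 0 ≤ c := by norm_num [hc]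
  have hc1 : c ≤ 1 := by norm_num [hc]
  set ρ : ℕ → X → ℝ := fun i => S 0 (qc F c i) with hρ
  have hρB : ∀ i, BM (ρ i) := fun i => S_BM (qc_BM hFB hF0 c i) 0
  have hρ0 : ∀ i x, 0 ≤ ρ i x := fun i x => S_nonneg (qc_nonneg hF0 hc0 hc1 i) 0 x
  have hρ1 : ∀ i x, ρ i x ≤ 1 := fun i x => (S_qc_le hFB hF0 hc0 hc1 i x).trans hc1
  set a : ℕ → ℝ := fun i => ∫ x, ρ i x ∂μ with ha
  have haq : ∀ i, a i = ∫ x, qc F c i x ∂μ := fun i => integral_S μ (qc_BM hFB hF0 c i) 0
  have ha0 : ∀ i, 0 ≤ a i := fun i => integral_nonneg (hρ0 i)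
  have hasum : ∀ n, ∑ i ∈ Finset.range n, a i ≤ M := by
    intro n
    simp_rw [haq]
    exact mass_le μ hFB hF0 hc0 hc1 n
  set e : ℕ → ℕ → X → ℝ := fun i k => S k (T m 2 (fun y => ρ i y - a i)) with he
  have hwB : ∀ i, BM (fun y => ρ i y - a i) := fun i => (hρB i).sub (BM.const _)
  have heB : ∀ i k, BM (e i k) := fun i k => S_BM (T_BM m 2 le_rfl (hwB i)) _
  have heL2 : ∀ i k : ℕ, ∫ x, e i k x ^ 2 ∂μ ≤ C * Real.exp (-β * k) * a i := fun i k =>
    term_L2 m μ hC hdec (hρB i) (hρ0 i) (hρ1 i) k (Nat.cast_nonneg k)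
  -- the pointwise bound
  have hterm : ∀ (i j : ℕ), i ≤ j → ∀ x, S ((j : ℝ) - i) (qc F 1 i) x
      ≤ C2 * (Zp m 2 * a i + e i (j - i) x) := by
    intro i j hij x
    have h1 := S_qc_le_ST m hFB hF0 hFH hG i ((j : ℝ) - i)
      (by have : (i : ℝ) ≤ j := by exact_mod_cast hij
          linarith) x
    have h2 : S ((j : ℝ) - i) (T m 2 (qc F c i)) x = Zp m 2 * a i + e i (j - i) x := by
      have e1 : ∀ y, T m 2 (qc F c i) y = T m 2 (fun y => ρ i y - a i) y + a i * Zp m 2 := by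
        intro y
        rw [← T_avg m (qc_BM hFB hF0 c i), ← T_add_const m 2 le_rfl (hwB i)]
        simp only [hρ, sub_add_cancel]
      have e2 : T m 2 (qc F c i) = fun y => T m 2 (fun y => ρ i y - a i) y + a i * Zp m 2 :=
        funext e1
      rw [e2, S_add (T_BM m 2 le_rfl (hwB i)) (BM.const _), S_const]
      simp only [he]
      rw [Nat.cast_sub hij]; ring
    rw [← hc, h2] at h1
    rw [hC2, div_mul_eq_mul_div, le_div_iff₀ hkz]
    linarith
  set E : ℕ → X → ℝ := fun j x => ∑ i ∈ Finset.range (j + 1), |e i (j - i) x| with hE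
  have habs : ∀ i k, BM (fun x => |e i k x|) := fun i k => ⟨(heB i k).meas.abs, by
    obtain ⟨D, hD⟩ := (heB i k).bdd; exact ⟨D, fun x => by rw [abs_abs]; exact hD x⟩⟩
  have hEB : ∀ j, BM (E j) := by
    intro j
    have : BM (fun x => ∑ i ∈ Finset.range (j + 1), (fun i x => |e i (j - i) x|) i x) :=
      BM.sum _ fun i => habs i (j - i)
    exact this
  have hE0 : ∀ j x, 0 ≤ E j x := fun j x => Finset.sum_nonneg fun i _ => abs_nonneg _
  -- inclusion
  set ρ1 : ℕ → X → ℝ := fun j => S 0 (qc F 1 j) with hρ1'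
  have hρ1B : ∀ j, BM (ρ1 j) := fun j => S_BM (qc_BM hFB hF0 1 j) 0
  have hρ10 : ∀ j x, 0 ≤ ρ1 j x := fun j x =>
    S_nonneg (qc_nonneg hF0 zero_le_one le_rfl j) 0 x
  have hincl : ∀ j : ℕ, {x | 1 ≤ S ((j : ℝ) + 1) F x} ⊆
      {x | 1 / 2 ≤ ρ1 j x} ∪ {x | (1 / (4 * C2)) ^ 2 ≤ E j x ^ 2} := by
    intro j x hx
    simp only [Set.mem_ofPred_eq] at hx
    rw [Set.mem_union]
    by_cases h : 1 / 2 ≤ ρ1 j x
    · left; exact h
    · right
      push Not at h
      have h1 := G_ident hFB hF0 j x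
      have h2 : ∑ i ∈ Finset.range (j + 1), S ((j : ℝ) - i) (qc F 1 i) x ≤
          C2 * (Zp m 2 * M + E j x) := by
        calc ∑ i ∈ Finset.range (j + 1), S ((j : ℝ) - i) (qc F 1 i) x
            ≤ ∑ i ∈ Finset.range (j + 1), C2 * (Zp m 2 * a i + |e i (j - i) x|) := by
              apply Finset.sum_le_sum
              intro i hi
              refine (hterm i j (by rw [Finset.mem_range] at hi; omega) x).trans ?_
              apply mul_le_mul_of_nonneg_left _ hC2p.le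
              linarith [le_abs_self (e i (j - i) x)]
          _ = C2 * (Zp m 2 * ∑ i ∈ Finset.range (j + 1), a i + E j x) := by
              rw [← Finset.mul_sum, Finset.sum_add_distrib, ← Finset.mul_sum]
          _ ≤ _ := by
              apply mul_le_mul_of_nonneg_left _ hC2p.le
              have := mul_le_mul_of_nonneg_left (hasum (j + 1)) hZ.le
              linarith
      have h3 : C2 * (Zp m 2 * M) ≤ 1 / 4 := by
        have : C2 * (Zp m 2 * M) ≤ C2 * (Zp m 2 * M0) := by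
          apply mul_le_mul_of_nonneg_left _ hC2p.le
          exact mul_le_mul_of_nonneg_left hcase.le hZ.le
        refine this.trans (le_of_eq ?_)
        rw [hM0]; field_simp
      have h4 : 1 / 2 ≤ ∑ i ∈ Finset.range (j + 1), S ((j : ℝ) - i) (qc F 1 i) x := by
        have h5 : S ((j : ℝ) + 1) F x * ρ1 j x ≤ S ((j : ℝ) + 1) F x * (1 / 2) :=
          mul_le_mul_of_nonneg_left h.le (by linarith)
        have h6 : S ((j : ℝ) + 1) F x = S ((j : ℝ) + 1) F x * ρ1 j x +
          ∑ i ∈ Finset.range (j + 1), S ((j : ℝ) - i) (qc F 1 i) x := h1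
        linarith
      have h5 : 1 / (4 * C2) ≤ E j x := by
        rw [div_le_iff₀ (by positivity)]
        nlinarith
      exact pow_le_pow_left₀ (by positivity) h5 2
  -- L² bound for E
  have hEL2 : ∀ j, ∫ x, E j x ^ 2 ∂μ ≤
      C * (1 / (1 - r)) * ∑ i ∈ Finset.range (j + 1), r ^ (j - i) * a i := by
    intro j
    have h1 : ∀ x, E j x ^ 2 ≤ (1 / (1 - r)) *
        ∑ i ∈ Finset.range (j + 1), (r ^ (j - i))⁻¹ * e i (j - i) x ^ 2 := by
      intro x
      have h2 := Finset.sum_sq_le_sum_mul_sum_of_sq_le_mul (Finset.range (j + 1))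
        (r := fun i => |e i (j - i) x|) (f := fun i => r ^ (j - i))
        (g := fun i => (r ^ (j - i))⁻¹ * e i (j - i) x ^ 2)
        (fun i _ => by positivity) (fun i _ => by positivity)
        (fun i _ => by
          have : r ^ (j - i) ≠ 0 := by positivity
          simp only [sq_abs]
          apply le_of_eq
          field_simp)
      refine h2.trans ?_
      apply mul_le_mul_of_nonneg_right (geom_bound' hr0.le hr1 j)
      exact Finset.sum_nonneg fun i _ => by positivity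
    have hB2 : ∀ i, BM (fun x => (r ^ (j - i))⁻¹ * e i (j - i) x ^ 2) := fun i =>
      ((heB i (j - i)).sq).const_mul _
    calc ∫ x, E j x ^ 2 ∂μ ≤ ∫ x, (1 / (1 - r)) *
        ∑ i ∈ Finset.range (j + 1), (r ^ (j - i))⁻¹ * e i (j - i) x ^ 2 ∂μ :=
          integral_mono ((hEB j).sq.integrable μ)
            (((BM.sum _ hB2).const_mul _).integrable μ) h1
      _ = (1 / (1 - r)) * ∑ i ∈ Finset.range (j + 1),
            (r ^ (j - i))⁻¹ * ∫ x, e i (j - i) x ^ 2 ∂μ := by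
          rw [integral_const_mul, integral_finsetSum _ fun i _ => (hB2 i).integrable μ]
          congr 1
          apply Finset.sum_congr rfl
          intro i _
          rw [integral_const_mul]
      _ ≤ (1 / (1 - r)) * ∑ i ∈ Finset.range (j + 1), C * (r ^ (j - i) * a i) := by
          apply mul_le_mul_of_nonneg_left _ (by positivity)
          apply Finset.sum_le_sum
          intro i _
          have h2 := heL2 i (j - i)
          have h3 : Real.exp (-β * ((j - i : ℕ) : ℝ)) = r ^ (j - i) * r ^ (j - i) := by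
            rw [hr, ← Real.exp_nat_mul, ← Real.exp_add]; congr 1; ring
          rw [h3] at h2
          have h4 : (r ^ (j - i)) ≠ 0 := by positivity
          calc (r ^ (j - i))⁻¹ * ∫ x, e i (j - i) x ^ 2 ∂μ
              ≤ (r ^ (j - i))⁻¹ * (C * (r ^ (j - i) * r ^ (j - i)) * a i) :=
                mul_le_mul_of_nonneg_left h2 (by positivity)
            _ = _ := by field_simp
      _ = _ := by rw [← Finset.mul_sum]; ring
  -- measure of one set
  have hone : ∀ j : ℕ, μ.real {x | 1 ≤ S ((j : ℝ) + 1) F x} ≤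
      2 * ∫ x, qc F 1 j x ∂μ + (4 * C2) ^ 2 * ∫ x, E j x ^ 2 ∂μ := by
    intro j
    have h1 : μ.real {x | 1 / 2 ≤ ρ1 j x} ≤ 2 * ∫ x, qc F 1 j x ∂μ := by
      have h2 := mul_meas_ge_le_integral_of_nonneg (μ := μ) (f := ρ1 j)
        (Eventually.of_forall (hρ10 j)) ((hρ1B j).integrable μ) (1 / 2)
      have h3 : ∫ x, ρ1 j x ∂μ = ∫ x, qc F 1 j x ∂μ := integral_S μ (qc_BM hFB hF0 1 j) 0
      rw [h3] at h2
      linarith
    have h2 : μ.real {x | (1 / (4 * C2)) ^ 2 ≤ E j x ^ 2} ≤ (4 * C2) ^ 2 * ∫ x, E j x ^ 2 ∂μ := by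
      have h3 := mul_meas_ge_le_integral_of_nonneg (μ := μ) (f := fun x => E j x ^ 2)
        (Eventually.of_forall fun x => sq_nonneg _) ((hEB j).sq.integrable μ) ((1 / (4 * C2)) ^ 2)
      have h4 : (1 / (4 * C2)) ^ 2 * (4 * C2) ^ 2 = 1 := by field_simp
      have h5 : 0 < (4 * C2) ^ 2 := by positivity
      calc μ.real {x | (1 / (4 * C2)) ^ 2 ≤ E j x ^ 2}
          = (4 * C2) ^ 2 * ((1 / (4 * C2)) ^ 2 * μ.real {x | (1 / (4 * C2)) ^ 2 ≤ E j x ^ 2}) := by
            rw [← mul_assoc, mul_comm ((4 * C2) ^ 2), h4, one_mul]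
        _ ≤ _ := mul_le_mul_of_nonneg_left h3 h5.le
    exact (measureReal_mono (hincl j)).trans ((measureReal_union_le _ _).trans (add_le_add h1 h2))
  have hsum : ∀ n, ∑ j ∈ Finset.range n, μ.real {x | 1 ≤ S ((j : ℝ) + 1) F x} ≤ C3 * M := by
    intro n
    calc ∑ j ∈ Finset.range n, μ.real {x | 1 ≤ S ((j : ℝ) + 1) F x}
        ≤ ∑ j ∈ Finset.range n, (2 * ∫ x, qc F 1 j x ∂μ + (4 * C2) ^ 2 *
            (C * (1 / (1 - r)) * ∑ i ∈ Finset.range (j + 1), r ^ (j - i) * a i)) := by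
          apply Finset.sum_le_sum
          intro j _
          refine (hone j).trans ?_
          have := mul_le_mul_of_nonneg_left (hEL2 j) (by positivity : 0 ≤ (4 * C2) ^ 2)
          linarith
      _ = 2 * ∑ j ∈ Finset.range n, ∫ x, qc F 1 j x ∂μ + (4 * C2) ^ 2 * (C * (1 / (1 - r)) *
            ∑ j ∈ Finset.range n, ∑ i ∈ Finset.range (j + 1), r ^ (j - i) * a i) := by
          rw [Finset.sum_add_distrib, ← Finset.mul_sum, ← Finset.mul_sum, ← Finset.mul_sum]
      _ ≤ 2 * M + (4 * C2) ^ 2 * (C * (1 / (1 - r)) * (1 / (1 - r) * M)) := by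
          apply add_le_add
          · exact mul_le_mul_of_nonneg_left (mass_le μ hFB hF0 zero_le_one le_rfl n) (by norm_num)
          · apply mul_le_mul_of_nonneg_left _ (by positivity)
            apply mul_le_mul_of_nonneg_left _ (by positivity)
            refine (double_sum hr0.le hr1 a ha0 n).trans ?_
            exact mul_le_mul_of_nonneg_left (hasum n) (by positivity)
      _ = C3 * M := by rw [hC3]; ring
  have hunion : {x | ∃ j : ℕ, 1 ≤ S ((j : ℝ) + 1) F x} = ⋃ j : ℕ, {x | 1 ≤ S ((j : ℝ) + 1) F x} := by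
    ext x; simp
  rw [hunion]
  refine (measure_iUnion_le _).trans ?_
  have h2 : ∑' j : ℕ, μ {x | 1 ≤ S ((j : ℝ) + 1) F x} ≤ ENNReal.ofReal (C3 * M) := by
    apply ENNReal.tsum_le_of_sum_range_le
    intro n
    have : ∀ j ∈ Finset.range n, μ {x | 1 ≤ S ((j : ℝ) + 1) F x}
        = ENNReal.ofReal (μ.real {x | 1 ≤ S ((j : ℝ) + 1) F x}) := by
      intro j _
      rw [measureReal_def, ENNReal.ofReal_toReal (measure_ne_top _ _)]
    rw [Finset.sum_congr rfl this, ← ENNReal.ofReal_sum_of_nonneg fun j _ => measureReal_nonneg]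
    exact ENNReal.ofReal_le_ofReal (hsum n)
  refine h2.trans (ENNReal.ofReal_le_ofReal ?_)
  have : 0 ≤ M / M0 := by positivity
  linarith

end Pool.Agent.Helper31.ErgSL2
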